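import Mathlib

set_option linter.unusedSectionVars false
set_option linter.unusedVariables false
set_option linter.dupNamespace false

namespace Pool.Agent.H.MP_1dc5fb_an

open MeasureTheory Filter Topology Set Metric

section cv
variable {X : Type*} [MeasurableSpace X] {m : Measure X}

lemma ip {f g : X → ℝ} (hf : MemLp f 2 m) (hg : MemLp g 2 m) :
    inner ℝ (hf.toLp f) (hg.toLp g) = ∫ x, f x * g x ∂m := by
  rw [L2.inner_def]
  refine integral_congr_ae ?_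
  filter_upwards [hf.coeFn_toLp, hg.coeFn_toLp] with x h1 h2
  simp [h1, h2, mul_comm]

lemma imul {f g : X → ℝ} (hf : MemLp f 2 m) (hg : MemLp g 2 m) :
    Integrable (fun x => f x * g x) m := hf.integrable_mul hg

lemma isq {f : X → ℝ} (hf : MemLp f 2 m) : Integrable (fun x => f x ^ 2) m := hf.integrable_sq

lemma cs {f g : X → ℝ} (hf : MemLp f 2 m) (hg : MemLp g 2 m) :
    (∫ x, f x * g x ∂m) ^ 2 ≤ (∫ x, f x ^ 2 ∂m) * ∫ x, g x ^ 2 ∂m := by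
  have := real_inner_mul_inner_self_le (hf.toLp f) (hg.toLp g)
  rw [ip, ip, ip] at this
  simpa [sq] using this

lemma nsq {f g : X → ℝ} (hf : MemLp f 2 m) (hg : MemLp g 2 m) :
    ‖hf.toLp f - hg.toLp g‖ ^ 2 = ∫ x, (f x - g x) ^ 2 ∂m := by
  rw [← MemLp.toLp_sub, ← real_inner_self_eq_norm_sq, ip]
  simp [sq]

lemma mem_of_le {f g : X → ℝ} (hg : MemLp g 2 m) (hf : AEStronglyMeasurable f m) (B : ℝ)
    (h : ∀ᵐ x ∂m, |f x| ≤ B * |g x|) : MemLp f 2 m :=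
  hg.of_le_mul (c := B) hf (by simpa using h)

structure Cv (m : Measure X) (f : ℕ → X → ℝ) (g : X → ℝ) : Prop where
  hf : ∀ k, MemLp (f k) 2 m
  hg : MemLp g 2 m
  t : Tendsto (fun k => ∫ x, (f k x - g x) ^ 2 ∂m) atTop (𝓝 0)

variable {f f' : ℕ → X → ℝ} {g g' : X → ℝ}

lemma Cv.lp (h : Cv m f g) : Tendsto (fun k => (h.hf k).toLp (f k)) atTop (𝓝 (h.hg.toLp g)) := by
  rw [tendsto_iff_norm_sub_tendsto_zero]
  have := h.t.sqrt
  rw [Real.sqrt_zero] at this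
  refine this.congr fun k => ?_
  rw [← nsq (h.hf k) h.hg, Real.sqrt_sq (norm_nonneg _)]

lemma Cv.of_lp (hf : ∀ k, MemLp (f k) 2 m) (hg : MemLp g 2 m)
    (h : Tendsto (fun k => (hf k).toLp (f k)) atTop (𝓝 (hg.toLp g))) : Cv m f g := by
  refine ⟨hf, hg, ?_⟩
  rw [tendsto_iff_norm_sub_tendsto_zero] at h
  have := h.pow 2
  rw [zero_pow two_ne_zero] at this
  exact this.congr fun k => nsq _ _

lemma Cv.const (hg : MemLp g 2 m) : Cv m (fun _ => g) g := ⟨fun _ => hg, hg, by simp⟩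

lemma Cv.add (h : Cv m f g) (h' : Cv m f' g') :
    Cv m (fun k x => f k x + f' k x) (fun x => g x + g' x) :=
  Cv.of_lp (fun k => (h.hf k).add (h'.hf k)) (h.hg.add h'.hg) (h.lp.add h'.lp)

lemma Cv.smul (h : Cv m f g) (c : ℝ) : Cv m (fun k x => c * f k x) (fun x => c * g x) :=
  Cv.of_lp (fun k => (h.hf k).const_mul c) (h.hg.const_mul c) (h.lp.const_smul c)

lemma Cv.congr (h : Cv m f g) (h1 : ∀ k, f' k =ᵐ[m] f k) (h2 : g' =ᵐ[m] g) : Cv m f' g' := by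
  refine ⟨fun k => (h.hf k).ae_eq (h1 k).symm, h.hg.ae_eq h2.symm, h.t.congr fun k => ?_⟩
  refine integral_congr_ae ?_
  filter_upwards [h1 k, h2] with x a b
  rw [a, b]

lemma Cv.comp (h : Cv m f g) {κ : ℕ → ℕ} (hκ : StrictMono κ) : Cv m (fun k => f (κ k)) g :=
  ⟨fun k => h.hf _, h.hg, h.t.comp hκ.tendsto_atTop⟩

lemma Cv.inner (h : Cv m f g) {u : X → ℝ} (hu : MemLp u 2 m) :
    Tendsto (fun k => ∫ x, f k x * u x ∂m) atTop (𝓝 (∫ x, g x * u x ∂m)) := by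
  have := h.lp.inner (𝕜 := ℝ) (tendsto_const_nhds (x := hu.toLp u))
  simpa only [ip] using this

lemma Cv.ae (h : Cv m f g) : ∃ κ : ℕ → ℕ, StrictMono κ ∧
    ∀ᵐ x ∂m, Tendsto (fun k => f (κ k) x) atTop (𝓝 (g x)) := by
  obtain ⟨κ, h1, h2⟩ := (tendstoInMeasure_of_tendsto_Lp h.lp).exists_seq_tendsto_ae
  refine ⟨κ, h1, ?_⟩
  filter_upwards [h2, ae_all_iff.2 fun k => (h.hf k).coeFn_toLp, h.hg.coeFn_toLp] with x a b c
  simpa only [b, c] using a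

lemma Cv.dct (hf : ∀ k, AEStronglyMeasurable (f k) m) {u : X → ℝ} (hu : MemLp u 2 m)
    (hb : ∀ k, ∀ᵐ x ∂m, |f k x| ≤ |u x|) (hl : ∀ᵐ x ∂m, Tendsto (fun k => f k x) atTop (𝓝 (g x))) :
    Cv m f g := by
  have hgm : AEStronglyMeasurable g m := aestronglyMeasurable_of_tendsto_ae atTop hf hl
  have hgb : ∀ᵐ x ∂m, |g x| ≤ |u x| := by
    filter_upwards [ae_all_iff.2 hb, hl] with x a b
    exact le_of_tendsto' b.abs a
  refine ⟨fun k => mem_of_le hu (hf k) 1 (by simpa using hb k),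
    mem_of_le hu hgm 1 (by simpa using hgb), ?_⟩
  have := tendsto_integral_of_dominated_convergence (μ := m) (F := fun k x => (f k x - g x) ^ 2)
    (f := fun _ => (0 : ℝ)) (fun x => 4 * u x ^ 2) (fun k => ((hf k).sub hgm).pow 2)
    ((isq hu).const_mul 4) (fun k => by
      filter_upwards [hb k, hgb] with x a b
      rw [Real.norm_eq_abs, abs_pow, show 4 * u x ^ 2 = (|u x| + |u x|) ^ 2 by
        rw [← sq_abs (u x)]; ring]
      exact pow_le_pow_left₀ (abs_nonneg _) ((abs_sub _ _).trans (add_le_add a b)) 2)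
    (by
      filter_upwards [hl] with x a
      have := (a.sub_const (g x)).pow 2
      simpa using this)
  simpa using this

lemma Cv.lip (h : Cv m f g) (hf : ∀ k, MemLp (f' k) 2 m) (hg : AEStronglyMeasurable g' m) (B : ℝ)
    (hb : ∀ k, ∀ᵐ x ∂m, |f' k x - g' x| ≤ B * |f k x - g x|) : Cv m f' g' := by
  have h1 : ∀ k, MemLp (fun x => f' k x - g' x) 2 m := fun k =>
    mem_of_le ((h.hf k).sub h.hg) ((hf k).1.sub hg) B (hb k)
  have h2 : MemLp g' 2 m := by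
    have := (hf 0).sub (h1 0)
    refine this.ae_eq (Eventually.of_forall fun x => ?_)
    simp
  refine ⟨hf, h2, ?_⟩
  have := h.t.const_mul (B ^ 2)
  rw [mul_zero] at this
  refine squeeze_zero (fun k => integral_nonneg fun x => sq_nonneg _) (fun k => ?_) this
  rw [← integral_const_mul]
  refine integral_mono_ae (isq (h1 k)) ((isq ((h.hf k).sub h.hg)).const_mul _) ?_
  filter_upwards [hb k] with x a
  have := pow_le_pow_left₀ (abs_nonneg _) a 2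
  rwa [sq_abs, mul_pow, sq_abs] at this

lemma Cv.mul (h : Cv m f g) {c : ℕ → X → ℝ} {c' : X → ℝ} (hc : ∀ k, AEStronglyMeasurable (c k) m)
    (B : ℝ) (hb : ∀ k, ∀ᵐ x ∂m, |c k x| ≤ B)
    (hl : ∀ᵐ x ∂m, Tendsto (fun k => c k x) atTop (𝓝 (c' x))) :
    Cv m (fun k x => c k x * f k x) (fun x => c' x * g x) := by
  have h1 : Cv m (fun k x => c k x * g x) (fun x => c' x * g x) :=
    Cv.dct (fun k => (hc k).mul h.hg.1) (h.hg.const_mul B) (fun k => by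
      filter_upwards [hb k] with x a
      rw [abs_mul, abs_mul]
      exact mul_le_mul_of_nonneg_right (a.trans (le_abs_self _)) (abs_nonneg _)) (by
      filter_upwards [hl] with x a
      exact a.mul_const _)
  have h2 : Cv m (fun k x => c k x * (f k x - g x)) (fun x => 0) :=
    h.lip (fun k => mem_of_le ((h.hf k).sub h.hg) ((hc k).mul ((h.hf k).sub h.hg).1) B (by
      filter_upwards [hb k] with x a
      rw [abs_mul]
      exact mul_le_mul_of_nonneg_right a (abs_nonneg _))) aestronglyMeasurable_const B (fun k => by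
      filter_upwards [hb k] with x a
      rw [sub_zero, abs_mul]
      exact mul_le_mul_of_nonneg_right a (abs_nonneg _))
  refine (h1.add h2).congr (fun k => Eventually.of_forall fun x => ?_)
    (Eventually.of_forall fun x => ?_)
  · ring
  · ring

lemma Cv.mulb (h : Cv m f g) {c : X → ℝ} (hc : AEStronglyMeasurable c m)
    (B : ℝ) (hb : ∀ᵐ x ∂m, |c x| ≤ B) :
    Cv m (fun k x => c x * f k x) (fun x => c x * g x) :=
  h.mul (c := fun _ => c) (fun _ => hc) B (fun _ => hb)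
    (Eventually.of_forall fun x => tendsto_const_nhds)

end cv

noncomputable def dx (ψ : ℝ × ℝ → ℝ) (p : ℝ × ℝ) : ℝ := fderiv ℝ ψ p (1, 0)
noncomputable def dy (ψ : ℝ × ℝ → ℝ) (p : ℝ × ℝ) : ℝ := fderiv ℝ ψ p (0, 1)

lemma cont_dx {ψ : ℝ × ℝ → ℝ} (h : ContDiff ℝ 1 ψ) : Continuous (dx ψ) :=
  (h.continuous_fderiv one_ne_zero).clm_apply continuous_const

lemma cont_dy {ψ : ℝ × ℝ → ℝ} (h : ContDiff ℝ 1 ψ) : Continuous (dy ψ) :=
  (h.continuous_fderiv one_ne_zero).clm_apply continuous_const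

lemma hd_x {ψ : ℝ × ℝ → ℝ} {p : ℝ × ℝ} (h : DifferentiableAt ℝ ψ p) :
    HasDerivAt (fun x => ψ (x, p.2)) (dx ψ p) p.1 := by
  have h1 : HasDerivAt (fun x : ℝ => (x, p.2)) ((1 : ℝ), (0 : ℝ)) p.1 :=
    (hasDerivAt_id _).prodMk (hasDerivAt_const _ _)
  exact h.hasFDerivAt.comp_hasDerivAt p.1 h1

lemma hd_y {ψ : ℝ × ℝ → ℝ} {p : ℝ × ℝ} (h : DifferentiableAt ℝ ψ p) :
    HasDerivAt (fun y => ψ (p.1, y)) (dy ψ p) p.2 := by
  have h1 : HasDerivAt (fun y : ℝ => (p.1, y)) ((0 : ℝ), (1 : ℝ)) p.2 :=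
    (hasDerivAt_const _ _).prodMk (hasDerivAt_id _)
  exact h.hasFDerivAt.comp_hasDerivAt p.2 h1

lemma dx_eq {ψ : ℝ × ℝ → ℝ} {p : ℝ × ℝ} (h : DifferentiableAt ℝ ψ p) {c : ℝ}
    (h' : HasDerivAt (fun x => ψ (x, p.2)) c p.1) : dx ψ p = c := (hd_x h).unique h'

lemma dy_eq {ψ : ℝ × ℝ → ℝ} {p : ℝ × ℝ} (h : DifferentiableAt ℝ ψ p) {c : ℝ}
    (h' : HasDerivAt (fun y => ψ (p.1, y)) c p.2) : dy ψ p = c := (hd_y h).unique h'

lemma d_zero {ψ : ℝ × ℝ → ℝ} {p : ℝ × ℝ} (h : ψ =ᶠ[𝓝 p] fun _ => 0) : dx ψ p = 0 ∧ dy ψ p = 0 := by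
  simp [dx, dy, h.fderiv_eq]

structure Geo where
  T : ℝ
  H : ℝ
  L : ℝ
  c1 : ℝ
  c2 : ℝ
  φ : ℝ → ℝ
  σ : Measure ℝ
  hT : 0 < T
  hL : 0 ≤ L
  hc1 : 0 < c1
  hc2 : 0 < c2
  lip : ∀ x x', |φ x - φ x'| ≤ L * |x - x'|
  per : ∀ x, φ (x + T) = φ x
  lo : ∀ x, -H ≤ φ x
  hi : ∀ x, φ x ≤ 0
  s1 : ENNReal.ofReal c1 • volume ≤ σ
  s2 : σ ≤ ENNReal.ofReal c2 • volume
  inv : MeasurePreserving (fun x => x + T) σ σ

namespace Geo
variable (G : Geo)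

lemma cont : Continuous G.φ := by
  have : LipschitzWith ⟨G.L, G.hL⟩ G.φ :=
    LipschitzWith.of_dist_le_mul fun x y => G.lip x y
  exact this.continuous

def Ω : Set (ℝ × ℝ) := {p | G.φ p.1 < p.2}

lemma isOpen : IsOpen G.Ω := isOpen_lt (G.cont.comp continuous_fst) continuous_snd

def γ (x : ℝ) : ℝ × ℝ := (x, G.φ x)

lemma cγ : Continuous G.γ := continuous_id.prodMk G.cont

def C : Set (ℝ × ℝ) := {p | p.1 ∈ Ico 0 G.T ∧ G.φ p.1 < p.2}

lemma mC : MeasurableSet G.C :=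
  (measurableSet_Ico.preimage measurable_fst).inter G.isOpen.measurableSet

noncomputable def μ : Measure (ℝ × ℝ) := volume.restrict G.C
noncomputable def ν : Measure ℝ := G.σ.restrict (Ico 0 G.T)

instance : IsLocallyFiniteMeasure G.σ := by
  have : IsLocallyFiniteMeasure (ENNReal.ofReal G.c2 • (volume : Measure ℝ)) :=
    inferInstanceAs (IsLocallyFiniteMeasure (Real.toNNReal G.c2 • (volume : Measure ℝ)))
  exact Measure.isLocallyFiniteMeasure_of_le G.s2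

instance : IsFiniteMeasure G.ν :=
  ⟨by rw [ν, Measure.restrict_apply_univ]; exact measure_Ico_lt_top⟩

lemma aeμ : ∀ᵐ p ∂G.μ, p ∈ G.C := ae_restrict_mem G.mC
lemma aeν : ∀ᵐ x ∂G.ν, x ∈ Ico 0 G.T := ae_restrict_mem measurableSet_Ico

lemma bddμ {g : ℝ × ℝ → ℝ} (hg : Continuous g) {Y : ℝ} (h : ∀ p : ℝ × ℝ, Y < p.2 → g p = 0) :
    ∃ B, ∀ᵐ p ∂G.μ, |g p| ≤ B := by
  obtain ⟨B, hB⟩ := (isCompact_Icc.prod isCompact_Icc :
    IsCompact (Icc 0 G.T ×ˢ Icc (-G.H) Y)).exists_bound_of_continuousOn hg.continuousOn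
  refine ⟨max B 0, ?_⟩
  filter_upwards [G.aeμ] with p hp
  by_cases hy : Y < p.2
  · simp [h p hy]
  · exact (hB p ⟨⟨hp.1.1, hp.1.2.le⟩, (G.lo _).trans hp.2.le, not_lt.1 hy⟩).trans (le_max_left _ _)

lemma memμ {g : ℝ × ℝ → ℝ} (hg : Continuous g) {Y : ℝ} (h : ∀ p : ℝ × ℝ, Y < p.2 → g p = 0) :
    MemLp g 2 G.μ := by
  obtain ⟨B, hB⟩ := G.bddμ hg h
  have hK : IsCompact (Icc 0 G.T ×ˢ Icc (-G.H) Y) := isCompact_Icc.prod isCompact_Icc
  have h1 : MemLp ((Icc 0 G.T ×ˢ Icc (-G.H) Y).indicator fun _ => B) 2 G.μ :=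
    memLp_indicator_const 2 hK.measurableSet B (Or.inr
      ((Measure.restrict_apply_le _ _).trans_lt hK.measure_lt_top).ne)
  refine mem_of_le h1 hg.aestronglyMeasurable 1 ?_
  filter_upwards [G.aeμ, hB] with p hp hb
  by_cases hy : Y < p.2
  · simp [h p hy]
  · rw [indicator_of_mem (show p ∈ Icc 0 G.T ×ˢ Icc (-G.H) Y from
      ⟨⟨hp.1.1, hp.1.2.le⟩, (G.lo _).trans hp.2.le, not_lt.1 hy⟩), one_mul]
    exact hb.trans (le_abs_self _)

lemma bddν {g : ℝ → ℝ} (hg : Continuous g) : ∃ B, ∀ᵐ x ∂G.ν, |g x| ≤ B := by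
  obtain ⟨B, hB⟩ := (isCompact_Icc : IsCompact (Icc 0 G.T)).exists_bound_of_continuousOn
    hg.continuousOn
  exact ⟨B, G.aeν.mono fun x hx => hB x ⟨hx.1, hx.2.le⟩⟩

lemma memν {g : ℝ → ℝ} (hg : Continuous g) : MemLp g 2 G.ν := by
  obtain ⟨B, hB⟩ := G.bddν hg
  exact MemLp.of_bound hg.aestronglyMeasurable B hB

structure D (ψ : ℝ × ℝ → ℝ) : Prop where
  c : ContDiff ℝ 1 ψ
  m : ∀ y, ψ (0, y) = ψ (G.T, y)
  z : ∃ Y, ∀ p : ℝ × ℝ, Y < p.2 → ψ p = 0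

variable {G}

lemma D.diff {ψ : ℝ × ℝ → ℝ} (h : G.D ψ) : Differentiable ℝ ψ := h.c.differentiable one_ne_zero

lemma D.dz {ψ : ℝ × ℝ → ℝ} (h : G.D ψ) : ∃ Y, ∀ p : ℝ × ℝ, Y < p.2 →
    ψ p = 0 ∧ dx ψ p = 0 ∧ dy ψ p = 0 := by
  obtain ⟨Y, hY⟩ := h.z
  refine ⟨Y, fun p hp => ⟨hY p hp, d_zero ?_⟩⟩
  filter_upwards [(isOpen_lt continuous_const continuous_snd).mem_nhds hp] with q hq using hY q hq

lemma D.m0 {ψ : ℝ × ℝ → ℝ} (h : G.D ψ) : MemLp ψ 2 G.μ := by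
  obtain ⟨Y, hY⟩ := h.dz
  exact G.memμ h.c.continuous fun p hp => (hY p hp).1

lemma D.m1 {ψ : ℝ × ℝ → ℝ} (h : G.D ψ) : MemLp (dx ψ) 2 G.μ := by
  obtain ⟨Y, hY⟩ := h.dz
  exact G.memμ (cont_dx h.c) fun p hp => (hY p hp).2.1

lemma D.m2 {ψ : ℝ × ℝ → ℝ} (h : G.D ψ) : MemLp (dy ψ) 2 G.μ := by
  obtain ⟨Y, hY⟩ := h.dz
  exact G.memμ (cont_dy h.c) fun p hp => (hY p hp).2.2

lemma D.m3 {ψ : ℝ × ℝ → ℝ} (h : G.D ψ) : MemLp (fun x => ψ (G.γ x)) 2 G.ν :=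
  G.memν (h.c.continuous.comp G.cγ)

lemma D.bdd {ψ : ℝ × ℝ → ℝ} (h : G.D ψ) : ∃ B, (∀ᵐ p ∂G.μ, |ψ p| ≤ B) ∧
    (∀ᵐ p ∂G.μ, |dx ψ p| ≤ B) ∧ (∀ᵐ p ∂G.μ, |dy ψ p| ≤ B) ∧ ∀ᵐ x ∂G.ν, |ψ (G.γ x)| ≤ B := by
  obtain ⟨Y, hY⟩ := h.dz
  obtain ⟨B0, h0⟩ := G.bddμ h.c.continuous fun p hp => (hY p hp).1
  obtain ⟨B1, h1⟩ := G.bddμ (cont_dx h.c) fun p hp => (hY p hp).2.1
  obtain ⟨B2, h2⟩ := G.bddμ (cont_dy h.c) fun p hp => (hY p hp).2.2
  obtain ⟨B3, h3⟩ := G.bddν (h.c.continuous.comp G.cγ)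
  refine ⟨max (max B0 B1) (max B2 B3), h0.mono fun p hp => ?_, h1.mono fun p hp => ?_,
    h2.mono fun p hp => ?_, h3.mono fun p hp => ?_⟩
  · exact hp.trans ((le_max_left _ _).trans (le_max_left _ _))
  · exact hp.trans ((le_max_right _ _).trans (le_max_left _ _))
  · exact hp.trans ((le_max_left _ _).trans (le_max_right _ _))
  · exact hp.trans ((le_max_right _ _).trans (le_max_right _ _))

lemma D.zero : G.D fun _ => 0 := ⟨contDiff_const, fun _ => rfl, 0, fun _ _ => rfl⟩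

lemma D.lin {ψ ψ' : ℝ × ℝ → ℝ} (h : G.D ψ) (h' : G.D ψ') (c : ℝ) :
    G.D fun p => c * ψ p + ψ' p := by
  obtain ⟨Y, hY⟩ := h.z
  obtain ⟨Y', hY'⟩ := h'.z
  refine ⟨(contDiff_const.mul h.c).add h'.c, fun y => by rw [h.m, h'.m], max Y Y', fun p hp => ?_⟩
  rw [hY p (lt_of_le_of_lt (le_max_left _ _) hp), hY' p (lt_of_le_of_lt (le_max_right _ _) hp)]
  simp

lemma dx_lin {ψ ψ' : ℝ × ℝ → ℝ} (h : Differentiable ℝ ψ) (h' : Differentiable ℝ ψ') (c : ℝ)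
    (p : ℝ × ℝ) : dx (fun p => c * ψ p + ψ' p) p = c * dx ψ p + dx ψ' p :=
  dx_eq (by fun_prop) (((hd_x (h p)).const_mul c).add (hd_x (h' p)))

lemma dy_lin {ψ ψ' : ℝ × ℝ → ℝ} (h : Differentiable ℝ ψ) (h' : Differentiable ℝ ψ') (c : ℝ)
    (p : ℝ × ℝ) : dy (fun p => c * ψ p + ψ' p) p = c * dy ψ p + dy ψ' p :=
  dy_eq (by fun_prop) (((hd_y (h p)).const_mul c).add (hd_y (h' p)))

variable (G) in
def InV (v a b : ℝ × ℝ → ℝ) (t : ℝ → ℝ) : Prop :=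
  ∃ ψ : ℕ → ℝ × ℝ → ℝ, (∀ k, G.D (ψ k)) ∧ Cv G.μ ψ v ∧ Cv G.μ (fun k => dx (ψ k)) a ∧
    Cv G.μ (fun k => dy (ψ k)) b ∧ Cv G.ν (fun k x => ψ k (G.γ x)) t

variable {v a b v' a' b' : ℝ × ℝ → ℝ} {t t' : ℝ → ℝ}

lemma InV.m0 (h : G.InV v a b t) : MemLp v 2 G.μ := h.choose_spec.2.1.hg
lemma InV.m1 (h : G.InV v a b t) : MemLp a 2 G.μ := h.choose_spec.2.2.1.hg
lemma InV.m2 (h : G.InV v a b t) : MemLp b 2 G.μ := h.choose_spec.2.2.2.1.hg
lemma InV.m3 (h : G.InV v a b t) : MemLp t 2 G.ν := h.choose_spec.2.2.2.2.hg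

lemma D.inV {ψ : ℝ × ℝ → ℝ} (h : G.D ψ) : G.InV ψ (dx ψ) (dy ψ) (fun x => ψ (G.γ x)) :=
  ⟨fun _ => ψ, fun _ => h, .const h.m0, .const h.m1, .const h.m2, .const h.m3⟩

lemma InV.congr (h : G.InV v a b t) (h0 : v' =ᵐ[G.μ] v) (h1 : a' =ᵐ[G.μ] a) (h2 : b' =ᵐ[G.μ] b)
    (h3 : t' =ᵐ[G.ν] t) : G.InV v' a' b' t' := by
  obtain ⟨ψ, hD, k0, k1, k2, k3⟩ := h
  exact ⟨ψ, hD, k0.congr (fun _ => .rfl) h0, k1.congr (fun _ => .rfl) h1,
    k2.congr (fun _ => .rfl) h2, k3.congr (fun _ => .rfl) h3⟩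

lemma InV.lin (h : G.InV v a b t) (h' : G.InV v' a' b' t') (c : ℝ) :
    G.InV (fun p => c * v p + v' p) (fun p => c * a p + a' p) (fun p => c * b p + b' p)
      (fun p => c * t p + t' p) := by
  obtain ⟨ψ, hD, k0, k1, k2, k3⟩ := h
  obtain ⟨ψ', hD', l0, l1, l2, l3⟩ := h'
  refine ⟨fun k p => c * ψ k p + ψ' k p, fun k => (hD k).lin (hD' k) c, (k0.smul c).add l0,
    ((k1.smul c).add l1).congr (fun k => Eventually.of_forall fun p => ?_) .rfl,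
    ((k2.smul c).add l2).congr (fun k => Eventually.of_forall fun p => ?_) .rfl,
    (k3.smul c).add l3⟩
  · exact dx_lin (hD k).diff (hD' k).diff c p
  · exact dy_lin (hD k).diff (hD' k).diff c p

lemma InV.zero : G.InV (fun _ => 0) (fun _ => 0) (fun _ => 0) (fun _ => 0) :=
  D.zero.inV.congr .rfl (Eventually.of_forall fun p => by simp [dx])
    (Eventually.of_forall fun p => by simp [dy]) .rfl

lemma InV.comp (h : G.InV v a b t) {Φ Φ' : ℝ → ℝ} (hΦ : ∀ s, HasDerivAt Φ (Φ' s) s)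
    (hc : Continuous Φ') {B : ℝ} (hB : ∀ s, |Φ' s| ≤ B) (h0 : Φ 0 = 0) :
    G.InV (fun p => Φ (v p)) (fun p => Φ' (v p) * a p) (fun p => Φ' (v p) * b p)
      (fun p => Φ (t p)) := by
  obtain ⟨ψ, hD, k0, k1, k2, k3⟩ := h
  obtain ⟨κ, hκ, hae⟩ := k0.ae
  have hd : Differentiable ℝ Φ := fun s => (hΦ s).differentiableAt
  have hC : ContDiff ℝ 1 Φ := contDiff_one_iff_deriv.2
    ⟨hd, by rwa [show deriv Φ = Φ' from funext fun s => (hΦ s).deriv]⟩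
  have hL : ∀ s s', |Φ s - Φ s'| ≤ B * |s - s'| := fun s s' => by
    have := Convex.norm_image_sub_le_of_norm_hasDerivWithin_le (s := univ) (C := B)
      (fun x _ => (hΦ x).hasDerivWithinAt) (fun x _ => hB x) convex_univ (mem_univ s') (mem_univ s)
    simpa using this
  have hD' : ∀ k, G.D fun p => Φ (ψ k p) := fun k => by
    obtain ⟨Y, hY⟩ := (hD k).z
    exact ⟨hC.comp (hD k).c, fun y => by rw [(hD k).m], Y, fun p hp => by rw [hY p hp, h0]⟩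
  have hm : ∀ k, AEStronglyMeasurable (fun p => Φ' (ψ (κ k) p)) G.μ := fun k =>
    (hc.comp (hD _).c.continuous).aestronglyMeasurable
  have hl : ∀ᵐ p ∂G.μ, Tendsto (fun k => Φ' (ψ (κ k) p)) atTop (𝓝 (Φ' (v p))) :=
    hae.mono fun p hp => (hc.tendsto _).comp hp
  refine ⟨fun k p => Φ (ψ (κ k) p), fun k => hD' _,
    (k0.comp hκ).lip (fun k => (hD' _).m0) (hC.continuous.comp_aestronglyMeasurable k0.hg.1) B
      fun k => Eventually.of_forall fun p => hL _ _,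
    ((k1.comp hκ).mul hm B (fun k => Eventually.of_forall fun p => hB _) hl).congr
      (fun k => Eventually.of_forall fun p => ?_) .rfl,
    ((k2.comp hκ).mul hm B (fun k => Eventually.of_forall fun p => hB _) hl).congr
      (fun k => Eventually.of_forall fun p => ?_) .rfl,
    (k3.comp hκ).lip (fun k => (hD' _).m3) (hC.continuous.comp_aestronglyMeasurable k3.hg.1) B
      fun k => Eventually.of_forall fun p => hL _ _⟩
  · exact dx_eq ((hD' _).diff p) ((hΦ _).comp p.1 (hd_x ((hD _).diff p)))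
  · exact dy_eq ((hD' _).diff p) ((hΦ _).comp p.2 (hd_y ((hD _).diff p)))

lemma InV.mul (h : G.InV v a b t) {Z : ℝ × ℝ → ℝ} (hZ : G.D Z) :
    G.InV (fun p => Z p * v p) (fun p => Z p * a p + dx Z p * v p)
      (fun p => Z p * b p + dy Z p * v p) (fun x => Z (G.γ x) * t x) := by
  obtain ⟨ψ, hD, k0, k1, k2, k3⟩ := h
  obtain ⟨B, b0, b1, b2, b3⟩ := hZ.bdd
  have hD' : ∀ k, G.D fun p => Z p * ψ k p := fun k => by
    obtain ⟨Y, hY⟩ := (hD k).z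
    exact ⟨hZ.c.mul (hD k).c, fun y => by rw [(hD k).m, hZ.m], Y,
      fun p hp => by rw [hY p hp, mul_zero]⟩
  refine ⟨fun k p => Z p * ψ k p, hD', k0.mulb hZ.m0.1 B b0,
    ((k1.mulb hZ.m0.1 B b0).add (k0.mulb hZ.m1.1 B b1)).congr
      (fun k => Eventually.of_forall fun p => ?_) .rfl,
    ((k2.mulb hZ.m0.1 B b0).add (k0.mulb hZ.m2.1 B b2)).congr
      (fun k => Eventually.of_forall fun p => ?_) .rfl, k3.mulb hZ.m3.1 B b3⟩
  · refine (dx_eq ((hD' _).diff p) ((hd_x (hZ.diff p)).mul (hd_x ((hD _).diff p)))).trans ?_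
    ring
  · refine (dy_eq ((hD' _).diff p) ((hd_y (hZ.diff p)).mul (hd_y ((hD _).diff p)))).trans ?_
    ring

abbrev L2 {X : Type*} [MeasurableSpace X] (m : Measure X) := Lp ℝ 2 m

variable (G) in
abbrev HH := WithLp 2 (WithLp 2 (L2 G.μ × L2 G.μ) × WithLp 2 (L2 G.μ × L2 G.ν))

noncomputable def mk4 (x0 x1 x2 : L2 G.μ) (x3 : L2 G.ν) : G.HH :=
  WithLp.toLp 2 (WithLp.toLp 2 (x0, x1), WithLp.toLp 2 (x2, x3))

lemma cont_mk4 : Continuous fun q : L2 G.μ × L2 G.μ × L2 G.μ × L2 G.ν =>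
    mk4 q.1 q.2.1 q.2.2.1 q.2.2.2 :=
  (WithLp.prod_continuous_toLp _ _ _).comp
    (((WithLp.prod_continuous_toLp _ _ _).comp (by fun_prop)).prodMk
      ((WithLp.prod_continuous_toLp _ _ _).comp (by fun_prop)))

variable (G) in
noncomputable def SS : Submodule ℝ G.HH where
  carrier := {z | ∃ ψ, ∃ h : G.D ψ, z = mk4 (h.m0.toLp _) (h.m1.toLp _) (h.m2.toLp _) (h.m3.toLp _)}
  add_mem' := by
    rintro _ _ ⟨ψ, h, rfl⟩ ⟨ψ', h', rfl⟩
    refine ⟨_, h.lin h' 1, ?_⟩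
    simp only [mk4, ← WithLp.toLp_add, Prod.mk_add_mk, ← MemLp.toLp_add]
    congr 4
    all_goals refine MemLp.toLp_congr _ _ (Eventually.of_forall fun p => ?_)
    · simp
    · rw [dx_lin h.diff h'.diff 1 p]; simp
    · rw [dy_lin h.diff h'.diff 1 p]; simp
    · simp
  zero_mem' := by
    refine ⟨_, D.zero, ?_⟩
    have e1 : dx (fun _ => (0 : ℝ)) = 0 := by ext p; simp [dx]
    have e2 : dy (fun _ => (0 : ℝ)) = 0 := by ext p; simp [dy]
    simp only [mk4, e1, e2]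
    rfl
  smul_mem' := by
    rintro c _ ⟨ψ, h, rfl⟩
    refine ⟨_, h.lin D.zero c, ?_⟩
    simp only [mk4, ← WithLp.toLp_smul, Prod.smul_mk, ← MemLp.toLp_const_smul]
    congr 4
    all_goals refine MemLp.toLp_congr _ _ (Eventually.of_forall fun p => ?_)
    · simp
    · rw [dx_lin h.diff (D.zero (G := G)).diff c p]; simp [dx]
    · rw [dy_lin h.diff (D.zero (G := G)).diff c p]; simp [dy]
    · simp

lemma InV.mem (h : G.InV v a b t) :
    mk4 (h.m0.toLp _) (h.m1.toLp _) (h.m2.toLp _) (h.m3.toLp _) ∈ G.SS.topologicalClosure := by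
  obtain ⟨ψ, hD, k0, k1, k2, k3⟩ := id h
  refine mem_closure_of_tendsto ((cont_mk4.tendsto _).comp
    (k0.lp.prodMk_nhds (k1.lp.prodMk_nhds (k2.lp.prodMk_nhds k3.lp))))
    (Eventually.of_forall fun k => ⟨ψ k, hD k, rfl⟩)

lemma inV_of_mem {z : G.HH} (hz : z ∈ G.SS.topologicalClosure) :
    G.InV z.fst.fst z.fst.snd z.snd.fst z.snd.snd := by
  obtain ⟨q, hq, hl⟩ := mem_closure_iff_seq_limit.1 hz
  choose ψ hD e using hq
  have c1 := WithLp.continuous_fst 2 (WithLp 2 (L2 G.μ × L2 G.μ)) (WithLp 2 (L2 G.μ × L2 G.ν))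
  have c2 := WithLp.continuous_snd 2 (WithLp 2 (L2 G.μ × L2 G.μ)) (WithLp 2 (L2 G.μ × L2 G.ν))
  refine ⟨ψ, hD, .of_lp (fun k => (hD k).m0) (Lp.memLp _) ?_,
    .of_lp (fun k => (hD k).m1) (Lp.memLp _) ?_, .of_lp (fun k => (hD k).m2) (Lp.memLp _) ?_,
    .of_lp (fun k => (hD k).m3) (Lp.memLp _) ?_⟩ <;> rw [Lp.toLp_coeFn]
  · exact ((((WithLp.continuous_fst 2 _ _).comp c1).tendsto z).comp hl).congr fun k => by
      simp [e k, mk4]
  · exact ((((WithLp.continuous_snd 2 _ _).comp c1).tendsto z).comp hl).congr fun k => by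
      simp [e k, mk4]
  · exact ((((WithLp.continuous_fst 2 _ _).comp c2).tendsto z).comp hl).congr fun k => by
      simp [e k, mk4]
  · exact ((((WithLp.continuous_snd 2 _ _).comp c2).tendsto z).comp hl).congr fun k => by
      simp [e k, mk4]

variable (G) in
def Lin (h : ℝ × ℝ → ℝ) (k : ℝ → ℝ) (v a b : ℝ × ℝ → ℝ) (t : ℝ → ℝ) : Prop :=
  G.InV v a b t ∧ ∀ ψ p q s, G.InV ψ p q s →
    (∫ x, v x * ψ x ∂G.μ) + (∫ x, a x * p x ∂G.μ) + (∫ x, b x * q x ∂G.μ) + ∫ x, t x * s x ∂G.ν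
      = (∫ x, h x * ψ x ∂G.μ) + ∫ x, k x * s x ∂G.ν

lemma exist {h : ℝ × ℝ → ℝ} {k : ℝ → ℝ} (hh : MemLp h 2 G.μ) (hk : MemLp k 2 G.ν) :
    ∃ v a b t, G.Lin h k v a b t := by
  set K := G.SS.topologicalClosure
  have : CompleteSpace K := Submodule.topologicalClosure.completeSpace _
  set x : G.HH := mk4 (hh.toLp _) 0 0 (hk.toLp _)
  set z := K.starProjection x
  refine ⟨_, _, _, _, inV_of_mem (K.starProjection_apply_mem x), fun ψ p q s hψ => ?_⟩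
  have := K.starProjection_inner_eq_zero x _ hψ.mem
  rw [inner_sub_left, sub_eq_zero] at this
  have e : z = mk4 ((Lp.memLp z.fst.fst).toLp _) ((Lp.memLp z.fst.snd).toLp _)
      ((Lp.memLp z.snd.fst).toLp _) ((Lp.memLp z.snd.snd).toLp _) := by
    simp only [Lp.toLp_coeFn]; rfl
  change inner ℝ x _ = inner ℝ z _ at this
  rw [e] at this
  simp only [x, mk4, WithLp.prod_inner_apply, inner_zero_left, ip] at this
  change (∫ x, z.fst.fst x * ψ x ∂G.μ) + (∫ x, z.fst.snd x * p x ∂G.μ) +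
    (∫ x, z.snd.fst x * q x ∂G.μ) + ∫ x, z.snd.snd x * s x ∂G.ν = _
  linarith

end Geo

end Pool.Agent.H.MP_1dc5fb_an
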