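import Pool.Agent.H.MP_1dc5fb_an.A

set_option linter.unusedSectionVars false
set_option linter.unusedVariables false
set_option linter.dupNamespace false

namespace Pool.Agent.H.MP_1dc5fb_an

open MeasureTheory Filter Topology Set Metric

lemma iadd {X : Type*} [MeasurableSpace X] {m : Measure X} {f g : X → ℝ} (hf : Integrable f m)
    (hg : Integrable g m) : Integrable (fun x => f x + g x) m := hf.add hg

noncomputable def cut (Y y : ℝ) : ℝ := Real.smoothTransition (Y + 2 - y)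

lemma cut_c (Y : ℝ) {n : ℕ} : ContDiff ℝ n (cut Y) :=
  Real.smoothTransition.contDiff.comp (contDiff_const.sub contDiff_id)

lemma cut_one {Y y : ℝ} (h : y ≤ Y + 1) : cut Y y = 1 :=
  Real.smoothTransition.one_of_one_le (by linarith)

lemma cut_zero {Y y : ℝ} (h : Y + 2 ≤ y) : cut Y y = 0 :=
  Real.smoothTransition.zero_of_nonpos (by linarith)

lemma c1_of {W W' : ℝ → ℝ} (h : ∀ s, HasDerivAt W (W' s) s) (hc : Continuous W') :
    ContDiff ℝ 1 W := contDiff_one_iff_deriv.2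
  ⟨fun s => (h s).differentiableAt, by rwa [show deriv W = W' from funext fun s => (h s).deriv]⟩

namespace Geo
variable (G : Geo)

def R (A : Set ℝ) : Set (ℝ × ℝ) := {p | p.1 ∈ A ∧ G.φ p.1 < p.2}

lemma mR {A : Set ℝ} (hA : MeasurableSet A) : MeasurableSet (G.R A) :=
  (hA.preimage measurable_fst).inter G.isOpen.measurableSet

lemma R_univ : G.R univ = G.Ω := by ext p; simp [R, Ω]

lemma fub {A : Set ℝ} (hA : MeasurableSet A) {F : ℝ × ℝ → ℝ} (hF : IntegrableOn F (G.R A)) :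
    (∫ p in G.R A, F p = ∫ x in A, ∫ y in Ioi (G.φ x), F (x, y)) ∧
    (∀ᵐ x ∂volume.restrict A, IntegrableOn (fun y => F (x, y)) (Ioi (G.φ x))) ∧
    IntegrableOn (fun x => ∫ y in Ioi (G.φ x), F (x, y)) A := by
  have h1 : Integrable ((G.R A).indicator F) ((volume : Measure ℝ).prod volume) :=
    (integrable_indicator_iff (G.mR hA)).2 hF
  have e : ∀ x, (fun y => (G.R A).indicator F (x, y)) =
      A.indicator (fun x => (Ioi (G.φ x)).indicator fun y => F (x, y)) x := fun x => by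
    ext y
    by_cases hx : x ∈ A <;> by_cases hy : G.φ x < y <;> simp [indicator, R, hx, hy]
  have e2 : (fun x => ∫ y, (G.R A).indicator F (x, y)) =
      A.indicator fun x => ∫ y in Ioi (G.φ x), F (x, y) := by
    ext x
    rw [e]
    by_cases hx : x ∈ A
    · rw [indicator_of_mem hx, indicator_of_mem hx, integral_indicator measurableSet_Ioi]
    · simp [hx]
  refine ⟨?_, ?_, ?_⟩
  · rw [← integral_indicator (G.mR hA), ← integral_indicator hA, ← e2]
    exact integral_prod _ h1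
  · filter_upwards [ae_restrict_of_ae h1.prod_right_ae, ae_restrict_mem hA] with x hx hxA
    rw [e, indicator_of_mem hxA] at hx
    exact (integrable_indicator_iff measurableSet_Ioi).1 hx
  · rw [← integrable_indicator_iff hA, ← e2]
    exact h1.integral_prod_left

lemma col {A : Set ℝ} (hA : MeasurableSet A) {F F' : ℝ × ℝ → ℝ} {Y : ℝ}
    (hc : ∀ x, ContinuousWithinAt (fun y => F (x, y)) (Ici (G.φ x)) (G.φ x))
    (hd : ∀ p ∈ G.Ω, HasDerivAt (fun y => F (p.1, y)) (F' p) p.2)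
    (hz : ∀ p : ℝ × ℝ, Y < p.2 → F p = 0) (hF : IntegrableOn F' (G.R A)) :
    ∫ p in G.R A, F' p = -∫ x in A, F (G.γ x) := by
  obtain ⟨h1, h2, -⟩ := G.fub hA hF
  rw [h1, ← integral_neg]
  refine integral_congr_ae (h2.mono fun x hx => ?_)
  have := integral_Ioi_of_hasDerivAt_of_tendsto (m := 0) (hc x) (fun y hy => hd (x, y) hy) hx
    (tendsto_const_nhds.congr' ((eventually_gt_atTop Y).mono fun y hy => (hz (x, y) hy).symm))
  simpa [γ] using this

noncomputable def ι : Measure ℝ := volume.restrict (Ico 0 G.T)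

lemma ιν : G.ι ≤ ENNReal.ofReal G.c1⁻¹ • G.ν := by
  have := Measure.restrict_mono_measure G.s1 (Ico 0 G.T)
  rw [Measure.restrict_smul] at this
  calc G.ι = ENNReal.ofReal G.c1⁻¹ • ENNReal.ofReal G.c1 • G.ι := by
        rw [smul_smul, ← ENNReal.ofReal_mul (inv_nonneg.2 G.hc1.le), inv_mul_cancel₀ G.hc1.ne']
        simp
    _ ≤ _ := by gcongr; exact this

lemma νι : G.ν ≤ ENNReal.ofReal G.c2 • G.ι := by
  have := Measure.restrict_mono_measure G.s2 (Ico 0 G.T)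
  rwa [Measure.restrict_smul] at this

variable {G}

lemma memι {t : ℝ → ℝ} (h : MemLp t 2 G.ν) : MemLp t 2 G.ι :=
  h.of_measure_le_smul ENNReal.ofReal_ne_top G.ιν

lemma cvι {f : ℕ → ℝ → ℝ} {g : ℝ → ℝ} (h : Cv G.ν f g) : Cv G.ι f g := by
  refine ⟨fun k => memι (h.hf k), memι h.hg, ?_⟩
  have := h.t.const_mul G.c1⁻¹
  rw [mul_zero] at this
  refine squeeze_zero (fun k => integral_nonneg fun x => sq_nonneg _) (fun k => ?_) this
  have h1 := integral_mono_measure G.ιν (f := fun x => (f k x - g x) ^ 2)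
    (Eventually.of_forall fun x => sq_nonneg _)
    ((isq ((h.hf k).sub h.hg)).smul_measure ENNReal.ofReal_ne_top)
  rwa [integral_smul_measure, ENNReal.toReal_ofReal (inv_nonneg.2 G.hc1.le)] at h1

variable {v a b : ℝ × ℝ → ℝ} {t : ℝ → ℝ}

lemma InV.Iy (h : G.InV v a b t) {Z : ℝ × ℝ → ℝ} (hZ : G.D Z) :
    ∫ p, (b p * Z p + v p * dy Z p) ∂G.μ = -∫ x, t x * Z (G.γ x) ∂G.ι := by
  obtain ⟨ψ, hD, k0, k1, k2, k3⟩ := id h
  have l1 := (k2.inner hZ.m0).add (k0.inner hZ.m2)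
  have l2 := ((cvι k3).inner (memι hZ.m3)).neg
  rw [integral_add (imul h.m2 hZ.m0) (imul h.m0 hZ.m2)]
  refine tendsto_nhds_unique l1 (l2.congr fun k => ?_)
  obtain ⟨Y, hY⟩ := hZ.z
  rw [← integral_add (imul (hD k).m2 hZ.m0) (imul (hD k).m0 hZ.m2)]
  refine (G.col measurableSet_Ico (F := fun p => ψ k p * Z p) (Y := Y) (fun x => ?_)
    (fun p _ => (hd_y ((hD k).diff p)).mul (hd_y (hZ.diff p))) (fun p hp => by simp [hY p hp])
    ((imul (hD k).m2 hZ.m0).add (imul (hD k).m0 hZ.m2))).symm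
  exact ((((hD k).c.mul hZ.c).continuous.comp (continuous_const.prodMk continuous_id)).continuousAt
    ).continuousWithinAt

lemma InV.Ix (h : G.InV v a b t) {Z : ℝ × ℝ → ℝ} (hZ : G.D Z)
    (h0 : ∀ p ∉ G.Ω, Z p = 0 ∧ dx Z p = 0) :
    ∫ p, (a p * Z p + v p * dx Z p) ∂G.μ = 0 := by
  obtain ⟨ψ, hD, k0, k1, k2, k3⟩ := id h
  have l1 := (k1.inner hZ.m0).add (k0.inner hZ.m1)
  rw [integral_add (imul h.m1 hZ.m0) (imul h.m0 hZ.m1)]
  refine tendsto_nhds_unique l1 (tendsto_const_nhds.congr fun k => ?_)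
  rw [← integral_add (imul (hD k).m1 hZ.m0) (imul (hD k).m0 hZ.m1)]
  have hi : IntegrableOn (fun p => dx (ψ k) p * Z p + ψ k p * dx Z p) G.C :=
    (imul (hD k).m1 hZ.m0).add (imul (hD k).m0 hZ.m1)
  have hS : MeasurableSet (Ico 0 G.T ×ˢ (univ : Set ℝ)) := measurableSet_Ico.prod MeasurableSet.univ
  have hz : ∀ p ∈ (Ico 0 G.T ×ˢ (univ : Set ℝ)) \ G.C,
      dx (ψ k) p * Z p + ψ k p * dx Z p = 0 := fun p hp => by
    have := h0 p fun h' => hp.2 ⟨hp.1.1, h'⟩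
    simp [this.1, this.2]
  have hi2 := hi.of_forall_sdiff_eq_zero hS hz
  rw [μ, ← setIntegral_eq_of_subset_of_forall_sdiff_eq_zero hS (fun p hp => ⟨hp.1, trivial⟩) hz]
  rw [IntegrableOn, Measure.volume_eq_prod, ← Measure.restrict_prod_eq_prod_univ] at hi2
  rw [Measure.volume_eq_prod, ← Measure.restrict_prod_eq_prod_univ, integral_prod_symm _ hi2]
  symm
  refine integral_eq_zero_of_ae (Eventually.of_forall fun y => ?_)
  have hc : Continuous fun x : ℝ => ((x, y) : ℝ × ℝ) := continuous_id.prodMk continuous_const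
  have := intervalIntegral.integral_eq_sub_of_hasDerivAt (a := 0) (b := G.T)
    (f := fun x => ψ k (x, y) * Z (x, y))
    (f' := fun x => dx (ψ k) (x, y) * Z (x, y) + ψ k (x, y) * dx Z (x, y))
    (fun x _ => (hd_x ((hD k).diff (x, y))).mul (hd_x (hZ.diff (x, y))))
    ((((cont_dx (hD k).c).mul hZ.c.continuous).add
      ((hD k).c.continuous.mul (cont_dx hZ.c))).comp hc |>.intervalIntegrable _ _)
  rw [intervalIntegral.integral_of_le G.hT.le, ← integral_Ico_eq_integral_Ioc, (hD k).m, hZ.m,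
    sub_self] at this
  exact this

lemma Dy {W : ℝ → ℝ} (hW : ContDiff ℝ 1 W) (Y : ℝ) : G.D fun p => W p.2 * cut Y p.2 :=
  ⟨(hW.mul (cut_c Y)).comp contDiff_snd, fun _ => rfl, Y + 2,
    fun p hp => by simp [cut_zero hp.le]⟩

lemma Dy_d {W W' : ℝ → ℝ} (hW : ∀ s, HasDerivAt W (W' s) s) (hc : Continuous W') {Y : ℝ}
    {p : ℝ × ℝ} (hp : p.2 ≤ Y) : W p.2 * cut Y p.2 = W p.2 ∧
    dx (fun p => W p.2 * cut Y p.2) p = 0 ∧ dy (fun p => W p.2 * cut Y p.2) p = W' p.2 := by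
  have hd := (((c1_of hW hc).mul (cut_c Y)).comp contDiff_snd (E := ℝ × ℝ)).differentiable
    one_ne_zero p
  refine ⟨by rw [cut_one (by linarith), mul_one], dx_eq hd (hasDerivAt_const p.1 (W p.2 * cut Y p.2)),
    dy_eq hd ((hW p.2).congr_of_eventuallyEq ?_)⟩
  filter_upwards [Iio_mem_nhds (show p.2 < Y + 1 by linarith)] with y hy
  simp [cut_one (le_of_lt hy)]

lemma InV.loc (h : G.InV v a b t) (ε : ℝ) {W W' Φ Φ' : ℝ → ℝ} (hW : ∀ s, HasDerivAt W (W' s) s)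
    (hW' : Continuous W') (hΦ : ∀ s, HasDerivAt Φ (Φ' s) s)
    (hc : Continuous Φ') {B : ℝ} (hB : ∀ s, |Φ' s| ≤ B) {Z : ℝ × ℝ → ℝ} (hZ : G.D Z) :
    G.InV (fun p => Z p * Φ (ε * v p + W p.2))
      (fun p => Z p * (Φ' (ε * v p + W p.2) * (ε * a p)) + dx Z p * Φ (ε * v p + W p.2))
      (fun p => Z p * (Φ' (ε * v p + W p.2) * (ε * b p + W' p.2)) + dy Z p * Φ (ε * v p + W p.2))
      (fun x => Z (G.γ x) * Φ (ε * t x + W (G.φ x))) := by
  obtain ⟨Y, hY⟩ := hZ.dz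
  have h1 := ((h.lin (Dy (G := G) (c1_of hW hW') Y).inV ε).comp (Φ := fun s => Φ s - Φ 0)
    (fun s => (hΦ s).sub_const _) hc hB (sub_self _)).mul hZ
  refine (hZ.inV.lin h1 (Φ 0)).congr (Eventually.of_forall fun p => ?_)
    (Eventually.of_forall fun p => ?_) (Eventually.of_forall fun p => ?_)
    (Eventually.of_forall fun x => ?_)
  · by_cases hp : Y < p.2
    · simp [hY p hp]
    · simp only [(Dy_d hW hW' (not_lt.1 hp)).1]; ring
  · by_cases hp : Y < p.2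
    · simp [hY p hp]
    · simp only [Dy_d hW hW' (not_lt.1 hp)]; ring
  · by_cases hp : Y < p.2
    · simp [hY p hp]
    · simp only [Dy_d hW hW' (not_lt.1 hp)]; ring
  · by_cases hp : Y < (G.γ x).2
    · simp [hY _ hp]
    · simp only [(Dy_d hW hW' (not_lt.1 hp)).1]; simp only [γ]; ring

variable (G) in
structure WS (g v a b : ℝ × ℝ → ℝ) (t : ℝ → ℝ) : Prop where
  V : G.InV v a b t
  mg : MemLp g 2 G.μ
  bg : ∀ᵐ p ∂G.μ, 0 ≤ g p ∧ g p ≤ 1
  bv : ∀ᵐ p ∂G.μ, 0 ≤ v p ∧ v p ≤ 1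
  bt : ∀ᵐ x ∂G.ν, 0 ≤ t x ∧ t x ≤ 1
  eq : ∀ ψ p q s, G.InV ψ p q s → (∫ x, a x * p x ∂G.μ) + (∫ x, b x * q x ∂G.μ) +
    ∫ x, g x * ψ x ∂G.μ = ∫ x, (1 - t x) * s x ∂G.ν

lemma WS.ID {g : ℝ × ℝ → ℝ} (h : G.WS g v a b t) (ε : ℝ) {W W' W'' Φ Φ' : ℝ → ℝ}
    (hW : ∀ s, HasDerivAt W (W' s) s) (hW' : ∀ s, HasDerivAt W' (W'' s) s) (hW'' : Continuous W'')
    (hΦ : ∀ s, HasDerivAt Φ (Φ' s) s)
    (hc : Continuous Φ') {B : ℝ} (hB : ∀ s, |Φ' s| ≤ B) {Z : ℝ × ℝ → ℝ} (hZ : G.D Z) :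
    ∫ p, ((Φ' (ε * v p + W p.2) * ((ε * a p) ^ 2 + (ε * b p + W' p.2) ^ 2) +
        (ε * g p + W'' p.2) * Φ (ε * v p + W p.2)) * Z p +
        Φ (ε * v p + W p.2) * (ε * a p) * dx Z p +
        Φ (ε * v p + W p.2) * (ε * b p + W' p.2) * dy Z p) ∂G.μ =
      (∫ x, ε * (1 - t x) * Φ (ε * t x + W (G.φ x)) * Z (G.γ x) ∂G.ν) -
        ∫ x, W' (G.φ x) * Φ (ε * t x + W (G.φ x)) * Z (G.γ x) ∂G.ι := by
  have cW' := (c1_of hW' hW'').continuous
  have θ := h.V.loc ε hW cW' hΦ hc hB hZ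
  obtain ⟨Y, hY⟩ := hZ.dz
  have hD := Dy (G := G) (c1_of hW' hW'') (max Y 0)
  have e1 := h.eq _ _ _ _ θ
  have e2 := θ.Iy hD
  rw [← integral_add (imul h.V.m1 θ.m1) (imul h.V.m2 θ.m2), ← integral_add
    (iadd (imul h.V.m1 θ.m1) (imul h.V.m2 θ.m2)) (imul h.mg θ.m0)] at e1
  have e3 := congrArg₂ (· + ·) (congrArg (ε * ·) e1) e2
  rw [← integral_const_mul, ← integral_const_mul, ← integral_add
    ((iadd (iadd (imul h.V.m1 θ.m1) (imul h.V.m2 θ.m2)) (imul h.mg θ.m0)).const_mul ε)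
    (iadd (imul θ.m2 hD.m0) (imul θ.m0 hD.m2)), ← sub_eq_add_neg] at e3
  refine (Eq.trans (integral_congr_ae (Eventually.of_forall fun p => ?_)) e3).trans
    (congrArg₂ (· - ·) (integral_congr_ae (Eventually.of_forall fun x => ?_))
      (integral_congr_ae (Eventually.of_forall fun x => ?_)))
  · by_cases hp : Y < p.2
    · simp [hY p hp]
    · simp only [Dy_d hW' hW'' ((not_lt.1 hp).trans (le_max_left Y 0))]; ring
  · simp only; ring
  · have := (Dy_d hW' hW'' (p := G.γ x) ((G.hi x).trans (le_max_right Y 0))).1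
    simp only [this]; simp only [γ]; ring

end Geo

end Pool.Agent.H.MP_1dc5fb_an
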