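import Pool.Agent.H.MP_1dc5fb_an.B

set_option linter.unusedSectionVars false
set_option linter.unusedVariables false
set_option linter.dupNamespace false

namespace Pool.Agent.H.MP_1dc5fb_an

open MeasureTheory Filter Topology Set Metric

lemma ppow (n : ℕ) (x : ℝ) :
    HasDerivAt (fun x : ℝ => max x 0 ^ (n + 2)) ((n + 2) * max x 0 ^ (n + 1)) x := by
  rcases lt_trichotomy x 0 with h | rfl | h
  · rw [max_eq_right h.le, zero_pow (by omega), mul_zero]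
    refine (hasDerivAt_const x (0 : ℝ)).congr_of_eventuallyEq ?_
    filter_upwards [Iio_mem_nhds h] with y hy
    rw [max_eq_right (le_of_lt hy), zero_pow (by omega)]
  · rw [max_self, zero_pow (by omega), mul_zero, hasDerivAt_iff_tendsto_slope_zero]
    have : Tendsto (fun t : ℝ => max t 0 ^ (n + 1)) (𝓝[≠] 0) (𝓝 (max (0 : ℝ) 0 ^ (n + 1))) :=
      ((by fun_prop : Continuous fun t : ℝ => max t 0 ^ (n + 1)).tendsto 0).mono_left
        nhdsWithin_le_nhds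
    rw [max_self, zero_pow (by omega)] at this
    refine this.congr' ?_
    filter_upwards [self_mem_nhdsWithin] with t ht
    have ht : t ≠ 0 := ht
    rcases le_total t 0 with h | h
    · simp [max_eq_right h]
    · simp only [zero_add, max_eq_left h, max_self, smul_eq_mul, zero_pow (by omega : n + 2 ≠ 0)]
      field_simp
      ring
  · have := hasDerivAt_pow (n + 2) x
    rw [max_eq_left h.le]
    refine (this.congr_of_eventuallyEq ?_).congr_deriv (by simp)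
    filter_upwards [Ioi_mem_nhds h] with y hy
    rw [max_eq_left (le_of_lt hy)]

lemma ppow2 (x : ℝ) : HasDerivAt (fun x : ℝ => max x 0 ^ 2) (2 * max x 0) x := by
  simpa using ppow 0 x

noncomputable def Pp (s : ℝ) : ℝ := Real.log (1 + max s 0 ^ 2)
noncomputable def Pp' (s : ℝ) : ℝ := 2 * max s 0 / (1 + max s 0 ^ 2)

lemma Pp_d (s : ℝ) : HasDerivAt Pp (Pp' s) s :=
  ((ppow2 s).const_add 1).log (by positivity)

lemma Pp'_c : Continuous Pp' :=
  Continuous.div (by fun_prop) (by fun_prop) fun s => by positivity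

lemma Pp'_nn (s : ℝ) : 0 ≤ Pp' s := by unfold Pp'; positivity

lemma Pp'_b (s : ℝ) : |Pp' s| ≤ 1 := by
  rw [abs_of_nonneg (Pp'_nn s), Pp', div_le_one (by positivity)]
  nlinarith [sq_nonneg (max s 0 - 1)]

lemma Pp_nn (s : ℝ) : 0 ≤ Pp s := Real.log_nonneg (by nlinarith [sq_nonneg (max s 0)])

lemma Pp_z {s : ℝ} (h : s ≤ 0) : Pp s = 0 := by simp [Pp, max_eq_right h]

lemma Pp_pos {s : ℝ} (h : 0 < s) : 0 < Pp s :=
  Real.log_pos (by rw [max_eq_left h.le]; nlinarith)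

lemma Pp_c : Continuous Pp := continuous_iff_continuousAt.2 fun s => (Pp_d s).continuousAt

lemma mp_aux {X : Type*} [MeasurableSpace X] {m : Measure X} {v h : X → ℝ} {c : ℝ}
    (hc : ∀ᵐ x ∂m, h x ≤ c) (hi : Integrable (fun x => (v x - h x) * Pp (v x - c)) m) :
    0 ≤ ∫ x, (v x - h x) * Pp (v x - c) ∂m ∧
    (∫ x, (v x - h x) * Pp (v x - c) ∂m ≤ 0 → ∀ᵐ x ∂m, v x ≤ c) := by
  have h0 : 0 ≤ᵐ[m] fun x => (v x - h x) * Pp (v x - c) := by
    filter_upwards [hc] with x hx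
    rcases le_or_gt (v x - c) 0 with h1 | h1
    · simp [Pp_z h1]
    · exact mul_nonneg (by linarith) (Pp_nn _)
  refine ⟨integral_nonneg_of_ae h0, fun h1 => ?_⟩
  have := (integral_eq_zero_iff_of_nonneg_ae h0 hi).1 (le_antisymm h1 (integral_nonneg_of_ae h0))
  filter_upwards [this, hc] with x h2 h3
  by_contra h4
  have h5 : 0 < v x - c := by linarith [not_le.1 h4]
  have := mul_pos (show 0 < v x - h x by linarith) (Pp_pos h5)
  exact this.ne' h2

noncomputable def f1 (s : ℝ) : ℝ := max (1 / 2 - s) 0 ^ 2 * s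
noncomputable def FF (l α s : ℝ) : ℝ := l * s * (1 - s) + α * f1 s
noncomputable def cl (s : ℝ) : ℝ := max 0 (min s 1)
noncomputable def G1 (s : ℝ) : ℝ := ∫ r in (0 : ℝ)..s, f1 r
noncomputable def GG (l α s : ℝ) : ℝ := l * (s ^ 2 / 2 - s ^ 3 / 3) + α * G1 s

lemma f1_c : Continuous f1 := by unfold f1; fun_prop
lemma cl_c : Continuous cl := by unfold cl; fun_prop

lemma cl_mem (s : ℝ) : 0 ≤ cl s ∧ cl s ≤ 1 ∧ cl s ≤ |s| :=
  ⟨le_max_left _ _, max_le zero_le_one (min_le_right _ _),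
    max_le (abs_nonneg _) ((min_le_left _ _).trans (le_abs_self _))⟩

lemma cl_eq {s : ℝ} (h0 : 0 ≤ s) (h1 : s ≤ 1) : cl s = s := by
  rw [cl, min_eq_left h1, max_eq_right h0]

lemma G1_d (s : ℝ) : HasDerivAt G1 (f1 s) s := (f1_c.integral_hasStrictDerivAt 0 s).hasDerivAt

lemma G1_c : Continuous G1 := continuous_iff_continuousAt.2 fun s => (G1_d s).continuousAt

lemma mx_b {s : ℝ} (h0 : 0 ≤ s) : max (1 / 2 - s) 0 ^ 2 ≤ 1 / 4 := by
  have h1 : max (1 / 2 - s) 0 ≤ 1 / 2 := max_le (by linarith) (by norm_num)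
  have h2 : 0 ≤ max (1 / 2 - s) 0 := le_max_right _ _
  nlinarith

lemma f1_nn {s : ℝ} (h0 : 0 ≤ s) : 0 ≤ f1 s := by unfold f1; positivity

lemma FF_b {l α s : ℝ} (hl : 0 ≤ l) (hl' : l ≤ 1 / 2) (ha : 0 ≤ α) (ha' : α ≤ 1) (h0 : 0 ≤ s)
    (h1 : s ≤ 1) : 0 ≤ FF l α s ∧ FF l α s ≤ s := by
  have := f1_nn h0
  have h2 : f1 s ≤ 1 / 4 * s := mul_le_mul_of_nonneg_right (mx_b h0) h0
  have h3 : 0 ≤ s * (1 - s) := mul_nonneg h0 (by linarith)
  unfold FF
  constructor <;> nlinarith [mul_nonneg ha this, mul_nonneg hl h3]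

lemma FF_mono {l α s s' : ℝ} (hl : 0 ≤ l) (hl' : l ≤ 1 / 2) (ha : 0 ≤ α) (ha' : α ≤ 1)
    (h0 : 0 ≤ s) (h : s ≤ s') (h1 : s' ≤ 1) : s - FF l α s ≤ s' - FF l α s' := by
  have h2 : max (1 / 2 - s') 0 ^ 2 ≤ max (1 / 2 - s) 0 ^ 2 :=
    pow_le_pow_left₀ (le_max_right _ _) (max_le_max (by linarith) le_rfl) 2
  have h3 : f1 s' - f1 s ≤ 1 / 4 * (s' - s) := by
    unfold f1
    nlinarith [mul_le_mul_of_nonneg_right h2 (h0.trans h),
      mul_le_mul_of_nonneg_right (mx_b h0) (sub_nonneg.2 h)]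
  have h4 : α * (f1 s' - f1 s) ≤ 1 / 4 * (s' - s) := by nlinarith
  have h5 : l * ((s' - s) * (1 - s - s')) ≤ 1 / 2 * (s' - s) := by
    have : (s' - s) * (1 - s - s') ≤ s' - s := by nlinarith
    nlinarith
  unfold FF
  nlinarith

lemma GG_d (l α s : ℝ) : HasDerivAt (GG l α) (FF l α s) s := by
  have := ((((hasDerivAt_pow 2 s).div_const 2).sub ((hasDerivAt_pow 3 s).div_const 3)).const_mul
    l).add ((G1_d s).const_mul α)
  refine this.congr_deriv ?_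
  simp [FF]; ring

lemma GG_key {l α s s' : ℝ} (hl : 0 ≤ l) (hl' : l ≤ 1 / 2) (ha : 0 ≤ α) (ha' : α ≤ 1)
    (h0 : 0 ≤ s) (h : s ≤ s') (h1 : s' ≤ 1) :
    GG l α s' - GG l α s ≤ (s' ^ 2 - s ^ 2) / 2 - (s - FF l α s) * (s' - s) := by
  have hd : ∀ r, HasDerivAt (fun r => r ^ 2 / 2 - (s - FF l α s) * r - GG l α r)
      (r - FF l α r - (s - FF l α s)) r := fun r => by
    refine ((((hasDerivAt_pow 2 r).div_const 2).sub ((hasDerivAt_id r).const_mul _)).sub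
      (GG_d l α r)).congr_deriv ?_
    simp; ring
  have := monotoneOn_of_deriv_nonneg (convex_Icc s s')
    (fun r _ => (hd r).continuousAt.continuousWithinAt)
    (fun r _ => (hd r).differentiableAt.differentiableWithinAt) (fun r hr => by
      have hr := interior_subset hr
      rw [(hd r).deriv, sub_nonneg]
      exact FF_mono hl hl' ha ha' h0 hr.1 (hr.2.trans h1))
    (left_mem_Icc.2 h) (right_mem_Icc.2 h) h
  simp only at this
  linarith

lemma G1_nn {s : ℝ} (h0 : 0 ≤ s) : 0 ≤ G1 s :=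
  intervalIntegral.integral_nonneg h0 fun r hr => f1_nn hr.1

lemma G1_pos : 0 < G1 (1 / 2) :=
  intervalIntegral.intervalIntegral_pos_of_pos_on (f1_c.intervalIntegrable _ _) (fun r hr => by
    unfold f1
    rw [max_eq_left (by linarith [hr.2])]
    exact mul_pos (pow_pos (by linarith [hr.2]) 2) hr.1) (by norm_num)

lemma G1_ge {s : ℝ} (h : 1 / 2 ≤ s) : G1 (1 / 2) ≤ G1 s := by
  rw [G1, G1, ← intervalIntegral.integral_add_adjacent_intervals (b := 1 / 2) (c := s)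
    (f1_c.intervalIntegrable _ _) (f1_c.intervalIntegrable _ _)]
  exact le_add_of_nonneg_right
    (intervalIntegral.integral_nonneg h fun r hr => f1_nn (by linarith [hr.1]))

lemma GG_b {l α s : ℝ} (hl : 0 ≤ l) (hl' : l ≤ 1 / 2) (ha : 0 ≤ α) (ha' : α ≤ 1) (h0 : 0 ≤ s)
    (h1 : s ≤ 1) : l / 6 * s ^ 2 + α * G1 s ≤ GG l α s ∧ GG l α s ≤ s ^ 2 := by
  have := GG_key hl hl' ha ha' le_rfl h0 h1
  constructor
  · unfold GG
    have : 0 ≤ l * (s ^ 2 * (1 - s)) := mul_nonneg hl (mul_nonneg (sq_nonneg _) (by linarith))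
    nlinarith
  · simp [GG, G1, FF, f1] at this ⊢
    nlinarith [sq_nonneg s]

namespace Geo
variable {G : Geo} {h h' v a b v' a' b' : ℝ × ℝ → ℝ} {k k' t t' : ℝ → ℝ}

lemma Lin.lin (H1 : G.Lin h k v a b t) (H2 : G.Lin h' k' v' a' b' t') (m1 : MemLp h 2 G.μ)
    (m2 : MemLp k 2 G.ν) (m3 : MemLp h' 2 G.μ) (m4 : MemLp k' 2 G.ν) (c : ℝ) :
    G.Lin (fun p => c * h p + h' p) (fun p => c * k p + k' p) (fun p => c * v p + v' p)
      (fun p => c * a p + a' p) (fun p => c * b p + b' p) (fun p => c * t p + t' p) := by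
  refine ⟨H1.1.lin H2.1 c, fun ψ p q s hψ => ?_⟩
  have e1 := H1.2 _ _ _ _ hψ
  have e2 := H2.2 _ _ _ _ hψ
  have E : ∀ {X : Type} [MeasurableSpace X] {m : Measure X} {f g u : X → ℝ}, MemLp f 2 m →
      MemLp g 2 m → MemLp u 2 m → ∫ x, (c * f x + g x) * u x ∂m =
        c * (∫ x, f x * u x ∂m) + ∫ x, g x * u x ∂m := fun hf hg hu => by
    rw [← integral_const_mul, ← integral_add ((imul hf hu).const_mul c) (imul hg hu)]
    congr 1; ext x; ring
  rw [E H1.1.m0 H2.1.m0 hψ.m0, E H1.1.m1 H2.1.m1 hψ.m1, E H1.1.m2 H2.1.m2 hψ.m2,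
    E H1.1.m3 H2.1.m3 hψ.m3, E m1 m3 hψ.m0, E m2 m4 hψ.m3]
  linear_combination c * e1 + e2

lemma Lin.zero : G.Lin (fun _ => 0) (fun _ => 0) (fun _ => 0) (fun _ => 0) (fun _ => 0)
    (fun _ => 0) := ⟨InV.zero, by simp⟩

lemma Lin.mp (H : G.Lin h k v a b t) (m1 : MemLp h 2 G.μ) (m2 : MemLp k 2 G.ν) {c : ℝ}
    (hc : 0 ≤ c) (h1 : ∀ᵐ p ∂G.μ, h p ≤ c) (h2 : ∀ᵐ x ∂G.ν, k x ≤ c) :
    (∀ᵐ p ∂G.μ, v p ≤ c) ∧ ∀ᵐ x ∂G.ν, t x ≤ c := by
  have θ := H.1.comp (Φ := fun s => Pp (s - c)) (Φ' := fun s => Pp' (s - c))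
    (fun s => (Pp_d (s - c)).comp_sub_const s c) (Pp'_c.comp (by fun_prop)) (fun s => Pp'_b _)
    (Pp_z (by linarith))
  have e := H.2 _ _ _ _ θ
  have a1 := mp_aux h1 (imul (H.1.m0.sub m1) θ.m0)
  have a2 := mp_aux h2 (imul (H.1.m3.sub m2) θ.m3)
  simp only [sub_mul] at a1 a2
  rw [integral_sub (imul H.1.m0 θ.m0) (imul m1 θ.m0)] at a1
  rw [integral_sub (imul H.1.m3 θ.m3) (imul m2 θ.m3)] at a2
  have p1 : 0 ≤ ∫ x, a x * (Pp' (v x - c) * a x) ∂G.μ :=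
    integral_nonneg fun x => by have := Pp'_nn (v x - c); simp only [Pi.zero_apply]; nlinarith [mul_nonneg this (mul_self_nonneg (a x))]
  have p2 : 0 ≤ ∫ x, b x * (Pp' (v x - c) * b x) ∂G.μ :=
    integral_nonneg fun x => by have := Pp'_nn (v x - c); simp only [Pi.zero_apply]; nlinarith [mul_nonneg this (mul_self_nonneg (b x))]
  exact ⟨a1.2 (by linarith [a2.1]), a2.2 (by linarith [a1.1])⟩

lemma Lin.bd (H : G.Lin h (fun _ => 0) v a b t) (m1 : MemLp h 2 G.μ) :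
    ∫ p, v p ^ 2 ∂G.μ ≤ ∫ p, h p ^ 2 ∂G.μ := by
  have e := H.2 _ _ _ _ H.1
  have c := cs m1 H.1.m0
  have p0 : 0 ≤ ∫ p, v p ^ 2 ∂G.μ := integral_nonneg fun x => sq_nonneg _
  have p4 : 0 ≤ ∫ p, h p ^ 2 ∂G.μ := integral_nonneg fun x => sq_nonneg _
  have p1 : 0 ≤ ∫ p, a p * a p ∂G.μ := integral_nonneg fun x => mul_self_nonneg _
  have p2 : 0 ≤ ∫ p, b p * b p ∂G.μ := integral_nonneg fun x => mul_self_nonneg _
  have p3 : 0 ≤ ∫ p, t p * t p ∂G.ν := integral_nonneg fun x => mul_self_nonneg _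
  simp only [← sq, zero_mul, integral_zero, add_zero] at e p1 p2 p3
  by_contra hh
  have hh := not_le.1 hh
  nlinarith

lemma Lin.en (H : G.Lin h (fun _ => 1) v a b t) (m1 : MemLp h 2 G.μ) (H' : G.InV v' a' b' t') :
    (∫ p, ((v p ^ 2 - v' p ^ 2) / 2 - h p * (v p - v' p)) ∂G.μ) +
      ((∫ p, a p ^ 2 ∂G.μ) + (∫ p, b p ^ 2 ∂G.μ) + ∫ x, (1 - t x) ^ 2 ∂G.ν) / 2 ≤
      ((∫ p, a' p ^ 2 ∂G.μ) + (∫ p, b' p ^ 2 ∂G.μ) + ∫ x, (1 - t' x) ^ 2 ∂G.ν) / 2 := by
  have θ := H'.lin H.1 (-1)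
  have e := H.2 _ _ _ _ θ
  have E : ∀ {X : Type} [MeasurableSpace X] {m : Measure X} {f g : X → ℝ}, MemLp f 2 m →
      MemLp g 2 m → (∫ x, f x ^ 2 ∂m) - ∫ x, g x ^ 2 ∂m ≤
        2 * ∫ x, f x * (-1 * g x + f x) ∂m := fun {X _ m f g} hf hg => by
    rw [← integral_const_mul, ← integral_sub (isq hf) (isq hg)]
    exact integral_mono ((isq hf).sub (isq hg))
      ((imul hf ((hg.const_mul (-1)).add hf)).const_mul 2) fun x => by
        simp only; nlinarith [sq_nonneg (f x - g x)]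
  have one : MemLp (fun _ : ℝ => (1 : ℝ)) 2 G.ν := memLp_const 1
  have e0 := E H.1.m0 H'.m0
  have e1 := E H.1.m1 H'.m1
  have e2 := E H.1.m2 H'.m2
  have e3 := E (one.sub H.1.m3) (one.sub H'.m3)
  have e4 : ∫ x, ((fun _ : ℝ => (1 : ℝ)) - t) x * (-1 * ((fun _ : ℝ => (1 : ℝ)) - t') x +
      ((fun _ : ℝ => (1 : ℝ)) - t) x) ∂G.ν =
      (∫ x, t x * (-1 * t' x + t x) ∂G.ν) - ∫ x, 1 * (-1 * t' x + t x) ∂G.ν := by
    rw [← integral_sub (imul H.1.m3 θ.m3) (imul one θ.m3)]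
    congr 1; ext x; simp; ring
  have e5 : ∫ p, ((v p ^ 2 - v' p ^ 2) / 2 - h p * (v p - v' p)) ∂G.μ =
      ((∫ p, v p ^ 2 ∂G.μ) - ∫ p, v' p ^ 2 ∂G.μ) / 2 - ∫ p, h p * (-1 * v' p + v p) ∂G.μ := by
    rw [← integral_sub (isq H.1.m0) (isq H'.m0), ← integral_div, ← integral_sub
      (Integrable.div_const (f := fun p => v p ^ 2 - v' p ^ 2)
        ((isq H.1.m0).sub (isq H'.m0)) 2) (imul m1 θ.m0)]
    congr 1; ext x; ring
  rw [e4] at e3
  simp only [Pi.sub_apply] at e3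
  linarith

theorem solve (G : Geo) {l : ℝ} (hl : 0 < l) (hl' : l ≤ 1 / 2) {α : ℝ × ℝ → ℝ} (mα : Measurable α)
    (bα : ∀ p, 0 ≤ α p ∧ α p ≤ 1) : ∃ v a b t, G.WS (fun p => FF l (α p) (v p)) v a b t ∧
      ∫ p, GG l (α p) (v p) ∂G.μ ≤ G.ν.real univ / 2 := by
  set hh : (ℝ × ℝ → ℝ) → ℝ × ℝ → ℝ := fun v p => cl (v p) - FF l (α p) (cl (v p)) with hhh
  have one : MemLp (fun _ : ℝ => (1 : ℝ)) 2 G.ν := memLp_const 1
  have zr : MemLp (fun _ : ℝ => (0 : ℝ)) 2 G.ν := memLp_const 0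
  have hb : ∀ v p, 0 ≤ hh v p ∧ hh v p ≤ 1 ∧ |hh v p| ≤ |v p| := fun v p => by
    have h1 := cl_mem (v p)
    have h2 := FF_b hl.le hl' (bα p).1 (bα p).2 h1.1 h1.2.1
    have h3 : 0 ≤ hh v p := by simp only [hhh]; linarith
    refine ⟨h3, by simp only [hhh]; linarith, ?_⟩
    rw [abs_of_nonneg h3]; simp only [hhh]; linarith
  have mF : ∀ v : ℝ × ℝ → ℝ, AEStronglyMeasurable v G.μ →
      AEStronglyMeasurable (fun p => FF l (α p) (v p)) G.μ := fun v hv => by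
    have := f1_c.comp_aestronglyMeasurable hv
    have := mα.aestronglyMeasurable (μ := G.μ)
    unfold FF; fun_prop
  have mG : ∀ v : ℝ × ℝ → ℝ, AEStronglyMeasurable v G.μ →
      AEStronglyMeasurable (fun p => GG l (α p) (v p)) G.μ := fun v hv => by
    have := G1_c.comp_aestronglyMeasurable hv
    have := mα.aestronglyMeasurable (μ := G.μ)
    unfold GG; fun_prop
  have hm' : ∀ v : ℝ × ℝ → ℝ, AEStronglyMeasurable v G.μ → AEStronglyMeasurable (hh v) G.μ :=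
    fun v hv => (cl_c.comp_aestronglyMeasurable hv).sub (mF _ (cl_c.comp_aestronglyMeasurable hv))
  have hm : ∀ v, MemLp v 2 G.μ → MemLp (hh v) 2 G.μ := fun v hv =>
    mem_of_le hv (hm' v hv.1) 1 (Eventually.of_forall fun p => by simpa using (hb v p).2.2)
  have ex : ∀ v : ℝ × ℝ → ℝ, ∃ w a b t, MemLp v 2 G.μ → G.Lin (hh v) (fun _ => 1) w a b t :=
    fun v => by
    by_cases hv : MemLp v 2 G.μ
    · obtain ⟨w, a, b, t, h⟩ := exist (hm v hv) one
      exact ⟨w, a, b, t, fun _ => h⟩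
    · exact ⟨v, v, v, fun _ => 0, fun h => absurd h hv⟩
  choose S A B Tt hS using ex
  have bd : ∀ v, MemLp v 2 G.μ → (∀ᵐ p ∂G.μ, 0 ≤ S v p ∧ S v p ≤ 1) ∧
      ∀ᵐ x ∂G.ν, 0 ≤ Tt v x ∧ Tt v x ≤ 1 := fun v hv => by
    have u := (hS v hv).mp (hm v hv) one zero_le_one (Eventually.of_forall fun p => (hb v p).2.1)
      (Eventually.of_forall fun _ => le_rfl)
    have d := ((hS v hv).lin Lin.zero (hm v hv) one MemLp.zero zr (-1)).mp
      (((hm v hv).const_mul (-1)).add MemLp.zero) ((one.const_mul (-1)).add zr) le_rfl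
      (Eventually.of_forall fun p => by linarith [(hb v p).1])
      (Eventually.of_forall fun p => by norm_num)
    constructor
    · filter_upwards [u.1, d.1] with p h1 h2 using ⟨by linarith, h1⟩
    · filter_upwards [u.2, d.2] with p h1 h2 using ⟨by linarith, h1⟩
  let V : ℕ → ℝ × ℝ → ℝ := fun n => S^[n] fun _ => 0
  have Vs : ∀ n, V (n + 1) = S (V n) := fun n => Function.iterate_succ_apply' _ _ _
  have Vm : ∀ n, MemLp (V n) 2 G.μ := fun n => by
    induction n with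
    | zero => exact MemLp.zero
    | succ n ih => rw [Vs]; exact (hS _ ih).1.m0
  have Vb : ∀ n, ∀ᵐ p ∂G.μ, 0 ≤ V n p ∧ V n p ≤ 1 := fun n => by
    cases n with
    | zero => exact Eventually.of_forall fun p => ⟨le_rfl, zero_le_one⟩
    | succ n => rw [Vs]; exact (bd _ (Vm n)).1
  have Vmono : ∀ n, ∀ᵐ p ∂G.μ, V n p ≤ V (n + 1) p := fun n => by
    induction n with
    | zero => exact (Vb 1).mono fun p hp => hp.1
    | succ n ih =>
      have d := ((hS _ (Vm (n + 1))).lin (hS _ (Vm n)) (hm _ (Vm _)) one (hm _ (Vm _)) one (-1)).mp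
        (((hm _ (Vm _)).const_mul (-1)).add (hm _ (Vm _))) ((one.const_mul (-1)).add one) le_rfl
        (by
          filter_upwards [ih, Vb n, Vb (n + 1)] with p h1 h2 h3
          have := FF_mono hl.le hl' (bα p).1 (bα p).2 h2.1 h1 h3.2
          simp only [hhh, cl_eq h2.1 h2.2, cl_eq h3.1 h3.2]; linarith)
        (Eventually.of_forall fun p => by norm_num)
      filter_upwards [d.1] with p hp
      rw [Vs (n + 1), Vs n]
      rw [Vs n] at hp
      linarith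
  have iG : ∀ v, MemLp v 2 G.μ → (∀ᵐ p ∂G.μ, 0 ≤ v p ∧ v p ≤ 1) →
      ∀ᵐ p ∂G.μ, l / 6 * v p ^ 2 ≤ GG l (α p) (v p) ∧ ‖GG l (α p) (v p)‖ ≤ v p ^ 2 :=
    fun v hv h01 => h01.mono fun p hp => by
      have := GG_b hl.le hl' (bα p).1 (bα p).2 hp.1 hp.2
      have h2 := mul_nonneg (bα p).1 (G1_nn hp.1)
      have h3 : 0 ≤ l / 6 * v p ^ 2 := by positivity
      exact ⟨by linarith, by rw [Real.norm_of_nonneg (by linarith)]; exact this.2⟩
  have iG' : ∀ n, Integrable (fun p => GG l (α p) (V n p)) G.μ := fun n =>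
    (isq (Vm n)).mono' (mG _ (Vm n).1) ((iG _ (Vm n) (Vb n)).mono fun p hp => hp.2)
  have En : ∀ n, ∃ a b t, G.InV (V n) a b t ∧ (∫ p, GG l (α p) (V n p) ∂G.μ) +
      ((∫ p, a p ^ 2 ∂G.μ) + (∫ p, b p ^ 2 ∂G.μ) + ∫ x, (1 - t x) ^ 2 ∂G.ν) / 2 ≤
        G.ν.real univ / 2 := fun n => by
    induction n with
    | zero => exact ⟨_, _, _, InV.zero, by simp [V, GG, G1]⟩
    | succ n ih =>
      obtain ⟨a, b, t, h1, h2⟩ := ih
      have h3 := (hS _ (Vm n)).en (hm _ (Vm n)) h1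
      refine ⟨_, _, _, Vs n ▸ (hS _ (Vm n)).1, ?_⟩
      have h4 : (∫ p, GG l (α p) (V (n + 1) p) ∂G.μ) - ∫ p, GG l (α p) (V n p) ∂G.μ ≤
          ∫ p, ((V (n + 1) p ^ 2 - V n p ^ 2) / 2 - hh (V n) p * (V (n + 1) p - V n p)) ∂G.μ := by
        rw [← integral_sub (iG' _) (iG' _)]
        refine integral_mono_ae ((iG' _).sub (iG' _))
          ((Integrable.div_const ((isq (Vm _)).sub (isq (Vm _))) 2).sub
            (imul (hm _ (Vm n)) ((Vm _).sub (Vm _)))) ?_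
        filter_upwards [Vmono n, Vb n, Vb (n + 1)] with p k1 k2 k3
        have := GG_key hl.le hl' (bα p).1 (bα p).2 k2.1 k1 k3.2
        simpa only [hhh, cl_eq k2.1 k2.2] using this
      rw [← Vs n] at h3
      linarith
  have En' : ∀ n, ∫ p, GG l (α p) (V n p) ∂G.μ ≤ G.ν.real univ / 2 := fun n => by
    obtain ⟨a, b, t, -, h2⟩ := En n
    have p1 : 0 ≤ ∫ p, a p ^ 2 ∂G.μ := integral_nonneg fun x => sq_nonneg _
    have p2 : 0 ≤ ∫ p, b p ^ 2 ∂G.μ := integral_nonneg fun x => sq_nonneg _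
    have p3 : 0 ≤ ∫ p, (1 - t p) ^ 2 ∂G.ν := integral_nonneg fun x => sq_nonneg _
    linarith
  let v : ℝ × ℝ → ℝ := fun p => ⨆ n, V n p
  have hl1 : ∀ᵐ p ∂G.μ, Tendsto (fun n => V n p) atTop (𝓝 (v p)) ∧ (∀ n, V n p ≤ v p) ∧
      0 ≤ v p ∧ v p ≤ 1 := by
    filter_upwards [ae_all_iff.2 Vb, ae_all_iff.2 Vmono] with p h1 h2
    have hb : BddAbove (range fun n => V n p) := ⟨1, by rintro _ ⟨n, rfl⟩; exact (h1 n).2⟩
    exact ⟨tendsto_atTop_ciSup (monotone_nat_of_le_succ h2) hb, fun n => le_ciSup hb n,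
      (h1 0).1.trans (le_ciSup hb 0), ciSup_le fun n => (h1 n).2⟩
  have vm : AEStronglyMeasurable v G.μ :=
    aestronglyMeasurable_of_tendsto_ae atTop (fun n => (Vm n).1) (hl1.mono fun p hp => hp.1)
  have vL : MemLp v 2 G.μ := by
    refine ⟨vm, (Lp.eLpNorm_le_of_ae_tendsto (u := atTop) (C := ENNReal.ofReal
      (Real.sqrt (G.ν.real univ / 2 / (l / 6)))) (Eventually.of_forall fun n => ?_)
      (fun n => (Vm n).1) (hl1.mono fun p hp => hp.1)).trans_lt ENNReal.ofReal_lt_top⟩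
    rw [← Lp.enorm_toLp (Vm n), ← ofReal_norm]
    refine ENNReal.ofReal_le_ofReal (Real.le_sqrt_of_sq_le ?_)
    rw [← real_inner_self_eq_norm_sq, ip, le_div_iff₀ (by positivity), mul_comm,
      ← integral_const_mul]
    refine le_trans (integral_mono_ae ((imul (Vm n) (Vm n)).const_mul _) (iG' n) ?_) (En' n)
    filter_upwards [iG _ (Vm n) (Vb n)] with p hp
    rw [← sq]; exact hp.1
  have vb : ∀ᵐ p ∂G.μ, 0 ≤ v p ∧ v p ≤ 1 := hl1.mono fun p hp => hp.2.2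
  have dom : ∀ n, ∀ᵐ p ∂G.μ, |V n p| ≤ |v p| := fun n => by
    filter_upwards [hl1, Vb n] with p h1 h2
    rw [abs_of_nonneg h2.1, abs_of_nonneg h1.2.2.1]; exact h1.2.1 n
  have c1 : Cv G.μ V v := Cv.dct (fun n => (Vm n).1) vL dom (hl1.mono fun p hp => hp.1)
  have c2 : Cv G.μ (fun n => hh (V n)) (hh v) := Cv.dct (fun n => hm' _ (Vm n).1) vL
    (fun n => (dom n).mono fun p hp => (hb _ p).2.2.trans hp) (hl1.mono fun p hp => by
      have : Continuous fun s => cl s - FF l (α p) (cl s) := by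
        have := f1_c; have := cl_c; unfold FF; fun_prop
      exact (this.tendsto _).comp hp.1)
  have c3 : Cv G.μ (fun n => V (n + 1)) (S v) := by
    refine ⟨fun n => Vm _, (hS v vL).1.m0, squeeze_zero
      (fun n => integral_nonneg fun x => sq_nonneg _) (fun n => ?_) c2.t⟩
    have d := (hS v vL).lin (hS _ (Vm n)) (hm _ vL) one (hm _ (Vm _)) one (-1)
    simp only [neg_mul, one_mul, neg_add_cancel] at d
    have := d.bd ((hm _ vL).neg.add (hm _ (Vm n)))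
    simpa only [Vs, neg_add_eq_sub] using this
  have ev : v =ᵐ[G.μ] S v := by
    have := tendsto_nhds_unique (c1.comp (strictMono_id.add_const 1)).lp c3.lp
    exact (MemLp.toLp_eq_toLp_iff _ _).1 this
  have hV := (hS v vL).1.congr ev .rfl .rfl .rfl
  have mg : MemLp (fun p => FF l (α p) (v p)) 2 G.μ := mem_of_le vL (mF _ vm) 1 (vb.mono
    fun p hp => by
      have := FF_b hl.le hl' (bα p).1 (bα p).2 hp.1 hp.2
      rw [one_mul, abs_of_nonneg this.1, abs_of_nonneg hp.1]; exact this.2)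
  refine ⟨v, A v, B v, Tt v, ⟨hV, mg, vb.mono fun p hp => ?_, vb, (bd v vL).2,
    fun ψ p q s hψ => ?_⟩, ?_⟩
  · have := FF_b hl.le hl' (bα p).1 (bα p).2 hp.1 hp.2
    exact ⟨this.1, this.2.trans hp.2⟩
  · have e := (hS v vL).2 _ _ _ _ hψ
    have e1 : ∫ x, FF l (α x) (v x) * ψ x ∂G.μ =
        (∫ x, S v x * ψ x ∂G.μ) - ∫ x, hh v x * ψ x ∂G.μ := by
      rw [← integral_sub (imul (hS v vL).1.m0 hψ.m0) (imul (hm _ vL) hψ.m0)]
      refine integral_congr_ae ?_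
      filter_upwards [ev, vb] with x h1 h2
      simp only [hhh, ← h1, cl_eq h2.1 h2.2]; ring
    have e2 : ∫ x, (1 - Tt v x) * s x ∂G.ν =
        (∫ x, 1 * s x ∂G.ν) - ∫ x, Tt v x * s x ∂G.ν := by
      rw [← integral_sub (imul one hψ.m3) (imul (hS v vL).1.m3 hψ.m3)]
      congr 1; ext x; ring
    rw [e1, e2]; linarith
  · refine le_of_tendsto' (tendsto_integral_of_dominated_convergence (fun p => v p ^ 2)
      (fun n => mG _ (Vm n).1) (isq vL) (fun n => ?_) (hl1.mono fun p hp => ?_)) En'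
    · filter_upwards [iG _ (Vm n) (Vb n), dom n] with p h1 h2
      exact h1.2.trans (sq_le_sq.2 h2)
    · exact ((GG_d l (α p) _).continuousAt.tendsto).comp hp.1

end Geo

end Pool.Agent.H.MP_1dc5fb_an
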