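import Pool.Agent.H.MP_1dc5fb_an.C

set_option linter.unusedSectionVars false
set_option linter.unusedVariables false
set_option linter.dupNamespace false

namespace Pool.Agent.H.MP_1dc5fb_an

open MeasureTheory Filter Topology Set Metric
open scoped Convolution ContDiff

section conv
variable {E : Type*} [NormedAddCommGroup E] [NormedSpace ℝ E] [CompleteSpace E]
  {g : ℝ × ℝ → ℝ}

lemma cint (mg : Measurable g) (bg : ∀ p, |g p| ≤ 1) {K : ℝ × ℝ → E} (hK : Integrable K)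
    (p : ℝ × ℝ) : Integrable (fun q => g q • K (p - q)) :=
  (hK.comp_sub_left p).norm.mono' (mg.aestronglyMeasurable.smul (hK.comp_sub_left p).1)
    (Eventually.of_forall fun q => by
      rw [norm_smul]; exact mul_le_of_le_one_left (norm_nonneg _) (bg q))

lemma cbound (mg : Measurable g) (bg : ∀ p, |g p| ≤ 1) {K : ℝ × ℝ → E} (hK : Integrable K)
    (p : ℝ × ℝ) : ‖∫ q, g q • K (p - q)‖ ≤ ∫ z, ‖K z‖ := by
  rw [← integral_sub_left_eq_self (fun z => ‖K z‖) volume p]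
  exact norm_integral_le_of_norm_le (hK.comp_sub_left p).norm (Eventually.of_forall fun q => by
    rw [norm_smul]; exact mul_le_of_le_one_left (norm_nonneg _) (bg q))

lemma ctend (mg : Measurable g) (bg : ∀ p, |g p| ≤ 1) {K : ℕ → ℝ × ℝ → E} {K0 : ℝ × ℝ → E}
    {D : ℝ × ℝ → ℝ} (hD : Integrable D) (hm : ∀ n, Continuous (K n))
    (hb : ∀ n, ∀ᵐ z, ‖K n z‖ ≤ D z) (hl : ∀ᵐ z, Tendsto (fun n => K n z) atTop (𝓝 (K0 z))) :
    Integrable K0 ∧ (∀ n p, ‖∫ q, g q • K n (p - q)‖ ≤ ∫ z, D z) ∧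
    TendstoUniformly (fun n p => ∫ q, g q • K n (p - q)) (fun p => ∫ q, g q • K0 (p - q)) atTop := by
  have i1 : ∀ n, Integrable (K n) := fun n => hD.mono' (hm n).aestronglyMeasurable (hb n)
  have m0 : AEStronglyMeasurable K0 volume :=
    aestronglyMeasurable_of_tendsto_ae atTop (fun n => (hm n).aestronglyMeasurable) hl
  have b0 : ∀ᵐ z, ‖K0 z‖ ≤ D z := by
    filter_upwards [ae_all_iff.2 hb, hl] with z h1 h2 using le_of_tendsto' h2.norm h1
  have i0 : Integrable K0 := hD.mono' m0 b0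
  refine ⟨i0, fun n p => (cbound mg bg (i1 n) p).trans (integral_mono_ae (i1 n).norm hD (hb n)), ?_⟩
  have t := tendsto_integral_of_dominated_convergence (μ := volume)
    (F := fun n z => ‖K0 z - K n z‖) (f := fun _ => (0 : ℝ)) (fun z => D z + D z)
    (fun n => (m0.sub (i1 n).1).norm) (hD.add hD) (fun n => by
      filter_upwards [hb n, b0] with z h1 h2
      rw [norm_norm]; exact (norm_sub_le _ _).trans (add_le_add h2 h1)) (by
      filter_upwards [hl] with z h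
      simpa using (h.const_sub (K0 z)).norm)
  rw [integral_zero] at t
  rw [Metric.tendstoUniformly_iff]
  intro ε hε
  filter_upwards [t.eventually (gt_mem_nhds hε)] with n hn p
  rw [dist_eq_norm, ← integral_sub (cint mg bg i0 p) (cint mg bg (i1 n) p)]
  simp only [← smul_sub]
  exact (cbound mg bg (i0.sub (i1 n)) p).trans_lt hn

lemma gloc (mg : Measurable g) (bg : ∀ p, |g p| ≤ 1) : LocallyIntegrable g volume :=
  (locallyIntegrable_const (1 : ℝ)).mono mg.aestronglyMeasurable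
    (Eventually.of_forall fun p => by simpa using bg p)

lemma cder (mg : Measurable g) (bg : ∀ p, |g p| ≤ 1) {K : ℝ × ℝ → ℝ} (hK : ContDiff ℝ 1 K)
    (hc : HasCompactSupport K) : ContDiff ℝ 1 (fun p => ∫ q, g q • K (p - q)) ∧
    ∀ p, HasFDerivAt (fun p => ∫ q, g q • K (p - q)) (∫ q, g q • fderiv ℝ K (p - q)) p := by
  refine ⟨hc.contDiff_convolution_right (n := 1) (ContinuousLinearMap.lsmul ℝ ℝ) (gloc mg bg) hK,
    fun p => ?_⟩
  have := hc.hasFDerivAt_convolution_right (ContinuousLinearMap.lsmul ℝ ℝ) (gloc mg bg) hK p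
  refine this.congr_fderiv ?_
  rw [convolution_def]
  congr 1

lemma convC1 (mg : Measurable g) (bg : ∀ p, |g p| ≤ 1) {K : ℕ → ℝ × ℝ → ℝ} {K0 : ℝ × ℝ → ℝ}
    {K1 : ℝ × ℝ → ℝ × ℝ →L[ℝ] ℝ} {D : ℝ × ℝ → ℝ} (hD : Integrable D)
    (hK : ∀ n, ContDiff ℝ 1 (K n)) (hc : ∀ n, HasCompactSupport (K n))
    (hb : ∀ n, ∀ᵐ z, ‖K n z‖ ≤ D z) (hl : ∀ᵐ z, Tendsto (fun n => K n z) atTop (𝓝 (K0 z)))
    (hb' : ∀ n, ∀ᵐ z, ‖fderiv ℝ (K n) z‖ ≤ D z)
    (hl' : ∀ᵐ z, Tendsto (fun n => fderiv ℝ (K n) z) atTop (𝓝 (K1 z))) :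
    ContDiff ℝ 1 (fun p => ∫ q, g q • K0 (p - q)) := by
  obtain ⟨-, -, t0⟩ := ctend mg bg hD (fun n => (hK n).continuous) hb hl
  obtain ⟨-, -, t1⟩ := ctend mg bg hD (fun n => (hK n).continuous_fderiv one_ne_zero) hb' hl'
  have hd := hasFDerivAt_of_tendstoUniformly t1 (fun n => (cder mg bg (hK n) (hc n)).2)
    (fun p => t0.tendsto_at p)
  refine contDiff_one_iff_fderiv.2 ⟨fun p => (hd p).differentiableAt, ?_⟩
  rw [funext fun p => (hd p).fderiv]
  refine t1.continuous (Eventually.frequently (Eventually.of_forall fun n => ?_))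
  rw [← funext fun p => ((cder mg bg (hK n) (hc n)).2 p).fderiv]
  exact (cder mg bg (hK n) (hc n)).1.continuous_fderiv one_ne_zero

end conv

noncomputable def kk (τ : ℝ) : ℝ := max (1 - τ) 0 ^ 3 / τ
noncomputable def kk' (τ : ℝ) : ℝ := -(3 * max (1 - τ) 0 ^ 2 / τ + max (1 - τ) 0 ^ 3 / τ ^ 2)
noncomputable def ll (σ : ℝ) : ℝ := ∫ τ in (1 : ℝ)..σ, kk τ

lemma kk_d {τ : ℝ} (h : 0 < τ) : HasDerivAt kk (kk' τ) τ := by
  have := ((ppow 1 (1 - τ)).comp_const_sub 1 τ).div (hasDerivAt_id τ) h.ne'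
  refine this.congr_deriv ?_
  simp only [kk', id]
  field_simp
  norm_num
  ring

lemma kk_c : ContinuousOn kk (Ioi 0) := fun τ h => (kk_d h).continuousAt.continuousWithinAt

lemma kk_ii {σ : ℝ} (h : 0 < σ) : IntervalIntegrable kk volume 1 σ :=
  (kk_c.mono fun τ hτ => lt_of_lt_of_le (lt_min one_pos h) hτ.1).intervalIntegrable

lemma ll_d {σ : ℝ} (h : 0 < σ) : HasDerivAt ll (kk σ) σ :=
  intervalIntegral.integral_hasDerivAt_right (kk_ii h)
    (kk_c.stronglyMeasurableAtFilter isOpen_Ioi σ h) (kk_d h).continuousAt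

lemma ll_c2 : ContDiffOn ℝ 2 ll (Ioi 0) := by
  rw [show (2 : WithTop ℕ∞) = 1 + 1 from rfl, contDiffOn_succ_iff_deriv_of_isOpen isOpen_Ioi]
  refine ⟨fun σ h => (ll_d h).differentiableAt.differentiableWithinAt, by simp, ?_⟩
  refine ContDiffOn.congr (f := kk) ?_ fun σ h => (ll_d h).deriv
  have : ContDiff ℝ 1 fun x : ℝ => max x 0 ^ 3 := c1_of (ppow 1) (by fun_prop)
  exact ((this.comp (contDiff_const.sub contDiff_id)).contDiffOn).div contDiffOn_id
    fun σ h => ne_of_gt h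

lemma kk_z {τ : ℝ} (h : 1 ≤ τ) : kk τ = 0 := by
  simp [kk, max_eq_right (sub_nonpos.2 h)]

lemma ll_z {σ : ℝ} (h : 1 ≤ σ) : ll σ = 0 := by
  rw [ll, intervalIntegral.integral_congr (g := fun _ => 0) fun τ hτ =>
    kk_z (by rw [uIcc_of_le h] at hτ; exact hτ.1)]
  simp

lemma kk_b {τ : ℝ} (h : 0 < τ) : 0 ≤ kk τ ∧ kk τ ≤ τ⁻¹ := by
  refine ⟨by unfold kk; positivity, ?_⟩
  rw [kk, ← one_div]
  exact div_le_div_of_nonneg_right (pow_le_one₀ (le_max_right _ _)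
    (max_le (by linarith) zero_le_one)) h.le

lemma ll_b {σ : ℝ} (h : 0 < σ) : ll σ ≤ 0 ∧ -ll σ ≤ 2 / Real.sqrt σ := by
  rcases le_total 1 σ with h1 | h1
  · rw [ll_z h1]; exact ⟨le_rfl, by simp only [neg_zero]; positivity⟩
  rw [ll, intervalIntegral.integral_symm, neg_neg, neg_nonpos]
  refine ⟨intervalIntegral.integral_nonneg h1 fun τ hτ => (kk_b (h.trans_le hτ.1)).1, ?_⟩
  have h2 := intervalIntegral.integral_mono_on h1 (kk_ii h).symm
    (intervalIntegral.intervalIntegrable_inv (f := fun x => x)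
      (fun x hx => by rw [uIcc_of_le h1] at hx; exact (h.trans_le hx.1).ne') continuousOn_id)
    fun τ hτ => (kk_b (h.trans_le hτ.1)).2
  rw [integral_inv_of_pos h one_pos] at h2
  have h3 : 0 < Real.sqrt σ := Real.sqrt_pos.2 h
  have h4 : Real.log (1 / σ) = 2 * Real.log (1 / Real.sqrt σ) := by
    rw [show 1 / σ = (1 / Real.sqrt σ) ^ 2 by rw [div_pow, Real.sq_sqrt h.le, one_pow],
      Real.log_pow]; norm_num
  have h5 := Real.log_le_self (show 0 ≤ 1 / Real.sqrt σ by positivity)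
  rw [show 2 / Real.sqrt σ = 2 * (1 / Real.sqrt σ) by ring]
  linarith

noncomputable def ss (r : ℝ) (z : ℝ × ℝ) : ℝ := (z.1 ^ 2 + z.2 ^ 2) / r ^ 2
noncomputable def ds (r : ℝ) (z : ℝ × ℝ) : ℝ × ℝ →L[ℝ] ℝ :=
  (2 * z.1 / r ^ 2) • ContinuousLinearMap.fst ℝ ℝ ℝ + (2 * z.2 / r ^ 2) • ContinuousLinearMap.snd ℝ ℝ ℝ

lemma ss_c (r : ℝ) {n : WithTop ℕ∞} : ContDiff ℝ n (ss r) := by unfold ss; fun_prop

lemma ss_nn (r : ℝ) (z : ℝ × ℝ) : 0 ≤ ss r z := by unfold ss; positivity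

lemma ss_d (r : ℝ) (z : ℝ × ℝ) : HasFDerivAt (ss r) (ds r z) z := by
  have := (((hasFDerivAt_fst (𝕜 := ℝ) (p := z)).pow 2).add
    ((hasFDerivAt_snd (𝕜 := ℝ) (p := z)).pow 2)).const_mul (r ^ 2)⁻¹
  refine (this.congr_fderiv ?_).congr_of_eventuallyEq (Eventually.of_forall fun q => ?_)
  · ext <;> simp [ds] <;> ring
  · simp [ss]; ring

lemma nsq_le (z : ℝ × ℝ) : ‖z‖ ^ 2 ≤ z.1 ^ 2 + z.2 ^ 2 := by
  rw [Prod.norm_def, Real.norm_eq_abs, Real.norm_eq_abs]
  rcases le_total |z.1| |z.2| with h | h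
  · rw [max_eq_right h, sq_abs]; nlinarith [sq_nonneg z.1]
  · rw [max_eq_left h, sq_abs]; nlinarith [sq_nonneg z.2]

lemma ss_ge (r : ℝ) (z : ℝ × ℝ) : (‖z‖ / r) ^ 2 ≤ ss r z := by
  rw [div_pow]; exact div_le_div_of_nonneg_right (nsq_le z) (sq_nonneg _)

lemma ss_one {r : ℝ} (hr : 0 < r) {z : ℝ × ℝ} (h : r ≤ ‖z‖) : 1 ≤ ss r z :=
  (one_le_pow₀ ((one_le_div hr).2 h)).trans (ss_ge r z)

lemma ds_b {r : ℝ} (z : ℝ × ℝ) : ‖ds r z‖ ≤ 4 * ‖z‖ / r ^ 2 := by
  refine ContinuousLinearMap.opNorm_le_bound _ (by positivity) fun w => ?_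
  have h1 := norm_fst_le z
  have h2 := norm_snd_le z
  have h3 := norm_fst_le w
  have h4 := norm_snd_le w
  have e : ds r z w = (2 * (z.1 * w.1) + 2 * (z.2 * w.2)) / r ^ 2 := by simp [ds]; ring
  rw [e, norm_div, Real.norm_of_nonneg (sq_nonneg r), div_mul_eq_mul_div]
  refine div_le_div_of_nonneg_right ((norm_add_le _ _).trans ?_) (sq_nonneg _)
  simp only [norm_mul, Real.norm_ofNat]
  nlinarith [mul_le_mul h1 h3 (norm_nonneg _) (norm_nonneg _),
    mul_le_mul h2 h4 (norm_nonneg _) (norm_nonneg _)]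

noncomputable def KK (r ε : ℝ) (z : ℝ × ℝ) : ℝ := ll (ss r z + ε)
noncomputable def AA (r ε : ℝ) (z : ℝ × ℝ) : ℝ := max (1 - (ss r z + ε)) 0 ^ 2

lemma KK_c (r : ℝ) {ε : ℝ} (h : 0 < ε) : ContDiff ℝ 2 (KK r ε) :=
  ll_c2.comp_contDiff ((ss_c r).add contDiff_const) fun z => add_pos_of_nonneg_of_pos (ss_nn r z) h

lemma KK_d (r : ℝ) {ε : ℝ} (h : 0 < ε) (z : ℝ × ℝ) :
    HasFDerivAt (KK r ε) (kk (ss r z + ε) • ds r z) z :=
  (ll_d (add_pos_of_nonneg_of_pos (ss_nn r z) h)).comp_hasFDerivAt z ((ss_d r z).add_const ε)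

lemma supp_of {r : ℝ} {F : ℝ × ℝ → ℝ} {p : ℝ × ℝ} (h : ∀ z, r ≤ ‖z - p‖ → F z = 0) :
    tsupport F ⊆ closedBall p r ∧ HasCompactSupport F := by
  have : tsupport F ⊆ closedBall p r := closure_minimal (fun z hz => by
    by_contra h'
    rw [mem_closedBall, dist_eq_norm, not_le] at h'
    exact hz (h z h'.le)) isClosed_closedBall
  exact ⟨this, (isCompact_closedBall p r).of_isClosed_subset (isClosed_tsupport F) this⟩

lemma lap {r ε : ℝ} (hr : 0 < r) (h : 0 < ε) (p q : ℝ × ℝ) :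
    dx (dx fun q => KK r ε (p - q)) q + dy (dy fun q => KK r ε (p - q)) q =
      4 / r ^ 2 * (-(ε * kk' (ss r (p - q) + ε)) - 3 * AA r ε (p - q)) := by
  have hψ : ContDiff ℝ 2 fun q => KK r ε (p - q) := (KK_c r h).comp (contDiff_const.sub contDiff_id)
  have pos : ∀ z, 0 < ss r z + ε := fun z => add_pos_of_nonneg_of_pos (ss_nn r z) h
  have sx : ∀ q : ℝ × ℝ, HasDerivAt (fun x => ss r (p - (x, q.2)) + ε)
      (2 * (q.1 - p.1) / r ^ 2) q.1 := fun q => by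
    refine (((((hasDerivAt_id q.1).const_sub p.1).pow 2).add_const ((p.2 - q.2) ^ 2)).div_const
      (r ^ 2) |>.add_const ε).congr_deriv ?_
    simp; ring
  have sy : ∀ q : ℝ × ℝ, HasDerivAt (fun y => ss r (p - (q.1, y)) + ε)
      (2 * (q.2 - p.2) / r ^ 2) q.2 := fun q => by
    refine (((((hasDerivAt_id q.2).const_sub p.2).pow 2).const_add ((p.1 - q.1) ^ 2)).div_const
      (r ^ 2) |>.add_const ε).congr_deriv ?_
    simp; ring
  have e1 : dx (fun q => KK r ε (p - q)) = fun q => kk (ss r (p - q) + ε) *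
      (2 * (q.1 - p.1) / r ^ 2) := funext fun q =>
    dx_eq (hψ.differentiable two_ne_zero q) ((ll_d (pos _)).comp q.1 (sx q))
  have e2 : dy (fun q => KK r ε (p - q)) = fun q => kk (ss r (p - q) + ε) *
      (2 * (q.2 - p.2) / r ^ 2) := funext fun q =>
    dy_eq (hψ.differentiable two_ne_zero q) ((ll_d (pos _)).comp q.2 (sy q))
  have hk : DifferentiableAt ℝ (fun q => kk (ss r (p - q) + ε)) q :=
    DifferentiableAt.comp (g := kk) (f := fun q => ss r (p - q) + ε) q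
      (kk_d (pos _)).differentiableAt
      ((((ss_c r (n := 1)).comp (contDiff_const.sub contDiff_id)).add
        contDiff_const).differentiable one_ne_zero q)
  rw [e1, e2, dx_eq (hk.fun_mul (by fun_prop)) (((kk_d (pos _)).comp q.1 (sx q)).mul
      ((((hasDerivAt_id q.1).sub_const p.1).const_mul 2).div_const (r ^ 2))),
    dy_eq (hk.fun_mul (by fun_prop)) (((kk_d (pos _)).comp q.2 (sy q)).mul
      ((((hasDerivAt_id q.2).sub_const p.2).const_mul 2).div_const (r ^ 2)))]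
  have h1 := (pos (p - q)).ne'
  have h2 : ss r (p - q) * r ^ 2 = (q.1 - p.1) ^ 2 + (q.2 - p.2) ^ 2 := by
    simp only [ss, Prod.fst_sub, Prod.snd_sub]; field_simp; ring
  simp only [Function.comp, id, Prod.mk.eta, kk, kk', AA]
  set σ := ss r (p - q)
  set m := max (1 - (σ + ε)) 0
  have h3 : (q.1 - p.1) ^ 2 = σ * r ^ 2 - (q.2 - p.2) ^ 2 := by linarith
  field_simp
  rw [h3]
  ring

end Pool.Agent.H.MP_1dc5fb_an
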