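import Pool.Agent.H.MP_1dc5fb_an.D

set_option linter.unusedSectionVars false
set_option linter.unusedVariables false
set_option linter.dupNamespace false

namespace Pool.Agent.H.MP_1dc5fb_an

open MeasureTheory Filter Topology Set Metric
open scoped Convolution ContDiff

noncomputable def ee (n : ℕ) : ℝ := 1 / ((n : ℝ) + 1)

lemma ee_pos (n : ℕ) : 0 < ee n := Nat.one_div_pos_of_nat
lemma ee_t : Tendsto ee atTop (𝓝 0) := tendsto_one_div_add_atTop_nhds_zero_nat

noncomputable def DD (r : ℝ) : ℝ × ℝ → ℝ := (ball 0 r).indicator fun z => (2 * r + 4) * ‖z‖⁻¹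

lemma DD_i {r : ℝ} (hr : 0 < r) : Integrable (DD r) := by
  rw [DD, integrable_indicator_iff measurableSet_ball]
  refine integrableOn_ball_of_norm_le_rpow (C := 2 * r + 4) (α := 1) (by simp) (by simp)
    (Eventually.of_forall fun z => ?_) (Measurable.aestronglyMeasurable (by fun_prop))
  rw [Real.rpow_neg_one, Real.norm_of_nonneg (by positivity)]

lemma ae0 : ∀ᵐ z : ℝ × ℝ, z ≠ 0 := by
  simpa using (countable_singleton (0 : ℝ × ℝ)).ae_notMem volume

lemma AA_z {r ε : ℝ} (hr : 0 < r) (h : 0 ≤ ε) {z : ℝ × ℝ} (hz : r ≤ ‖z‖) : AA r ε z = 0 := by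
  simp [AA, max_eq_right (show 1 - (ss r z + ε) ≤ 0 by linarith [ss_one hr hz])]

lemma AA_c (r ε : ℝ) : ContDiff ℝ 1 (AA r ε) :=
  (c1_of ppow2 (by fun_prop)).comp (contDiff_const.sub ((ss_c r).add contDiff_const))

lemma dom {r ε : ℝ} (hr : 0 < r) (h : 0 < ε) {z : ℝ × ℝ} (hz : z ≠ 0) :
    ‖KK r ε z‖ ≤ DD r z ∧ ‖fderiv ℝ (KK r ε) z‖ ≤ DD r z ∧ ‖AA r ε z‖ ≤ DD r z := by
  rw [(KK_d r h z).fderiv]
  have hn : 0 < ‖z‖ := norm_pos_iff.2 hz
  rcases le_or_gt r ‖z‖ with h1 | h1
  · have := ss_one hr h1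
    rw [KK, ll_z (by linarith), kk_z (by linarith), AA_z hr h.le h1, DD,
      indicator_of_notMem (by simpa using h1)]
    simp
  rw [DD, indicator_of_mem (by simpa using h1)]
  have h2 := ss_ge r z
  have h3 : 0 < ss r z + ε := add_pos_of_nonneg_of_pos (ss_nn r z) h
  have h4 : 0 < ‖z‖⁻¹ := inv_pos.2 hn
  refine ⟨?_, ?_, ?_⟩
  · have := ll_b h3
    rw [KK, Real.norm_eq_abs, abs_of_nonpos this.1]
    refine this.2.trans ((div_le_div_of_nonneg_left zero_le_two (div_pos hn hr)
      (Real.le_sqrt_of_sq_le (by linarith))).trans ?_)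
    rw [show 2 / (‖z‖ / r) = 2 * r * ‖z‖⁻¹ by field_simp]
    nlinarith
  · have := kk_b h3
    rw [norm_smul, Real.norm_of_nonneg this.1]
    have h5 : kk (ss r z + ε) ≤ ((‖z‖ / r) ^ 2)⁻¹ :=
      this.2.trans (inv_anti₀ (by positivity) (by linarith))
    refine (mul_le_mul h5 (ds_b z) (norm_nonneg _) (by positivity)).trans ?_
    rw [show ((‖z‖ / r) ^ 2)⁻¹ * (4 * ‖z‖ / r ^ 2) = 4 * ‖z‖⁻¹ by field_simp]
    nlinarith
  · rw [AA, Real.norm_of_nonneg (sq_nonneg _)]
    refine (pow_le_one₀ (le_max_right _ _) (max_le (by linarith) zero_le_one)).trans ?_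
    rw [← div_eq_mul_inv, one_le_div hn]
    linarith

lemma ss_pos {r : ℝ} (hr : 0 < r) {z : ℝ × ℝ} (hz : z ≠ 0) : 0 < ss r z :=
  (pow_pos (div_pos (norm_pos_iff.2 hz) hr) 2).trans_le (ss_ge r z)

lemma sst (r : ℝ) (z : ℝ × ℝ) : Tendsto (fun n => ss r z + ee n) atTop (𝓝 (ss r z)) := by
  simpa using ee_t.const_add (ss r z)

noncomputable def NN (z : ℝ × ℝ) : ℝ := z.1 ^ 2 + z.2 ^ 2 + 1

lemma NN_pos (z : ℝ × ℝ) : 0 < NN z := by unfold NN; positivity

lemma NN_i : Integrable fun z => (NN z ^ 2)⁻¹ := by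
  refine (integrable_inv_one_add_sq.mul_prod integrable_inv_one_add_sq).mono'
    (Measurable.aestronglyMeasurable (by unfold NN; fun_prop)) (Eventually.of_forall fun z => ?_)
  rw [Real.norm_of_nonneg (by positivity), ← mul_inv]
  refine inv_anti₀ (by positivity) ?_
  unfold NN
  nlinarith [sq_nonneg z.1, sq_nonneg z.2, mul_nonneg (sq_nonneg z.1) (sq_nonneg z.2),
    sq_nonneg (z.1 ^ 2), sq_nonneg (z.2 ^ 2)]

noncomputable def c0 : ℝ := ∫ z, (NN z ^ 2)⁻¹

lemma c0_pos : 0 < c0 :=
  integral_pos_iff_support_of_nonneg (fun z => by positivity) NN_i |>.2 (by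
    rw [show Function.support (fun z => (NN z ^ 2)⁻¹) = univ from
      eq_univ_of_forall fun z => (inv_pos.2 (pow_pos (NN_pos z) 2)).ne']
    exact isOpen_univ.measure_pos _ univ_nonempty)

noncomputable def kt (ε : ℝ) (z : ℝ × ℝ) : ℝ :=
  3 * ε * max (1 - ε * NN z) 0 ^ 2 / NN z + max (1 - ε * NN z) 0 ^ 3 / NN z ^ 2

lemma kt_m (ε : ℝ) : Measurable (kt ε) := by unfold kt NN; fun_prop

lemma kt_b {ε : ℝ} (h : 0 < ε) (z : ℝ × ℝ) : ‖kt ε z‖ ≤ 4 * (NN z ^ 2)⁻¹ := by
  have hN := NN_pos z
  rw [Real.norm_of_nonneg (by unfold kt; positivity), kt]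
  rcases le_total (1 - ε * NN z) 0 with h1 | h1
  · simp only [max_eq_right h1]; simp; positivity
  rw [max_eq_left h1]
  have h2 : 1 - ε * NN z ≤ 1 := by nlinarith [mul_pos h hN]
  have h3 := pow_le_one₀ (n := 2) h1 h2
  have h4 := pow_le_one₀ (n := 3) h1 h2
  rw [show 3 * ε * (1 - ε * NN z) ^ 2 / NN z + (1 - ε * NN z) ^ 3 / NN z ^ 2 =
    (3 * (ε * NN z * (1 - ε * NN z) ^ 2) + (1 - ε * NN z) ^ 3) * (NN z ^ 2)⁻¹ by field_simp]
  refine mul_le_mul_of_nonneg_right ?_ (by positivity)
  nlinarith [mul_le_mul (show ε * NN z ≤ 1 by linarith) h3 (sq_nonneg _) zero_le_one]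

lemma kt_t (z : ℝ × ℝ) : Tendsto (fun n => kt (ee n) z) atTop (𝓝 (NN z ^ 2)⁻¹) := by
  have : Continuous fun ε => kt ε z := by unfold kt; fun_prop
  simpa [kt, Function.comp_def] using (this.tendsto 0).comp ee_t

lemma scale {u : ℝ × ℝ → ℝ} {r ε : ℝ} (hr : 0 < r) (h : 0 < ε) (p : ℝ × ℝ) :
    ∫ q, u q • -(ε * kk' (ss r (p - q) + ε)) =
      r ^ 2 * ∫ z, u (p - (r * Real.sqrt ε) • z) * kt ε z := by
  have hτ : 0 < r * Real.sqrt ε := mul_pos hr (Real.sqrt_pos.2 h)
  have e1 := integral_sub_left_eq_self (fun z => u (p - z) • -(ε * kk' (ss r z + ε))) volume p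
  simp only [sub_sub_cancel] at e1
  have e2 := Measure.integral_comp_smul volume (fun z => u (p - z) • -(ε * kk' (ss r z + ε)))
    (r * Real.sqrt ε)
  have e3 : ∀ z : ℝ × ℝ, u (p - (r * Real.sqrt ε) • z) •
      -(ε * kk' (ss r ((r * Real.sqrt ε) • z) + ε)) =
      ε⁻¹ * (u (p - (r * Real.sqrt ε) • z) * kt ε z) := fun z => by
    have : ss r ((r * Real.sqrt ε) • z) + ε = ε * NN z := by
      simp only [ss, NN, Prod.smul_fst, Prod.smul_snd, smul_eq_mul, mul_pow, Real.sq_sqrt h.le]
      field_simp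
    have hN := (NN_pos z).ne'
    rw [this, kk', kt, smul_eq_mul]
    field_simp
  simp only [e3] at e2
  rw [integral_const_mul, Module.finrank_prod, Module.finrank_self, mul_pow, Real.sq_sqrt h.le,
    abs_of_pos (by positivity), smul_eq_mul] at e2
  rw [e1]
  field_simp at e2
  rw [← e2]; ring

lemma limE {u θ : ℝ × ℝ → ℝ} (mu : Measurable u) (bu : ∀ p, |u p| ≤ 1) (hθ : Continuous θ)
    (hc : HasCompactSupport θ) {τ : ℕ → ℝ} (hτ : Tendsto τ atTop (𝓝 0)) :
    Tendsto (fun n => ∫ p, θ p * ∫ z, u (p - τ n • z) * kt (ee n) z) atTop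
      (𝓝 (c0 * ∫ p, θ p * u p)) := by
  have iθ : Integrable θ := hθ.integrable_of_hasCompactSupport hc
  have hc' : HasCompactSupport fun y => θ (-y) := hc.comp_homeomorph (Homeomorph.neg _)
  have cΘ : Continuous fun x => ∫ q, u q • θ (-(x - q)) :=
    hc'.continuous_convolution_right (ContinuousLinearMap.lsmul ℝ ℝ) (gloc mu bu)
      (hθ.comp continuous_neg)
  have bΘ := fun x => cbound mu bu (K := fun y => θ (-y)) iθ.comp_neg x
  have e : ∀ n, ∫ p, θ p * ∫ z, u (p - τ n • z) * kt (ee n) z =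
      ∫ z, kt (ee n) z * ∫ q, u q • θ (-(-(τ n • z) - q)) := fun n => by
    simp only [← integral_const_mul]
    rw [integral_integral_swap]
    · congr 1; ext z
      rw [← integral_add_right_eq_self _ (τ n • z)]
      congr 1; ext q
      simp only [add_sub_cancel_right, smul_eq_mul]
      rw [show -(-(τ n • z) - q) = q + τ n • z by abel]; ring
    · refine (iθ.norm.mul_prod (NN_i.const_mul 4)).mono' (Measurable.aestronglyMeasurable ?_)
        (Eventually.of_forall fun w => ?_)
      · have := hθ.measurable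
        have := kt_m (ee n)
        unfold Function.uncurry
        fun_prop
      · simp only [Function.uncurry, norm_mul]
        exact mul_le_mul_of_nonneg_left ((mul_le_of_le_one_left (norm_nonneg _) (bu _)).trans
          (kt_b (ee_pos n) _)) (norm_nonneg _)
  simp only [e]
  have := tendsto_integral_of_dominated_convergence (μ := volume)
    (F := fun n z => kt (ee n) z * ∫ q, u q • θ (-(-(τ n • z) - q)))
    (f := fun z => (NN z ^ 2)⁻¹ * ∫ q, u q • θ (-(0 - q)))
    (fun z => 4 * (NN z ^ 2)⁻¹ * ∫ y, ‖θ (-y)‖)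
    (fun n => (kt_m _).aestronglyMeasurable.mul
      (cΘ.comp (by fun_prop : Continuous fun z : ℝ × ℝ => -(τ n • z))).aestronglyMeasurable)
    ((NN_i.const_mul 4).mul_const _) (fun n => Eventually.of_forall fun z => by
      rw [norm_mul]
      exact mul_le_mul (kt_b (ee_pos n) z) (bΘ _) (norm_nonneg _) (by positivity))
    (Eventually.of_forall fun z => (kt_t z).mul ((cΘ.tendsto 0).comp
      (by simpa using (hτ.smul_const z).neg)))
  rw [integral_mul_const] at this
  simpa [c0, mul_comm] using this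

theorem reg0 {Ω : Set (ℝ × ℝ)} {u g : ℝ × ℝ → ℝ} (mu : Measurable u) (bu : ∀ p, |u p| ≤ 1)
    (mg : Measurable g) (bg : ∀ p, |g p| ≤ 1) (u0 : ∀ p, 0 ≤ u p) (g0 : ∀ p, 0 ≤ g p)
    (hW : ∀ ψ : ℝ × ℝ → ℝ, ContDiff ℝ 2 ψ → HasCompactSupport ψ → tsupport ψ ⊆ Ω →
      ∫ q, u q * (dx (dx ψ) q + dy (dy ψ) q) = -∫ q, g q * ψ q) {r : ℝ} (hr : 0 < r) :
    ∃ R : ℝ × ℝ → ℝ, ContDiff ℝ 1 R ∧
      (∀ p₀, closedBall p₀ (2 * r) ⊆ Ω → ∀ᵐ p, p ∈ ball p₀ r → u p = R p) ∧
      ∀ p, R p ≤ 0 → ∀ᵐ q, q ∈ ball p (r / 2) → u q = 0 := by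
  have sK : ∀ n, HasCompactSupport (KK r (ee n)) := fun n => (supp_of (r := r) (p := 0)
    fun z hz => ll_z (by linarith [ss_one hr (sub_zero z ▸ hz), ee_pos n])).2
  have sA : HasCompactSupport (AA r 0) :=
    (supp_of (r := r) (p := 0) fun z hz => AA_z hr le_rfl (sub_zero z ▸ hz)).2
  have l0 : ∀ᵐ z, Tendsto (fun n => KK r (ee n) z) atTop (𝓝 (ll (ss r z))) :=
    ae0.mono fun z hz => (ll_d (ss_pos hr hz)).continuousAt.tendsto.comp (sst r z)
  have b0 : ∀ n, ∀ᵐ z, ‖KK r (ee n) z‖ ≤ DD r z := fun n =>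
    ae0.mono fun z hz => (dom hr (ee_pos n) hz).1
  have C1 := convC1 mg bg (DD_i hr) (fun n => (KK_c r (ee_pos n)).of_le one_le_two) sK b0 l0
    (fun n => ae0.mono fun z hz => (dom hr (ee_pos n) hz).2.1)
    (K1 := fun z => kk (ss r z) • ds r z) (ae0.mono fun z hz => by
      simp only [fun n => (KK_d r (ee_pos n) z).fderiv]
      exact ((kk_d (ss_pos hr hz)).continuousAt.tendsto.comp (sst r z)).smul_const _)
  have C2 := (cder mu bu (AA_c r 0) sA).1
  obtain ⟨i1, B1, T1⟩ := ctend mg bg (DD_i hr) (fun n => (KK_c r (ee_pos n)).continuous) b0 l0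
  obtain ⟨i2, B2, T2⟩ := ctend mu bu (DD_i hr) (K0 := AA r 0) (fun n => (AA_c r (ee n)).continuous)
    (fun n => ae0.mono fun z hz => (dom hr (ee_pos n) hz).2.2) (Eventually.of_forall fun z => by
      have : Continuous fun ε => AA r ε z := by unfold AA; fun_prop
      exact (this.tendsto 0).comp ee_t)
  have c0p := c0_pos
  refine ⟨fun p => c0⁻¹ * (3 / r ^ 2 * (∫ q, u q • AA r 0 (p - q)) -
    1 / 4 * ∫ q, g q • ll (ss r (p - q))),
    contDiff_const.mul ((contDiff_const.mul C2).sub (contDiff_const.mul C1)), fun p₀ hp₀ => ?_,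
    fun p hp => ?_⟩
  · have key : ∀ n, ∀ p ∈ ball p₀ r, ∫ z, u (p - (r * Real.sqrt (ee n)) • z) * kt (ee n) z =
        3 / r ^ 2 * (∫ q, u q • AA r (ee n) (p - q)) - 1 / 4 * ∫ q, g q • KK r (ee n) (p - q) := by
      intro n p hp
      have s1 := supp_of (r := r) (p := p) (F := fun q => KK r (ee n) (p - q)) fun z hz =>
        ll_z (by linarith [ss_one hr (norm_sub_rev z p ▸ hz), ee_pos n])
      have e := hW _ ((KK_c r (ee_pos n)).comp (contDiff_const.sub contDiff_id)) s1.2
        (s1.1.trans ((closedBall_subset_closedBall' (by linarith [mem_ball.1 hp])).trans hp₀))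
      have iP : Integrable fun z => -(ee n * kk' (ss r z + ee n)) := by
        refine Continuous.integrable_of_hasCompactSupport ?_ (supp_of (r := r) (p := 0)
          fun z hz => ?_).2
        · have := (ss_c r (n := 0)).continuous
          have h3 : ∀ z, ss r z + ee n ≠ 0 := fun z =>
            (add_pos_of_nonneg_of_pos (ss_nn r z) (ee_pos n)).ne'
          unfold kk'
          fun_prop (disch := intro z; first | exact h3 z | exact pow_ne_zero _ (h3 z))
        · simp [kk', max_eq_right (show 1 - (ss r z + ee n) ≤ 0 by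
            linarith [ss_one hr (sub_zero z ▸ hz), ee_pos n])]
      have iA : Integrable (AA r (ee n)) := (DD_i hr).mono'
        (AA_c r _).continuous.aestronglyMeasurable (ae0.mono fun z hz => (dom hr (ee_pos n) hz).2.2)
      have e2 : ∫ q, u q * (4 / r ^ 2 * (-(ee n * kk' (ss r (p - q) + ee n)) -
          3 * AA r (ee n) (p - q))) = 4 / r ^ 2 * ((∫ q, u q • -(ee n * kk' (ss r (p - q) + ee n)))
            - 3 * ∫ q, u q • AA r (ee n) (p - q)) := by
        rw [← integral_const_mul, ← integral_sub (cint mu bu iP p)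
          ((cint mu bu iA p).const_mul 3), ← integral_const_mul]
        congr 1; ext q; simp only [smul_eq_mul]; ring
      simp only [Function.comp_def, id, lap hr (ee_pos n)] at e
      rw [e2, scale hr (ee_pos n)] at e
      simp only [smul_eq_mul] at e ⊢
      field_simp at e ⊢
      linarith
    have := isOpen_ball.ae_eq_zero_of_integral_contDiff_smul_eq_zero (μ := volume)
      (U := ball p₀ r) (f := fun p => c0 * u p - (3 / r ^ 2 * (∫ q, u q • AA r 0 (p - q)) -
        1 / 4 * ∫ q, g q • ll (ss r (p - q))))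
      (((gloc mu bu).smul c0).sub ((contDiff_const.mul C2).sub
        (contDiff_const.mul C1)).continuous.locallyIntegrable |>.locallyIntegrableOn _)
      fun θ h1 h2 h3 => by
        have iθ : Integrable θ := h1.continuous.integrable_of_hasCompactSupport h2
        have t1 := limE mu bu h1.continuous h2 (τ := fun n => r * Real.sqrt (ee n))
          (by simpa using ee_t.sqrt.const_mul r)
        have t2 := tendsto_integral_of_dominated_convergence (μ := volume)
          (F := fun n p => θ p * (3 / r ^ 2 * (∫ q, u q • AA r (ee n) (p - q)) -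
            1 / 4 * ∫ q, g q • KK r (ee n) (p - q)))
          (f := fun p => θ p * (3 / r ^ 2 * (∫ q, u q • AA r 0 (p - q)) -
            1 / 4 * ∫ q, g q • ll (ss r (p - q))))
          (fun p => ‖θ p‖ * (3 / r ^ 2 * (∫ z, DD r z) + 1 / 4 * ∫ z, DD r z))
          (fun n => (h1.continuous.mul ((continuous_const.mul (cder mu bu (AA_c r _) (supp_of
            (r := r) (p := 0) fun z hz => AA_z hr (ee_pos n).le (sub_zero z ▸ hz)).2).1.continuous).sub
            (continuous_const.mul (cder mg bg ((KK_c r (ee_pos n)).of_le one_le_two)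
              (sK n)).1.continuous))).aestronglyMeasurable)
          (iθ.norm.mul_const _) (fun n => Eventually.of_forall fun p => by
            rw [norm_mul]
            refine mul_le_mul_of_nonneg_left ((norm_sub_le _ _).trans (add_le_add ?_ ?_))
              (norm_nonneg _) <;> rw [norm_mul, Real.norm_of_nonneg (by positivity)]
            · exact mul_le_mul_of_nonneg_left (B2 n p) (by positivity)
            · exact mul_le_mul_of_nonneg_left (B1 n p) (by positivity))
          (Eventually.of_forall fun p => (((T2.tendsto_at p).const_mul _).sub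
            ((T1.tendsto_at p).const_mul _)).const_mul _)
        have e := tendsto_nhds_unique t1 (t2.congr fun n => by
          congr 1; ext p
          by_cases hp : p ∈ ball p₀ r
          · rw [key n p hp]
          · simp [image_eq_zero_of_notMem_tsupport fun h => hp (h3 h)])
        have iu : Integrable fun p => θ p * u p :=
          iθ.norm.mono' (iθ.1.mul mu.aestronglyMeasurable) (Eventually.of_forall fun p => by
            rw [norm_mul]; exact mul_le_of_le_one_right (norm_nonneg _) (bu p))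
        have iR : Integrable fun p => θ p * (3 / r ^ 2 * (∫ q, u q • AA r 0 (p - q)) -
            1 / 4 * ∫ q, g q • ll (ss r (p - q))) :=
          (h1.continuous.mul ((contDiff_const.mul C2).sub (contDiff_const.mul
            C1)).continuous).integrable_of_hasCompactSupport h2.mul_right
        rw [← integral_const_mul, ← sub_eq_zero, ← integral_sub (iu.const_mul _) iR] at e
        refine Eq.trans (integral_congr_ae (Eventually.of_forall fun p => ?_)) e
        simp only [smul_eq_mul]; ring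
    filter_upwards [this] with p hp hp'
    rw [← sub_eq_zero.1 (hp hp'), inv_mul_cancel_left₀ c0p.ne']
  · have n1 : ∫ q, g q • ll (ss r (p - q)) ≤ 0 := by
      refine integral_nonpos_of_ae ?_
      filter_upwards [(countable_singleton p).ae_notMem volume] with q hq
      exact mul_nonpos_of_nonneg_of_nonpos (g0 q)
        (ll_b (ss_pos hr (sub_ne_zero.2 fun h => hq (mem_singleton_iff.2 h.symm)))).1
    have n2 : 0 ≤ fun q => u q • AA r 0 (p - q) := fun q => mul_nonneg (u0 q) (sq_nonneg _)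
    have n3 := integral_nonneg (μ := volume) n2
    have n4 : 3 / r ^ 2 * (∫ q, u q • AA r 0 (p - q)) ≤ 0 := by
      have := nonpos_of_mul_nonpos_right hp (inv_pos.2 c0p)
      linarith
    have n5 := (integral_eq_zero_iff_of_nonneg n2 (cint mu bu i2 p)).1
      (le_antisymm (nonpos_of_mul_nonpos_right n4 (by positivity)) n3)
    filter_upwards [n5] with q hq hq'
    refine (mul_eq_zero.1 hq).resolve_right (ne_of_gt ?_)
    rw [mem_ball, dist_comm, dist_eq_norm] at hq'
    have h1 := (norm_fst_le (p - q)).trans_lt hq'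
    have h2 := (norm_snd_le (p - q)).trans_lt hq'
    have h3 : ss r (p - q) < 1 := by
      rw [ss, div_lt_one (by positivity), ← sq_abs (p - q).1, ← sq_abs (p - q).2]
      rw [Real.norm_eq_abs] at h1 h2
      nlinarith [abs_nonneg (p - q).1, abs_nonneg (p - q).2]
    exact pow_pos (lt_max_of_lt_left (by linarith)) 2

end Pool.Agent.H.MP_1dc5fb_an
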