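import Pool.Agent.H.MP_1dc5fb_an.E

set_option linter.unusedSectionVars false
set_option linter.unusedVariables false
set_option linter.dupNamespace false

namespace Pool.Agent.H.MP_1dc5fb_an

open MeasureTheory Filter Topology Set Metric
open scoped ContDiff

lemma fold {X : Type*} [MeasurableSpace X] {m : Measure X} {T : ℝ} (hT : 0 < T) {x1 : X → ℝ}
    (mx : Measurable x1) (τ : ℤ → X ≃ᵐ X) (hτ : ∀ k, MeasurePreserving (τ k) m m)
    (hx : ∀ k p, x1 (τ k p) = x1 p + k * T) (N : ℕ) {F : X → ℝ}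
    (hF : ∀ p, N * T ≤ |x1 p| → F p = 0)
    (hi : ∀ k, IntegrableOn (fun p => F (τ k p)) (x1 ⁻¹' Ico 0 T) m) :
    Integrable F m ∧ ∫ p, F p ∂m =
      ∫ p in x1 ⁻¹' Ico 0 T, ∑ k ∈ Finset.Ico (-(N : ℤ)) N, F (τ k p) ∂m := by
  set S : ℤ → Set X := fun k => x1 ⁻¹' Ico (k * T) ((k + 1) * T)
  have e : ∀ k, τ k ⁻¹' S k = x1 ⁻¹' Ico 0 T := fun k => by
    ext p
    simp only [S, mem_preimage, mem_Ico, hx]
    constructor <;> rintro ⟨h1, h2⟩ <;> constructor <;> linarith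
  have mS : ∀ k, MeasurableSet (S k) := fun k => measurableSet_Ico.preimage mx
  have iS : ∀ k, IntegrableOn F (S k) m := fun k => by
    rw [← (hτ k).integrableOn_comp_preimage (τ k).measurableEmbedding, e]
    exact hi k
  have z : ∀ p, p ∉ ⋃ k ∈ Finset.Ico (-(N : ℤ)) N, S k → F p = 0 := fun p hp => by
    refine hF p (not_lt.1 fun h => hp ?_)
    rw [abs_lt] at h
    refine mem_iUnion₂.2 ⟨⌊x1 p / T⌋, Finset.mem_Ico.2 ⟨Int.le_floor.2 ?_, Int.floor_lt.2 ?_⟩,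
      (le_div_iff₀ hT).1 (Int.floor_le _), (div_lt_iff₀ hT).1 (Int.lt_floor_add_one _)⟩
    · rw [le_div_iff₀ hT]; push_cast; linarith
    · rw [div_lt_iff₀ hT]; push_cast; linarith
  refine ⟨(integrableOn_finset_iUnion.2 fun k _ => iS k).integrable_of_forall_notMem_eq_zero z, ?_⟩
  rw [← setIntegral_eq_integral_of_forall_compl_eq_zero z, integral_biUnion_finset _
    (fun k _ => mS k) ?_ (fun k _ => iS k), integral_finsetSum _ fun k _ => hi k]
  · refine Finset.sum_congr rfl fun k _ => ?_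
    rw [← (hτ k).setIntegral_preimage_emb (τ k).measurableEmbedding, e]
  · intro k _ j _ hkj
    refine disjoint_left.2 fun p h1 h2 => hkj ?_
    have a1 : (k : ℝ) < j + 1 := lt_of_mul_lt_mul_right (h1.1.trans_lt h2.2) hT.le
    have a2 : (j : ℝ) < k + 1 := lt_of_mul_lt_mul_right (h2.1.trans_lt h1.2) hT.le
    have a1 : k < j + 1 := by exact_mod_cast a1
    have a2 : j < k + 1 := by exact_mod_cast a2
    omega

def Van (ζ : ℝ × ℝ → ℝ) (M : ℝ) : Prop := ∀ p : ℝ × ℝ, (M < |p.1| ∨ M < p.2) → ζ p = 0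

lemma Van.d {ζ : ℝ × ℝ → ℝ} {M : ℝ} (h : Van ζ M) : Van (dx ζ) M ∧ Van (dy ζ) M := by
  have : ∀ p : ℝ × ℝ, (M < |p.1| ∨ M < p.2) → dx ζ p = 0 ∧ dy ζ p = 0 := fun p hp => d_zero (by
    have : IsOpen {p : ℝ × ℝ | M < |p.1| ∨ M < p.2} :=
      (isOpen_lt continuous_const continuous_fst.abs).union
        (isOpen_lt continuous_const continuous_snd)
    filter_upwards [this.mem_nhds hp] with q hq using h q hq)
  exact ⟨fun p hp => (this p hp).1, fun p hp => (this p hp).2⟩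

lemma van_of {ζ : ℝ × ℝ → ℝ} (h : HasCompactSupport ζ) : ∃ M, Van ζ M := by
  obtain ⟨M, hM⟩ := h.isCompact.isBounded.exists_norm_le
  refine ⟨M, fun p hp => image_eq_zero_of_notMem_tsupport fun h' => ?_⟩
  have := hM p h'
  rcases hp with hp | hp
  · exact absurd ((norm_fst_le p).trans this) (not_le.2 hp)
  · exact absurd ((le_abs_self _).trans ((norm_snd_le p).trans this)) (not_le.2 hp)

namespace Geo
variable (G : Geo)

noncomputable def r1 (x : ℝ) : ℝ := G.T * Int.fract (x / G.T)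
noncomputable def π (p : ℝ × ℝ) : ℝ × ℝ := (G.r1 p.1, p.2)

lemma r1_m : Measurable G.r1 := by unfold r1; fun_prop
lemma π_m : Measurable G.π := (G.r1_m.comp measurable_fst).prodMk measurable_snd

lemma r1_add {x : ℝ} (hx : x ∈ Ico 0 G.T) (k : ℤ) : G.r1 (x + k * G.T) = x := by
  have := G.hT
  rw [r1, add_div, mul_div_cancel_right₀ _ this.ne', Int.fract_add_intCast, Int.fract_eq_self.2
    ⟨div_nonneg hx.1 this.le, (div_lt_one this).2 hx.2⟩]
  field_simp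

lemma π_id {p : ℝ × ℝ} (hp : p ∈ G.C) : G.π p = p := by
  have := G.r1_add hp.1 0
  simp only [Int.cast_zero, zero_mul, add_zero] at this
  simp [π, this]

lemma per_int (k : ℤ) (x : ℝ) : G.φ (x + k * G.T) = G.φ x :=
  (show Function.Periodic G.φ G.T from G.per).int_mul k x

lemma φ_r1 (x : ℝ) : G.φ (G.r1 x) = G.φ x := by
  have := G.hT
  rw [← G.per_int ⌊x / G.T⌋, r1, Int.fract]
  congr 1; field_simp; ring

lemma inv_int (k : ℤ) : MeasurePreserving (fun x => x + k * G.T) G.σ G.σ := by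
  induction k using Int.induction_on with
  | zero => simpa [Function.id_def] using MeasurePreserving.id G.σ
  | succ k ih =>
    convert G.inv.comp ih using 1
    ext x; simp; ring
  | pred k ih =>
    convert (MeasurePreserving.symm (MeasurableEquiv.addRight G.T) G.inv).comp ih using 1
    ext x; simp; ring

def LI (P : ℝ × ℝ → ℝ) : Prop := ∀ ζ : ℝ × ℝ → ℝ, Continuous ζ →
  (∃ Y, ∀ p : ℝ × ℝ, Y < p.2 → ζ p = 0) → Integrable (fun p => P p * ζ p) G.μ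

noncomputable def sm (N : ℕ) (ζ : ℝ × ℝ → ℝ) (p : ℝ × ℝ) : ℝ :=
  ∑ k ∈ Finset.Ico (-(N : ℤ)) N, ζ (p + ((k : ℝ) * G.T, 0))

variable {G}

lemma LI.unf {P ζ : ℝ × ℝ → ℝ} (h : G.LI P) (hc : Continuous ζ) {M : ℝ} (hv : Van ζ M) {N : ℕ}
    (hN : M < N * G.T) : IntegrableOn (fun p => P (G.π p) * ζ p) G.Ω ∧
      ∫ p in G.Ω, P (G.π p) * ζ p = ∫ p, P p * G.sm N ζ p ∂G.μ := by
  have e : (volume.restrict G.Ω).restrict (Prod.fst ⁻¹' Ico 0 G.T) = G.μ := by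
    rw [Measure.restrict_restrict (measurableSet_Ico.preimage measurable_fst)]; rfl
  have e2 : ∀ k : ℤ, ∀ᵐ p ∂G.μ, G.π (p + ((k : ℝ) * G.T, 0)) = p := fun k =>
    G.aeμ.mono fun p hp => by simp [π, G.r1_add hp.1 k]
  have := fold (m := volume.restrict G.Ω) G.hT measurable_fst
    (fun k => MeasurableEquiv.addRight (((k : ℝ) * G.T, 0) : ℝ × ℝ)) (fun k => by
      have := (measurePreserving_add_right volume (((k : ℝ) * G.T, 0) : ℝ × ℝ)).restrict_preimage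
        G.isOpen.measurableSet
      rwa [show (fun x : ℝ × ℝ => x + ((k : ℝ) * G.T, 0)) ⁻¹' G.Ω = G.Ω by
        ext p; simp [Ω, per_int]] at this) (fun k p => rfl) N (F := fun p => P (G.π p) * ζ p)
    (fun p hp => by rw [hv p (Or.inl (hN.trans_le hp)), mul_zero]) (fun k => by
      rw [IntegrableOn, e]
      refine (h (fun p => ζ (p + ((k : ℝ) * G.T, 0))) (by fun_prop)
        ⟨M, fun p hp => hv _ (Or.inr (by simpa using hp))⟩).congr ?_
      filter_upwards [e2 k] with p hp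
      simp only [MeasurableEquiv.coe_addRight, hp])
  refine ⟨this.1, this.2.trans ?_⟩
  rw [e]
  refine integral_congr_ae ?_
  filter_upwards [ae_all_iff.2 e2] with p hp
  simp only [MeasurableEquiv.coe_addRight, hp, sm, Finset.mul_sum]

lemma unf1 {m : Measure ℝ} (hm : ∀ k : ℤ, MeasurePreserving (fun x => x + k * G.T) m m)
    {Q : ℝ → ℝ} (hQ : IntegrableOn Q (Ico 0 G.T) m) {ζ : ℝ × ℝ → ℝ} (hc : Continuous ζ) {M : ℝ}
    (hv : Van ζ M) {N : ℕ} (hN : M < N * G.T) :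
    Integrable (fun x => Q (G.r1 x) * ζ (G.γ x)) m ∧
      ∫ x, Q (G.r1 x) * ζ (G.γ x) ∂m = ∫ x in Ico 0 G.T, Q x * G.sm N ζ (G.γ x) ∂m := by
  have e2 : ∀ k : ℤ, ∀ᵐ x ∂m.restrict (Ico 0 G.T), G.r1 (x + k * G.T) = x := fun k =>
    (ae_restrict_mem measurableSet_Ico).mono fun p hp => G.r1_add hp k
  have := fold (m := m) G.hT measurable_id
    (fun k => MeasurableEquiv.addRight ((k : ℝ) * G.T)) hm (fun k p => rfl) N
    (F := fun x => Q (G.r1 x) * ζ (G.γ x))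
    (fun p hp => by rw [hv _ (Or.inl (hN.trans_le hp)), mul_zero]) (fun k => by
      have c1 : Continuous fun x => ζ (G.γ (x + k * G.T)) := hc.comp (G.cγ.comp (by fun_prop))
      refine (hQ.mul_continuousOn_of_subset c1.continuousOn measurableSet_Ico isCompact_Icc
        Ico_subset_Icc_self).congr ?_
      filter_upwards [e2 k] with p hp
      simp only [MeasurableEquiv.coe_addRight, hp])
  refine ⟨this.1, this.2.trans ?_⟩
  refine integral_congr_ae ?_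
  filter_upwards [ae_all_iff.2 e2] with p hp
  simp only [MeasurableEquiv.coe_addRight, hp, sm, Finset.mul_sum, γ, per_int, Prod.mk_add_mk,
    add_zero]

lemma sm_D {ζ : ℝ × ℝ → ℝ} (hc : ContDiff ℝ 1 ζ) {M : ℝ} (hv : Van ζ M) {N : ℕ}
    (hN : M < N * G.T) : G.D (G.sm N ζ) ∧ dx (G.sm N ζ) = G.sm N (dx ζ) ∧
      dy (G.sm N ζ) = G.sm N (dy ζ) := by
  have hd : ∀ p, fderiv ℝ (G.sm N ζ) p =
      ∑ k ∈ Finset.Ico (-(N : ℤ)) N, fderiv ℝ ζ (p + ((k : ℝ) * G.T, 0)) := fun p =>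
    (HasFDerivAt.fun_sum fun k _ => by
      simpa [Function.comp_def] using (hc.differentiable one_ne_zero _).hasFDerivAt.comp p
        ((hasFDerivAt_id p).add_const (((k : ℝ) * G.T, 0) : ℝ × ℝ))).fderiv
  refine ⟨⟨ContDiff.sum fun k _ => hc.comp (contDiff_id.add contDiff_const), fun y => ?_,
    M, fun p hp => Finset.sum_eq_zero fun k _ => hv _ (Or.inr (by simpa using hp))⟩,
    funext fun p => by simp [dx, sm, hd], funext fun p => by simp [dy, sm, hd]⟩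
  have hT := G.hT
  set s : ℤ → ℝ := fun k => ζ (k * G.T, y)
  have e1 : G.sm N ζ (0, y) = ∑ k ∈ Finset.Ico (-(N : ℤ)) N, s k := by simp [sm, s]
  have e2 : G.sm N ζ (G.T, y) = ∑ k ∈ Finset.Ico (-(N : ℤ)) N, s (k + 1) := by
    simp [sm, s, add_mul, add_comm]
  have z1 : s N = 0 := hv _ (Or.inl (hN.trans_le (by simp [abs_of_pos hT])))
  have z2 : s (-N) = 0 := hv _ (Or.inl (hN.trans_le (by simp [abs_of_pos hT])))
  rw [e1, e2, Finset.sum_Ico_add' s (-N) N 1,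
    Finset.sum_subset (s₂ := Finset.Icc (-(N : ℤ)) N) Finset.Ico_subset_Icc_self,
    Finset.sum_subset (s₁ := Finset.Ico (-(N : ℤ) + 1) (N + 1)) (s₂ := Finset.Icc (-(N : ℤ)) N)]
  · intro k hk; simp only [Finset.mem_Ico, Finset.mem_Icc] at *; omega
  · intro k h1 h2; simp only [Finset.mem_Ico, Finset.mem_Icc] at *
    rwa [show k = -N by omega]
  · intro k h1 h2; simp only [Finset.mem_Ico, Finset.mem_Icc] at *
    rwa [show k = N by omega]

theorem unfold {P0 P1 P2 : ℝ × ℝ → ℝ} {Q1 Q2 : ℝ → ℝ} (h0 : G.LI P0) (h1 : G.LI P1) (h2 : G.LI P2)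
    (q1 : Integrable Q1 G.ν) (q2 : Integrable Q2 G.ι) {ζ : ℝ × ℝ → ℝ} (hc : ContDiff ℝ 1 ζ) {M : ℝ}
    (hv : Van ζ M)
    (hid : ∀ Z, G.D Z → ((∀ p ∉ G.Ω, ζ p = 0 ∧ dx ζ p = 0) → ∀ p ∉ G.Ω, Z p = 0 ∧ dx Z p = 0) →
      ∫ p, (P0 p * Z p + P1 p * dx Z p + P2 p * dy Z p) ∂G.μ =
        (∫ x, Q1 x * Z (G.γ x) ∂G.ν) - ∫ x, Q2 x * Z (G.γ x) ∂G.ι) :
    (∫ p in G.Ω, P0 (G.π p) * ζ p) + (∫ p in G.Ω, P1 (G.π p) * dx ζ p) +
      (∫ p in G.Ω, P2 (G.π p) * dy ζ p) =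
      (∫ x, Q1 (G.r1 x) * ζ (G.γ x) ∂G.σ) - ∫ x, Q2 (G.r1 x) * ζ (G.γ x) := by
  obtain ⟨N, hN⟩ := exists_nat_gt (M / G.T)
  rw [div_lt_iff₀ G.hT] at hN
  obtain ⟨hD, e1, e2⟩ := sm_D hc hv hN
  obtain ⟨Y, hY⟩ := hD.dz
  rw [(h0.unf hc.continuous hv hN).2, (h1.unf (cont_dx hc) hv.d.1 hN).2,
    (h2.unf (cont_dy hc) hv.d.2 hN).2, (unf1 G.inv_int q1 hc.continuous hv hN).2,
    (unf1 (fun k => measurePreserving_add_right volume _) q2 hc.continuous hv hN).2, ← e1, ← e2]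
  have i0 := h0 _ hD.c.continuous ⟨Y, fun p hp => (hY p hp).1⟩
  have i1 := h1 _ (cont_dx hD.c) ⟨Y, fun p hp => (hY p hp).2.1⟩
  have i2 := h2 _ (cont_dy hD.c) ⟨Y, fun p hp => (hY p hp).2.2⟩
  rw [← integral_add i0 i1, ← integral_add (iadd i0 i1) i2]
  refine hid _ hD fun hz p hp => ?_
  have : ∀ k : ℤ, p + ((k : ℝ) * G.T, 0) ∉ G.Ω := fun k => by simpa [Ω, per_int] using hp
  rw [e1]
  exact ⟨Finset.sum_eq_zero fun k _ => (hz _ (this k)).1,
    Finset.sum_eq_zero fun k _ => (hz _ (this k)).2⟩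

lemma LI.of_mem {P : ℝ × ℝ → ℝ} (h : MemLp P 2 G.μ) : G.LI P := fun ζ hc ⟨Y, hY⟩ =>
  imul h (G.memμ hc hY)

lemma LI.of_int {P : ℝ × ℝ → ℝ} (h : Integrable P G.μ) : G.LI P := fun ζ hc ⟨Y, hY⟩ => by
  obtain ⟨B, hB⟩ := G.bddμ hc hY
  exact h.mul_bdd hc.aestronglyMeasurable hB

lemma LI.of_le {P : ℝ × ℝ → ℝ} (m : AEStronglyMeasurable P G.μ) {Q R : ℝ × ℝ → ℝ}
    (hQ : Integrable Q G.μ) (hR : Continuous R) (h : ∀ᵐ p ∂G.μ, |P p| ≤ R p * (Q p + 1)) :
    G.LI P := fun ζ hc ⟨Y, hY⟩ => by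
  have c1 : Continuous fun p => R p * |ζ p| := by fun_prop
  have z1 : ∀ p : ℝ × ℝ, Y < p.2 → R p * |ζ p| = 0 := fun p hp => by simp [hY p hp]
  have i1 := LI.of_int hQ _ c1 ⟨Y, z1⟩
  have c2 : Continuous fun p => Real.sqrt |R p * ζ p| := by fun_prop
  have i2 := isq (G.memμ (Y := Y) c2 fun p hp => by simp [hY p hp])
  refine (iadd i1 i2).mono' (m.mul hc.aestronglyMeasurable) ?_
  filter_upwards [h] with p hp
  rw [Real.sq_sqrt (abs_nonneg _), Real.norm_eq_abs, abs_mul, abs_mul]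
  nlinarith [mul_le_mul_of_nonneg_right hp (abs_nonneg (ζ p)),
    mul_le_mul_of_nonneg_right (le_abs_self (R p)) (abs_nonneg (ζ p))]

end Geo

end Pool.Agent.H.MP_1dc5fb_an
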