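import Pool.Agent.H.MP_1dc5fb_an.F

set_option linter.unusedSectionVars false
set_option linter.unusedVariables false
set_option linter.dupNamespace false

namespace Pool.Agent.H.MP_1dc5fb_an

open MeasureTheory Filter Topology Set Metric
open scoped ContDiff

lemma off {ψ : ℝ × ℝ → ℝ} {p : ℝ × ℝ} (h : p ∉ tsupport ψ) : ψ p = 0 ∧ dx ψ p = 0 ∧ dy ψ p = 0 :=
  ⟨image_eq_zero_of_notMem_tsupport h, d_zero (notMem_tsupport_iff_eventuallyEq.1 h)⟩

lemma ts_dx (ψ : ℝ × ℝ → ℝ) : tsupport (dx ψ) ⊆ tsupport ψ :=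
  closure_minimal (fun p hp => by by_contra h; exact hp (off h).2.1) (isClosed_tsupport ψ)

lemma ts_dy (ψ : ℝ × ℝ → ℝ) : tsupport (dy ψ) ⊆ tsupport ψ :=
  closure_minimal (fun p hp => by by_contra h; exact hp (off h).2.2) (isClosed_tsupport ψ)

lemma cs_dx {ψ : ℝ × ℝ → ℝ} (h : HasCompactSupport ψ) : HasCompactSupport (dx ψ) :=
  h.isCompact.of_isClosed_subset (isClosed_tsupport _) (ts_dx ψ)

lemma cs_dy {ψ : ℝ × ℝ → ℝ} (h : HasCompactSupport ψ) : HasCompactSupport (dy ψ) :=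
  h.isCompact.of_isClosed_subset (isClosed_tsupport _) (ts_dy ψ)

lemma ci {Ω : Set (ℝ × ℝ)} {F θ : ℝ × ℝ → ℝ} (hF : LocallyIntegrableOn F Ω) (hθ : Continuous θ)
    (hc : HasCompactSupport θ) (hs : tsupport θ ⊆ Ω) : Integrable fun p => θ p * F p :=
  ((hF.integrableOn_compact_subset hs hc.isCompact).continuousOn_mul hθ.continuousOn
    hc.isCompact).integrable_of_forall_notMem_eq_zero fun p hp => by simp [(off hp).1]

lemma ibp {Ω : Set (ℝ × ℝ)} (hΩ : IsOpen Ω) {V θ : ℝ × ℝ → ℝ} (hV : ContDiffOn ℝ 1 V Ω)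
    (hθ : ContDiff ℝ 1 θ) (hc : HasCompactSupport θ) (hs : tsupport θ ⊆ Ω) :
    LocallyIntegrableOn (dx V) Ω ∧ LocallyIntegrableOn (dy V) Ω ∧
    (∫ p, θ p * dx V p = -∫ p, dx θ p * V p) ∧ ∫ p, θ p * dy V p = -∫ p, dy θ p * V p := by
  have l0 : LocallyIntegrableOn V Ω := hV.continuousOn.locallyIntegrableOn hΩ.measurableSet
  have c := hV.continuousOn_fderiv_of_isOpen hΩ le_rfl
  have l1 : LocallyIntegrableOn (dx V) Ω :=
    (c.clm_apply continuousOn_const).locallyIntegrableOn hΩ.measurableSet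
  have l2 : LocallyIntegrableOn (dy V) Ω :=
    (c.clm_apply continuousOn_const).locallyIntegrableOn hΩ.measurableSet
  have d : ∀ x ∈ tsupport θ, DifferentiableAt ℝ V x := fun x hx =>
    (hV.contDiffAt (hΩ.mem_nhds (hs hx))).differentiableAt one_ne_zero
  exact ⟨l1, l2, integral_mul_fderiv_eq_neg_fderiv_mul_of_integrable
    (ci l0 (cont_dx hθ) (cs_dx hc) ((ts_dx θ).trans hs)) (ci l1 hθ.continuous hc hs)
    (ci l0 hθ.continuous hc hs) (fun x _ => hθ.differentiable one_ne_zero x) d,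
    integral_mul_fderiv_eq_neg_fderiv_mul_of_integrable
    (ci l0 (cont_dy hθ) (cs_dy hc) ((ts_dy θ).trans hs)) (ci l2 hθ.continuous hc hs)
    (ci l0 hθ.continuous hc hs) (fun x _ => hθ.differentiable one_ne_zero x) d⟩

lemma zint {θ : ℝ × ℝ → ℝ} (hθ : ContDiff ℝ 1 θ) (hc : HasCompactSupport θ) :
    (∫ p, dx θ p = 0) ∧ ∫ p, dy θ p = 0 := by
  obtain ⟨-, -, h1, h2⟩ := ibp isOpen_univ (V := fun _ => 1) contDiffOn_const hθ hc (subset_univ _)
  simp only [dx, dy, fderiv_fun_const, Pi.zero_apply, zero_apply, mul_zero,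
    integral_zero, mul_one] at h1 h2
  exact ⟨neg_eq_zero.1 h1.symm, neg_eq_zero.1 h2.symm⟩

namespace Geo
variable {G : Geo} {g v a b : ℝ × ℝ → ℝ} {t : ℝ → ℝ}

lemma LI.box {P : ℝ × ℝ → ℝ} (h : G.LI P) (M : ℝ) :
    IntegrableOn (fun p => P (G.π p)) (G.Ω ∩ {p | |p.1| ≤ M ∧ p.2 ≤ M}) := by
  obtain ⟨N, hN⟩ := exists_nat_gt ((M + 2) / G.T)
  rw [div_lt_iff₀ G.hT] at hN
  have c := (cut_c M (n := 0)).continuous
  have := (h.unf (ζ := fun p => cut M |p.1| * cut M p.2) (by fun_prop) (M := M + 2)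
    (fun p hp => by rcases hp with hp | hp <;> simp [cut_zero hp.le]) hN).1
  refine (this.mono_set inter_subset_left).congr_fun (fun p hp => ?_)
    (G.isOpen.measurableSet.inter (by measurability))
  simp [cut_one (show |p.1| ≤ M + 1 by linarith [hp.2.1]),
    cut_one (show p.2 ≤ M + 1 by linarith [hp.2.2])]

lemma LI.bdd {P : ℝ × ℝ → ℝ} (h : G.LI P) {K : Set (ℝ × ℝ)} (hK : K ⊆ G.Ω)
    (hb : Bornology.IsBounded K) : IntegrableOn (fun p => P (G.π p)) K := by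
  obtain ⟨M, hM⟩ := hb.exists_norm_le
  exact (h.box M).mono_set fun p hp => ⟨hK hp, (norm_fst_le p).trans (hM p hp),
    (le_abs_self _).trans ((norm_snd_le p).trans (hM p hp))⟩

lemma LI.loc {P : ℝ × ℝ → ℝ} (h : G.LI P) : LocallyIntegrableOn (fun p => P (G.π p)) G.Ω :=
  (locallyIntegrableOn_iff G.isOpen.isLocallyClosed).2 fun K hK hc => h.bdd hK hc.isBounded

lemma LI.zero : G.LI fun _ => 0 := LI.of_int (integrable_zero _ _ _)

lemma WS.uW (h : G.WS g v a b t) {ζ : ℝ × ℝ → ℝ} (hc : ContDiff ℝ 1 ζ) {M : ℝ} (hv : Van ζ M) :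
    (∫ p in G.Ω, g (G.π p) * ζ p) + (∫ p in G.Ω, a (G.π p) * dx ζ p) +
      (∫ p in G.Ω, b (G.π p) * dy ζ p) = ∫ x, (1 - t (G.r1 x)) * ζ (G.γ x) ∂G.σ := by
  have := unfold (Q1 := fun x => 1 - t x) (Q2 := fun _ => 0) (LI.of_mem h.mg) (LI.of_mem h.V.m1)
    (LI.of_mem h.V.m2) ((integrable_const 1).sub (h.V.m3.integrable one_le_two))
    (integrable_zero _ _ _) hc hv fun Z hZ _ => by
      rw [integral_add (iadd (imul h.mg hZ.m0) (imul h.V.m1 hZ.m1)) (imul h.V.m2 hZ.m2),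
        integral_add (imul h.mg hZ.m0) (imul h.V.m1 hZ.m1), ← h.eq _ _ _ _ hZ.inV]
      simp only [zero_mul, integral_zero]; ring
  simpa using this

instance : IsFiniteMeasure G.ι := ⟨by rw [ι, Measure.restrict_apply_univ]; exact measure_Ico_lt_top⟩

lemma InV.uY (h : G.InV v a b t) {ζ : ℝ × ℝ → ℝ} (hc : ContDiff ℝ 1 ζ) {M : ℝ} (hv : Van ζ M) :
    (∫ p in G.Ω, b (G.π p) * ζ p) + (∫ p in G.Ω, v (G.π p) * dy ζ p) =
      -∫ x, t (G.r1 x) * ζ (G.γ x) := by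
  have := unfold (Q1 := fun x => 0) (LI.of_mem h.m2) LI.zero (LI.of_mem h.m0)
    (integrable_zero _ _ _) ((memι h.m3).integrable one_le_two) hc hv fun Z hZ _ => by
      simpa using h.Iy hZ
  simpa using this

lemma InV.uX (h : G.InV v a b t) {ζ : ℝ × ℝ → ℝ} (hc : ContDiff ℝ 1 ζ) {M : ℝ} (hv : Van ζ M)
    (hz : ∀ p ∉ G.Ω, ζ p = 0 ∧ dx ζ p = 0) :
    (∫ p in G.Ω, a (G.π p) * ζ p) + (∫ p in G.Ω, v (G.π p) * dx ζ p) = 0 := by
  have := unfold (Q1 := fun x => 0) (Q2 := fun x => 0) (LI.of_mem h.m1) (LI.of_mem h.m0) LI.zero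
    (integrable_zero _ _ _) (integrable_zero _ _ _) hc hv fun Z hZ hz' => by
      simpa using h.Ix hZ (hz' hz)
  simpa using this

lemma γ_not (x : ℝ) : G.γ x ∉ G.Ω := lt_irrefl (G.φ x)

lemma InV.ibp (h : G.InV v a b t) {θ : ℝ × ℝ → ℝ} (hθ : ContDiff ℝ 1 θ) (hc : HasCompactSupport θ)
    (hs : tsupport θ ⊆ G.Ω) : (∫ p, θ p * a (G.π p) = -∫ p, dx θ p * v (G.π p)) ∧
      ∫ p, θ p * b (G.π p) = -∫ p, dy θ p * v (G.π p) := by
  obtain ⟨M, hM⟩ := van_of hc
  have o : ∀ p ∉ G.Ω, θ p = 0 ∧ dx θ p = 0 ∧ dy θ p = 0 := fun p hp => off fun h' => hp (hs h')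
  have e1 := h.uX hθ hM fun p hp => ⟨(o p hp).1, (o p hp).2.1⟩
  have e2 := h.uY hθ hM
  simp only [(o _ (γ_not _)).1, mul_zero, integral_zero, neg_zero] at e2
  rw [setIntegral_eq_integral_of_forall_compl_eq_zero fun p hp => by simp [o p hp],
    setIntegral_eq_integral_of_forall_compl_eq_zero fun p hp => by simp [o p hp]] at e1 e2
  simp only [mul_comm _ (a _), mul_comm _ (b _), mul_comm _ (v _)]
  constructor <;> linarith

variable (G) in
structure CW (g v a b : ℝ × ℝ → ℝ) (t : ℝ → ℝ) : Prop extends G.WS g v a b t where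
  g1 : Measurable g
  g2 : ∀ p, 0 ≤ g p ∧ g p ≤ 1
  v1 : Measurable v
  v2 : ∀ p, 0 ≤ v p ∧ v p ≤ 1
  t1 : Measurable t
  t2 : ∀ p, 0 ≤ t p ∧ t p ≤ 1

lemma pconn : IsPreconnected G.Ω := by
  have := (isPreconnected_univ.prod (isPreconnected_Ioi (a := (0 : ℝ)))).image
    (fun q : ℝ × ℝ => (q.1, G.φ q.1 + q.2)) (Continuous.continuousOn (by
      have := G.cont; fun_prop))
  convert this
  ext p
  refine ⟨fun hp => ⟨(p.1, p.2 - G.φ p.1), ⟨trivial, sub_pos.2 (show G.φ p.1 < p.2 from hp)⟩, by simp⟩, ?_⟩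
  rintro ⟨q, hq, rfl⟩
  exact lt_add_of_pos_right (G.φ q.1) (mem_Ioi.1 hq.2)

lemma aeC {P : ℝ × ℝ → Prop} (h : ∀ᵐ p, p ∈ G.Ω → P p) : ∀ᵐ p ∂G.μ, P p ∧ G.π p = p := by
  filter_upwards [ae_restrict_of_ae h, G.aeμ] with p h1 h2 using ⟨h1 h2.2, G.π_id h2⟩

theorem CW.interior (h : G.CW g v a b t) : ∃ V : ℝ × ℝ → ℝ, ContDiffOn ℝ 1 V G.Ω ∧
    (∀ᵐ p, p ∈ G.Ω → V p = v (G.π p) ∧ dx V p = a (G.π p) ∧ dy V p = b (G.π p)) ∧
    ∀ p ∈ G.Ω, 0 ≤ V p ∧ V p < 1 := by
  have hO := G.isOpen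
  have mv := h.v1.comp G.π_m
  have ex : ∀ r : ℝ, ∃ R : ℝ × ℝ → ℝ, 0 < r → ContDiff ℝ 1 R ∧
      (∀ p₀, closedBall p₀ (2 * r) ⊆ G.Ω → ∀ᵐ p, p ∈ ball p₀ r → 1 - v (G.π p) = R p) ∧
      ∀ p, R p ≤ 0 → ∀ᵐ q, q ∈ ball p (r / 2) → 1 - v (G.π q) = 0 := fun r => by
    by_cases hr : 0 < r
    swap
    · exact ⟨0, fun h => absurd h hr⟩
    obtain ⟨R, hR⟩ := reg0 (Ω := G.Ω) (u := fun p => 1 - v (G.π p)) (g := fun p => g (G.π p))
      (measurable_const.sub mv) (fun p => abs_le.2 ⟨by linarith [h.v2 (G.π p)],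
        by linarith [h.v2 (G.π p)]⟩) (h.g1.comp G.π_m)
      (fun p => abs_le.2 ⟨by linarith [h.g2 (G.π p)], (h.g2 _).2⟩)
      (fun p => sub_nonneg.2 (h.v2 _).2) (fun p => (h.g2 _).1) (fun ψ h1 h2 h3 => by
        have c1 : ContDiff ℝ 1 (dx ψ) := (h1.fderiv_right (m := 1) le_rfl).clm_apply contDiff_const
        have c2 : ContDiff ℝ 1 (dy ψ) := (h1.fderiv_right (m := 1) le_rfl).clm_apply contDiff_const
        obtain ⟨M, hM⟩ := van_of h2
        have o : ∀ p ∉ G.Ω, ψ p = 0 ∧ dx ψ p = 0 ∧ dy ψ p = 0 := fun p hp =>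
          off fun h' => hp (h3 h')
        have e0 := h.uW (h1.of_le one_le_two) hM
        simp only [(o _ (γ_not _)).1, mul_zero, integral_zero] at e0
        rw [setIntegral_eq_integral_of_forall_compl_eq_zero fun p hp => by simp [o p hp],
          setIntegral_eq_integral_of_forall_compl_eq_zero fun p hp => by simp [o p hp],
          setIntegral_eq_integral_of_forall_compl_eq_zero fun p hp => by simp [o p hp]] at e0
        have e1 := (h.V.ibp c1 (cs_dx h2) ((ts_dx ψ).trans h3)).1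
        have e2 := (h.V.ibp c2 (cs_dy h2) ((ts_dy ψ).trans h3)).2
        have z1 := (zint c1 (cs_dx h2)).1
        have z2 := (zint c2 (cs_dy h2)).2
        have lv := (LI.of_mem h.V.m0).loc
        have i1 := ci lv (cont_dx c1) (cs_dx (cs_dx h2)) ((ts_dx _).trans ((ts_dx ψ).trans h3))
        have i2 := ci lv (cont_dy c2) (cs_dy (cs_dy h2)) ((ts_dy _).trans ((ts_dy ψ).trans h3))
        have j1 := (cont_dx c1).integrable_of_hasCompactSupport (μ := volume) (cs_dx (cs_dx h2))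
        have j2 := (cont_dy c2).integrable_of_hasCompactSupport (μ := volume) (cs_dy (cs_dy h2))
        have e : ∫ q, (1 - v (G.π q)) * (dx (dx ψ) q + dy (dy ψ) q) = ∫ q, ((dx (dx ψ) q +
            dy (dy ψ) q) - (dx (dx ψ) q * v (G.π q) + dy (dy ψ) q * v (G.π q))) := by
          congr 1; ext q; ring
        rw [e, integral_sub (iadd j1 j2) (iadd i1 i2), integral_add j1 j2, integral_add i1 i2]
        simp only [mul_comm _ (a _), mul_comm _ (b _)] at e1 e2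
        linarith) hr
    exact ⟨R, fun _ => hR⟩
  choose R hR using ex
  have ex2 : ∀ p : ℝ × ℝ, ∃ r : ℝ, p ∈ G.Ω → 0 < r ∧ closedBall p (2 * r) ⊆ G.Ω := fun p => by
    by_cases hp : p ∈ G.Ω
    · obtain ⟨ε, h1, h2⟩ := nhds_basis_closedBall.mem_iff.1 (hO.mem_nhds hp)
      exact ⟨ε / 2, fun _ => ⟨by linarith, by rwa [show 2 * (ε / 2) = ε by ring]⟩⟩
    · exact ⟨0, fun h => absurd h hp⟩
  choose ρ hρ using ex2
  have sub : ∀ p ∈ G.Ω, ball p (ρ p) ⊆ G.Ω := fun p hp => (ball_subset_closedBall.trans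
    (closedBall_subset_closedBall (by linarith [(hρ p hp).1]))).trans (hρ p hp).2
  have aeR : ∀ p ∈ G.Ω, ∀ᵐ q, q ∈ ball p (ρ p) → 1 - v (G.π q) = R (ρ p) q := fun p hp =>
    (hR _ (hρ p hp).1).2.1 p (hρ p hp).2
  have cR : ∀ p ∈ G.Ω, ContDiff ℝ 1 (R (ρ p)) := fun p hp => (hR _ (hρ p hp).1).1
  set V : ℝ × ℝ → ℝ := fun p => 1 - R (ρ p) p with hV
  have loc : ∀ p ∈ G.Ω, ∀ q ∈ ball p (ρ p), V q = 1 - R (ρ p) q := fun p hp q hq => by
    have hq' := sub p hp hq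
    have := Measure.eqOn_open_of_ae_eq (μ := volume) (U := ball p (ρ p) ∩ ball q (ρ q))
      (f := R (ρ q)) (g := R (ρ p)) ((ae_restrict_iff' (measurableSet_ball.inter
        measurableSet_ball)).2 (by
        filter_upwards [aeR p hp, aeR q hq'] with z h1 h2 hz
        rw [← h1 hz.1, ← h2 hz.2])) (isOpen_ball.inter isOpen_ball)
      (cR q hq').continuous.continuousOn (cR p hp).continuous.continuousOn
      ⟨hq, mem_ball_self (hρ q hq').1⟩
    simp only [hV, this]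
  have cV : ContDiffOn ℝ 1 V G.Ω := fun p hp =>
    ((contDiff_const.sub (cR p hp)).contDiffAt.congr_of_eventuallyEq
      (mem_of_superset (ball_mem_nhds p (hρ p hp).1) (loc p hp))).contDiffWithinAt
  have aeV : ∀ᵐ p, p ∈ G.Ω → V p = v (G.π p) := by
    rw [ae_iff]
    refine measure_null_of_locally_null _ fun p hp => ?_
    have hp' : p ∈ G.Ω := by by_contra h'; exact hp fun h => absurd h h'
    refine ⟨_, inter_mem self_mem_nhdsWithin (mem_nhdsWithin_of_mem_nhds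
      (ball_mem_nhds p (hρ p hp').1)), measure_mono_null (fun q hq => ?_) (ae_iff.1 (aeR p hp'))⟩
    intro h'
    exact hq.1 fun _ => by rw [loc p hp' q hq.2, ← h' hq.2]; ring
  have eI : ∀ θ : ℝ × ℝ → ℝ, tsupport θ ⊆ G.Ω → ∫ p, θ p * V p = ∫ p, θ p * v (G.π p) :=
    fun θ hs => integral_congr_ae (aeV.mono fun p hp => by
      by_cases h' : p ∈ G.Ω
      · simp only [hp h']
      · simp [(off fun h2 => h' (hs h2)).1])
  have l := ibp hO cV (θ := fun _ => 0) contDiff_const HasCompactSupport.zero (by simp)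
  have a1 := hO.ae_eq_zero_of_integral_contDiff_smul_eq_zero (μ := volume)
    (f := fun p => dx V p - a (G.π p)) (l.1.sub (LI.of_mem h.V.m1).loc) fun θ h1 h2 h3 => by
      have h1' : ContDiff ℝ 1 θ := h1.of_le (by simp)
      simp only [smul_eq_mul, mul_sub]
      rw [integral_sub (ci l.1 h1.continuous h2 h3) (ci (LI.of_mem h.V.m1).loc h1.continuous h2 h3),
        (ibp hO cV h1' h2 h3).2.2.1, (h.V.ibp h1' h2 h3).1, eI _ ((ts_dx θ).trans h3), sub_self]
  have a2 := hO.ae_eq_zero_of_integral_contDiff_smul_eq_zero (μ := volume)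
    (f := fun p => dy V p - b (G.π p)) (l.2.1.sub (LI.of_mem h.V.m2).loc) fun θ h1 h2 h3 => by
      have h1' : ContDiff ℝ 1 θ := h1.of_le (by simp)
      simp only [smul_eq_mul, mul_sub]
      rw [integral_sub (ci l.2.1 h1.continuous h2 h3)
        (ci (LI.of_mem h.V.m2).loc h1.continuous h2 h3),
        (ibp hO cV h1' h2 h3).2.2.2, (h.V.ibp h1' h2 h3).2, eI _ ((ts_dy θ).trans h3), sub_self]
  have bd : EqOn V (fun p => cl (V p)) G.Ω := Measure.eqOn_open_of_ae_eq (μ := volume)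
    ((ae_restrict_iff' hO.measurableSet).2 (aeV.mono fun p hp hp' => by
      simp only [hp hp', cl_eq (h.v2 _).1 (h.v2 _).2])) hO cV.continuousOn
    (cl_c.comp_continuousOn cV.continuousOn)
  refine ⟨V, cV, ?_, fun p hp => ⟨by rw [bd hp]; exact (cl_mem _).1,
    lt_of_le_of_ne (by rw [bd hp]; exact (cl_mem _).2.1) fun h1 => ?_⟩⟩
  · filter_upwards [aeV, a1, a2] with p h0 h1 h2 hp
    exact ⟨h0 hp, sub_eq_zero.1 (h1 hp), sub_eq_zero.1 (h2 hp)⟩
  have key : ∀ q ∈ G.Ω, V q = 1 → ∀ᶠ z in 𝓝 q, V z = 1 := fun q hq h1 => by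
    have r0 := (hρ q hq).1
    have hs : ball q (ρ q / 2) ⊆ G.Ω := (ball_subset_ball (by linarith)).trans (sub q hq)
    have := Measure.eqOn_open_of_ae_eq (μ := volume) (U := ball q (ρ q / 2)) (f := V)
      (g := fun _ => 1) ((ae_restrict_iff' measurableSet_ball).2 (by
        filter_upwards [(hR _ r0).2.2 q (by simp only [hV] at h1; linarith), aeV] with z h2 h3 hz
        rw [h3 (hs hz)]; linarith [h2 hz])) isOpen_ball (cV.continuousOn.mono hs) continuousOn_const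
    exact mem_of_superset (ball_mem_nhds q (by linarith)) this
  have all := pconn.subset_of_closure_inter_subset (isOpen_setOfPred_eventually_nhds
    (p := fun z => V z = 1)) ⟨p, hp, key p hp h1⟩ fun q hq => key q hq.2 (by
      have c := cV.continuousOn.continuousAt (hO.mem_nhds hq.2)
      by_contra h2
      obtain ⟨z, h3, h4⟩ := mem_closure_iff_nhds.1 hq.1 _ (c.eventually_ne h2)
      exact h3 h4.self_of_nhds)
  have m1 : MemLp (fun _ => (1 : ℝ)) 2 G.μ := h.V.m0.ae_eq (by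
    filter_upwards [aeC aeV, G.aeμ] with q h2 h3
    rw [← h2.2, ← h2.1]; exact (all h3.2).self_of_nhds)
  rcases (memLp_const_iff two_ne_zero ENNReal.ofNat_ne_top).1 m1 with h2 | h2
  · exact one_ne_zero h2
  · rw [μ, Measure.restrict_apply_univ] at h2
    have : volume (Ico 0 G.T ×ˢ Ioi (0 : ℝ)) ≤ volume G.C :=
      measure_mono fun q hq => ⟨hq.1, (G.hi _).trans_lt hq.2⟩
    rw [Measure.volume_eq_prod, Measure.prod_prod, Real.volume_Ioi, Real.volume_Ico,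
      ENNReal.mul_top (by simpa using G.hT), ← Measure.volume_eq_prod] at this
    exact (this.trans_lt h2).false

end Geo

end Pool.Agent.H.MP_1dc5fb_an
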