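import Pool.Agent.H.MP_1dc5fb_an.G

set_option linter.unusedSectionVars false
set_option linter.unusedVariables false
set_option linter.dupNamespace false

namespace Pool.Agent.H.MP_1dc5fb_an

open MeasureTheory Filter Topology Set Metric
open scoped ContDiff

lemma dx_m (V : ℝ × ℝ → ℝ) : Measurable (dx V) := measurable_fderiv_apply_const ℝ V _
lemma dy_m (V : ℝ × ℝ → ℝ) : Measurable (dy V) := measurable_fderiv_apply_const ℝ V _

lemma seg {f f' : ℝ → ℝ} {p q : ℝ} (hpq : p ≤ q) (hc : ContinuousOn f (Icc p q))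
    (hd : ∀ x ∈ Ioo p q, HasDerivAt f (f' x) x) (hm : Measurable f')
    (hi : IntegrableOn (fun x => f' x ^ 2) (Ioc p q)) :
    (f q - f p) ^ 2 ≤ (q - p) * ∫ x in Ioc p q, f' x ^ 2 := by
  have h1 : MemLp f' 2 (volume.restrict (Ioc p q)) :=
    (memLp_two_iff_integrable_sq hm.aestronglyMeasurable).2 hi
  have h2 := cs h1 (memLp_const (1 : ℝ))
  have h3 := intervalIntegral.integral_eq_sub_of_hasDerivAt_of_le hpq hc hd
    ((intervalIntegrable_iff_integrableOn_Ioc_of_le hpq).2 (h1.integrable one_le_two))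
  rw [intervalIntegral.integral_of_le hpq] at h3
  simp only [mul_one, one_pow, h3, integral_const, smul_eq_mul, MeasurableSet.univ,
    measureReal_restrict_apply, univ_inter, Real.volume_real_Ioc_of_le hpq] at h2
  linarith

lemma pig {F : Set ℝ} (mF : MeasurableSet F) (h0 : 0 < volume.real F) {f : ℝ → ℝ}
    (hi : IntegrableOn f F) {P : ℝ → Prop} (hP : ∀ᵐ x ∂volume.restrict F, P x) :
    ∃ x ∈ F, P x ∧ volume.real F * f x ≤ ∫ x in F, f x := by
  have hf : volume F ≠ ⊤ := fun h => by simp [Measure.real, h] at h0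
  have : IsFiniteMeasure (volume.restrict F) := ⟨by simpa using hf.lt_top⟩
  obtain ⟨x, h1, h2⟩ := exists_notMem_null_le_average (μ := volume.restrict F)
    (fun h => by simp [Measure.real, Measure.restrict_eq_zero.1 h] at h0) hi
    (ae_iff.1 (hP.and (ae_restrict_mem mF)))
  have h1 := not_not.1 h1
  rw [setAverage_eq, smul_eq_mul, ← div_eq_inv_mul, le_div_iff₀' h0] at h2
  exact ⟨x, h1.2, h1.1, h2⟩

lemma rowp {Ω : Set (ℝ × ℝ)} (hΩ : IsOpen Ω) {V : ℝ × ℝ → ℝ} (hV : ContDiffOn ℝ 1 V Ω)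
    {p q y1 y2 : ℝ} (hs : Icc p q ×ˢ Ioo y1 y2 ⊆ Ω) (hy : y1 < y2)
    (hi : IntegrableOn (fun z => dx V z ^ 2) (Ioc p q ×ˢ Ioo y1 y2)) :
    ∃ y ∈ Ioo y1 y2, ∀ x ∈ Icc p q, ∀ x' ∈ Icc p q, (y2 - y1) * (V (x', y) - V (x, y)) ^ 2 ≤
      (q - p) * ∫ z in Ioc p q ×ˢ Ioo y1 y2, dx V z ^ 2 := by
  rw [IntegrableOn, Measure.volume_eq_prod, ← Measure.prod_restrict] at hi
  rw [Measure.volume_eq_prod, ← Measure.prod_restrict, integral_prod_symm _ hi]
  obtain ⟨y, h1, h2, h3⟩ := pig measurableSet_Ioo (by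
    rw [Real.volume_real_Ioo_of_le hy.le]; linarith) hi.integral_prod_right hi.prod_left_ae
  rw [Real.volume_real_Ioo_of_le hy.le] at h3
  have key : ∀ x ∈ Icc p q, ∀ x' ∈ Icc p q, x ≤ x' → (V (x', y) - V (x, y)) ^ 2 ≤
      (q - p) * ∫ x in Ioc p q, dx V (x, y) ^ 2 := fun x hx x' hx' h => by
    have d : ∀ s ∈ Icc x x', HasDerivAt (fun s => V (s, y)) (dx V (s, y)) s := fun s hs' =>
      hd_x (p := (s, y)) ((hV.contDiffAt (hΩ.mem_nhds (hs ⟨⟨hx.1.trans hs'.1, hs'.2.trans hx'.2⟩,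
        h1⟩))).differentiableAt one_ne_zero)
    have sub := Ioc_subset_Ioc hx.1 hx'.2
    refine (seg h (fun s hs => (d s hs).continuousAt.continuousWithinAt)
      (fun s hs => d s (Ioo_subset_Icc_self hs)) ((dx_m V).comp (by fun_prop))
      (IntegrableOn.mono_set h2 sub)).trans (mul_le_mul (by linarith [hx.1, hx'.2])
      (setIntegral_mono_set h2 (Eventually.of_forall fun _ => sq_nonneg _) sub.eventuallyLE)
      (integral_nonneg fun _ => sq_nonneg _) (by linarith [hx.1, hx.2]))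
  refine ⟨y, h1, fun x hx x' hx' => le_trans ?_
    (mul_le_mul_of_nonneg_left h3 (by linarith [hx.1, hx.2]))⟩
  rw [mul_left_comm]
  refine mul_le_mul_of_nonneg_left ?_ (by linarith)
  rcases le_total x x' with h | h
  · exact key x hx x' hx' h
  · rw [← neg_sub, neg_sq]; exact key x' hx' x hx h

lemma Geo.colp (G : Geo) {V : ℝ × ℝ → ℝ} (hV : ContDiffOn ℝ 1 V G.Ω) {F : Set ℝ}
    (mF : MeasurableSet F) (h0 : 0 < volume.real F) {Y : ℝ}
    (hi : IntegrableOn (fun z => dy V z ^ 2) (G.R F ∩ {z | z.2 ≤ Y})) {q : ℝ → ℝ}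
    (iq : IntegrableOn q F) (q0 : ∀ x, 0 ≤ q x) {P : ℝ → Prop} (hP : ∀ᵐ x ∂volume.restrict F, P x)
    {κ : ℝ} (hκ : (∫ z in G.R F ∩ {z | z.2 ≤ Y}, dy V z ^ 2) + ∫ x in F, q x ≤ κ) :
    ∃ x ∈ F, P x ∧ volume.real F * q x ≤ κ ∧ ∀ y y', G.φ x ≤ y → y ≤ y' → y' ≤ Y →
      ContinuousOn (fun s => V (x, s)) (Icc y y') →
      volume.real F * (V (x, y') - V (x, y)) ^ 2 ≤ (y' - y) * κ := by
  have mY : MeasurableSet {z : ℝ × ℝ | z.2 ≤ Y} := measurableSet_le measurable_snd measurable_const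
  set E := {z : ℝ × ℝ | z.2 ≤ Y}.indicator fun z => dy V z ^ 2
  have iE : IntegrableOn E (G.R F) := by
    rw [IntegrableOn, integrable_indicator_iff mY, IntegrableOn, Measure.restrict_restrict mY,
      inter_comm]; exact hi
  have E0 : ∀ z, 0 ≤ E z := fun z => indicator_nonneg (fun _ _ => sq_nonneg _) z
  obtain ⟨e1, e2, e3⟩ := G.fub mF iE
  rw [setIntegral_indicator mY] at e1
  obtain ⟨x, h1, h2, h3⟩ := pig mF h0 (iadd e3 iq) (hP.and e2)
  rw [integral_add e3 iq, ← e1] at h3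
  have p1 : 0 ≤ ∫ y in Ioi (G.φ x), E (x, y) := integral_nonneg fun _ => E0 _
  have p2 := mul_nonneg h0.le p1
  have p3 := mul_nonneg h0.le (q0 x)
  refine ⟨x, h1, h2.1, by linarith, fun y y' a1 a2 a3 a4 => ?_⟩
  have sub : Ioc y y' ⊆ Ioi (G.φ x) := fun s hs => a1.trans_lt hs.1
  have eq : EqOn (fun s => E (x, s)) (fun s => dy V (x, s) ^ 2) (Ioc y y') := fun s hs =>
    indicator_of_mem (show (x, s) ∈ {z : ℝ × ℝ | z.2 ≤ Y} from hs.2.trans a3) _
  have := seg a2 a4 (fun s hs => hd_y (p := (x, s)) ((hV.contDiffAt (G.isOpen.mem_nhds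
    (a1.trans_lt hs.1 : G.φ x < s))).differentiableAt one_ne_zero)) ((dy_m V).comp (by fun_prop))
    ((h2.2.mono_set sub).congr_fun eq measurableSet_Ioc)
  rw [← setIntegral_congr_fun measurableSet_Ioc eq] at this
  have h4 := setIntegral_mono_set h2.2 (Eventually.of_forall fun _ => E0 _) sub.eventuallyLE
  have h5 := mul_le_mul_of_nonneg_left (this.trans (mul_le_mul_of_nonneg_left h4
    (sub_nonneg.2 a2))) h0.le
  have h6 : volume.real F * ∫ y in Ioi (G.φ x), E (x, y) ≤ κ := by linarith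
  nlinarith [mul_le_mul_of_nonneg_left h6 (sub_nonneg.2 a2)]

noncomputable def st (s : ℝ) : ℝ := 1 - max (1 - max s 0 ^ 2) 0 ^ 2
noncomputable def st' (s : ℝ) : ℝ := 4 * max (1 - max s 0 ^ 2) 0 * max s 0

lemma st_d (s : ℝ) : HasDerivAt st (st' s) s := by
  refine (((ppow2 _).comp s ((ppow2 s).const_sub 1)).const_sub 1).congr_deriv ?_
  simp only [st']; ring

lemma st'_c : Continuous st' := by unfold st'; fun_prop
lemma st_c : ContDiff ℝ 1 st := c1_of st_d st'_c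

lemma st_0 {s : ℝ} (h : s ≤ 0) : st s = 0 ∧ st' s = 0 := by simp [st, st', max_eq_right h]

lemma st_1 {s : ℝ} (h : 1 ≤ s) : st s = 1 ∧ st' s = 0 := by
  have : max (1 - max s 0 ^ 2) 0 = 0 := max_eq_right (by
    rw [max_eq_left (by linarith)]; nlinarith)
  simp [st, st', this]

lemma st_b (s : ℝ) : 0 ≤ st s ∧ st s ≤ 1 ∧ |st' s| ≤ 4 := by
  have h1 : max (1 - max s 0 ^ 2) 0 ≤ 1 := max_le (by nlinarith [sq_nonneg (max s 0)]) zero_le_one
  have h2 := le_max_right (1 - max s 0 ^ 2) 0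
  refine ⟨sub_nonneg.2 (pow_le_one₀ h2 h1), sub_le_self _ (sq_nonneg _), ?_⟩
  rcases le_total 1 s with h | h
  · simp [(st_1 h).2]
  · have h3 : max s 0 ≤ 1 := max_le h zero_le_one
    rw [abs_of_nonneg (by unfold st'; positivity), st']
    nlinarith [mul_le_mul h1 h3 (le_max_right s 0) zero_le_one]

lemma tube {Ω : Set (ℝ × ℝ)} (hΩ : IsOpen Ω) {z : ℝ × ℝ → ℝ} (hz : ContinuousOn z Ω) {p q y : ℝ}
    (h : ∀ x ∈ Icc p q, (x, y) ∈ Ω ∧ z (x, y) < 0) : ∃ ξ ξ' : ℝ → ℝ, ∃ Y, Y ≤ y + 1 ∧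
      (∀ s, HasDerivAt ξ (ξ' s) s) ∧ Continuous ξ' ∧ (∀ s, 0 ≤ ξ s) ∧ (∀ s ≤ y, ξ s = 1 ∧ ξ' s = 0) ∧
      (∀ s, Y ≤ s → ξ s = 0 ∧ ξ' s = 0) ∧ ∀ x ∈ Icc p q, ∀ s ∈ Icc y Y, z (x, s) ≤ 0 := by
  have := (isCompact_Icc (a := p) (b := q)).eventually_forall_of_forall_eventually (x₀ := y)
    (P := fun s x => z (x, s) < 0) fun x hx =>
      (continuous_swap.tendsto (y, x)).eventually
        ((hz.continuousAt (hΩ.mem_nhds (h x hx).1)).eventually_lt continuousAt_const (h x hx).2)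
  obtain ⟨ε, h1, h2⟩ := nhds_basis_closedBall.mem_iff.1 this
  have h3 : 0 < min ε 1 := lt_min h1 one_pos
  refine ⟨fun s => st ((y + min ε 1 - s) / min ε 1),
    fun s => st' ((y + min ε 1 - s) / min ε 1) * (-1 / min ε 1), y + min ε 1,
    by linarith [min_le_right ε 1], fun s => (st_d _).comp s
      (((hasDerivAt_id s).const_sub _).div_const _), by have := st'_c; fun_prop,
    fun s => (st_b _).1, fun s hs => ?_, fun s hs => ?_, fun x hx s hs => (h2 ?_ x hx).le⟩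
  · simp [st_1 ((one_le_div h3).2 (show min ε 1 ≤ y + min ε 1 - s by linarith))]
  · simp [st_0 (div_nonpos_of_nonpos_of_nonneg (sub_nonpos.2 hs) h3.le)]
  · rw [mem_closedBall, Real.dist_eq, abs_le]
    constructor <;> linarith [hs.1, hs.2, min_le_left ε 1]

lemma leb {f : ℝ → ℝ} (hf : Integrable f) (f0 : ∀ x, 0 ≤ f x) {x1 x2 p q : ℝ}
    (h1 : HasDerivAt (fun x => ∫ s in (0 : ℝ)..x, f s) 0 x1)
    (h2 : HasDerivAt (fun x => ∫ s in (0 : ℝ)..x, f s) 0 x2) (hp : x1 < p) (hq : q < x2)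
    (hpq : p ≤ q) {ε : ℝ} (hε : 0 < ε) : ∃ η η' : ℝ → ℝ, (∀ s, HasDerivAt η (η' s) s) ∧
      Continuous η' ∧ (∀ s, 0 ≤ η s) ∧ (∀ s ∈ Icc p q, η s = 1) ∧
      (∀ s ∉ Icc x1 x2, η s = 0 ∧ η' s = 0) ∧ ∫ s, |η' s| * f s ≤ ε := by
  have a1 := h1.tendsto_slope_zero_right.eventually (gt_mem_nhds (show 0 < ε / 8 by linarith))
  have a2 := (tendsto_neg_nhdsGT_neg (a := (0 : ℝ))).eventually (by
    simpa using h2.tendsto_slope_zero_left.eventually (gt_mem_nhds (show 0 < ε / 8 by linarith)))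
  rw [neg_zero] at a2
  have a3 : ∀ᶠ τ in 𝓝[>] (0 : ℝ), τ < p - x1 := nhdsWithin_le_nhds (gt_mem_nhds (sub_pos.2 hp))
  have a4 : ∀ᶠ τ in 𝓝[>] (0 : ℝ), τ < x2 - q := nhdsWithin_le_nhds (gt_mem_nhds (sub_pos.2 hq))
  have a5 : ∀ᶠ τ in 𝓝[>] (0 : ℝ), 0 < τ := self_mem_nhdsWithin
  obtain ⟨τ, b1, b2, b3, b4, τ0⟩ := (a1.and (a2.and (a3.and (a4.and a5)))).exists
  have ii := fun a b => hf.intervalIntegrable (a := a) (b := b)
  rw [intervalIntegral.integral_interval_sub_left (ii _ _) (ii _ _)] at b1 b2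
  rw [intervalIntegral.integral_of_le (by linarith), smul_eq_mul] at b1
  rw [intervalIntegral.integral_of_ge (by linarith)] at b2
  refine ⟨fun s => st ((s - x1) / τ) * st ((x2 - s) / τ), fun s =>
    st' ((s - x1) / τ) * (1 / τ) * st ((x2 - s) / τ) +
      st ((s - x1) / τ) * (st' ((x2 - s) / τ) * (-1 / τ)), fun s => ((st_d _).comp s
      (((hasDerivAt_id s).sub_const _).div_const _)).mul ((st_d _).comp s
      (((hasDerivAt_id s).const_sub _).div_const _)), by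
      have := st'_c; have := st_c.continuous; fun_prop,
    fun s => mul_nonneg (st_b _).1 (st_b _).1, fun s hs => ?_, fun s hs => ?_, ?_⟩
  · simp [st_1 ((one_le_div τ0).2 (show τ ≤ s - x1 by linarith [hs.1])),
      st_1 ((one_le_div τ0).2 (show τ ≤ x2 - s by linarith [hs.2]))]
  · rcases not_and_or.1 hs with h | h
    · simp [st_0 (div_nonpos_of_nonpos_of_nonneg (sub_nonpos.2 (not_le.1 h).le) τ0.le)]
    · simp [st_0 (div_nonpos_of_nonpos_of_nonneg (sub_nonpos.2 (not_le.1 h).le) τ0.le)]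
  have i1 := (hf.indicator (measurableSet_Ioc (a := x1) (b := x1 + τ))).const_mul (4 / τ)
  have i2 := (hf.indicator (measurableSet_Ioc (a := x2 + -τ) (b := x2))).const_mul (4 / τ)
  refine (integral_mono_of_nonneg (Eventually.of_forall fun s => mul_nonneg (abs_nonneg _) (f0 s))
    (iadd i1 i2) (Eventually.of_forall fun s => ?_)).trans ?_
  · have k1 : |st' ((s - x1) / τ)| * f s ≤ 4 * (Ioc x1 (x1 + τ)).indicator f s := by
      by_cases h : s ∈ Ioc x1 (x1 + τ)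
      · rw [indicator_of_mem h]; exact mul_le_mul_of_nonneg_right (st_b _).2.2 (f0 s)
      · rw [indicator_of_notMem h]
        rcases not_and_or.1 h with h | h
        · simp [st_0 (div_nonpos_of_nonpos_of_nonneg (sub_nonpos.2 (not_lt.1 h)) τ0.le)]
        · simp [st_1 ((one_le_div τ0).2 (show τ ≤ s - x1 by linarith [not_le.1 h]))]
    have k2 : |st' ((x2 - s) / τ)| * f s ≤ 4 * (Ioc (x2 + -τ) x2).indicator f s := by
      by_cases h : s ∈ Ioc (x2 + -τ) x2
      · rw [indicator_of_mem h]; exact mul_le_mul_of_nonneg_right (st_b _).2.2 (f0 s)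
      · rw [indicator_of_notMem h]
        rcases not_and_or.1 h with h | h
        · simp [st_1 ((one_le_div τ0).2 (show τ ≤ x2 - s by linarith [not_lt.1 h]))]
        · simp [st_0 (div_nonpos_of_nonpos_of_nonneg (sub_nonpos.2 (not_le.1 h).le) τ0.le)]
    have k3 : |st' ((s - x1) / τ) * (1 / τ) * st ((x2 - s) / τ) +
        st ((s - x1) / τ) * (st' ((x2 - s) / τ) * (-1 / τ))| ≤
        (|st' ((s - x1) / τ)| + |st' ((x2 - s) / τ)|) / τ := by
      refine (abs_add_le _ _).trans ?_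
      simp only [abs_mul, abs_div, abs_neg, abs_one, abs_of_pos τ0, abs_of_nonneg (st_b _).1]
      rw [add_div]
      refine add_le_add ((mul_le_of_le_one_right (by positivity) (st_b _).2.1).trans_eq (by ring))
        ((mul_le_of_le_one_left (by positivity) (st_b _).2.1).trans_eq (by ring))
    refine (mul_le_mul_of_nonneg_right k3 (f0 s)).trans ?_
    simp only [div_mul_eq_mul_div, ← add_div]
    exact div_le_div_of_nonneg_right (by linarith) τ0.le
  · rw [integral_add i1 i2, integral_const_mul, integral_const_mul,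
      integral_indicator measurableSet_Ioc, integral_indicator measurableSet_Ioc]
    simp only [div_eq_mul_inv, mul_assoc]
    simp only [inv_neg, neg_mul_neg] at b2
    linarith

lemma zero_of {U : Set (ℝ × ℝ)} (hU : IsOpen U) {f : ℝ × ℝ → ℝ} (hc : ContinuousOn f U)
    (f0 : ∀ p, 0 ≤ f p) (hi : IntegrableOn f U) (h : ∫ p in U, f p ≤ 0) : ∀ p ∈ U, f p = 0 :=
  Measure.eqOn_open_of_ae_eq ((integral_eq_zero_iff_of_nonneg f0 hi).1
    (le_antisymm h (integral_nonneg f0))) hU hc continuousOn_const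

end Pool.Agent.H.MP_1dc5fb_an
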