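import Pool.Agent.H.MP_1dc5fb_an.H

set_option linter.unusedSectionVars false
set_option linter.unusedVariables false
set_option linter.dupNamespace false

namespace Pool.Agent.H.MP_1dc5fb_an

open MeasureTheory Filter Topology Set Metric
open scoped ContDiff

lemma Pp_le {ε s w : ℝ} (hε : |ε| ≤ 1) (h0 : 0 ≤ s) (h1 : s ≤ 1) :
    |Pp (ε * s + w)| ≤ (1 + |w|) ^ 2 := by
  rw [abs_of_nonneg (Pp_nn _)]
  have h2 : Pp (ε * s + w) ≤ max (ε * s + w) 0 ^ 2 := by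
    have := Real.log_le_sub_one_of_pos (show 0 < 1 + max (ε * s + w) 0 ^ 2 by positivity)
    unfold Pp; linarith
  refine h2.trans (pow_le_pow_left₀ (le_max_right _ _) (max_le ?_ (by positivity)) 2)
  nlinarith [le_abs_self w, abs_le.1 hε]

lemma bd_le {n1 n2 : Measure ℝ} {c : ℝ} (hc : 0 < c) (h : n1 ≤ ENNReal.ofReal c • n2)
    {f1 f2 f : ℝ → ℝ} (i1 : Integrable f1 n1) (i2 : Integrable f2 n2) (mf : Measurable f)
    (f0 : ∀ x, 0 ≤ f x) (h1 : ∀ x, f1 x ≤ f x) (h2 : ∀ x, c * f x ≤ f2 x) :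
    ∫ x, f1 x ∂n1 ≤ ∫ x, f2 x ∂n2 := by
  have i3 : Integrable f n2 := (i2.const_mul c⁻¹).mono' mf.aestronglyMeasurable
    (Eventually.of_forall fun x => by
      rw [Real.norm_of_nonneg (f0 x), ← div_eq_inv_mul, le_div_iff₀' hc]; exact h2 x)
  have i4 := i3.smul_measure (c := ENNReal.ofReal c) ENNReal.ofReal_ne_top
  have a1 := integral_mono i1 (i4.mono_measure h) h1
  have a2 := integral_mono_measure h (Eventually.of_forall f0) i4
  rw [integral_smul_measure, ENNReal.toReal_ofReal hc.le, smul_eq_mul, ← integral_const_mul] at a2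
  exact a1.trans (a2.trans (integral_mono (i3.const_mul c) i2 h2))

namespace Geo
variable {G : Geo} {g v a b V : ℝ × ℝ → ℝ} {t : ℝ → ℝ}

lemma WS.LIP (h : G.WS g v a b t) {ε : ℝ} (hε : |ε| ≤ 1) {W W' W'' : ℝ → ℝ} (c0 : Continuous W)
    (c1 : Continuous W') (c2 : Continuous W'') :
    G.LI (fun p => Pp' (ε * v p + W p.2) * ((ε * a p) ^ 2 + (ε * b p + W' p.2) ^ 2) +
        (ε * g p + W'' p.2) * Pp (ε * v p + W p.2)) ∧
    G.LI (fun p => Pp (ε * v p + W p.2) * (ε * a p)) ∧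
    G.LI (fun p => Pp (ε * v p + W p.2) * (ε * b p + W' p.2)) ∧
    G.LI (fun p => Pp (ε * v p + W p.2)) ∧ G.LI (fun p => |Pp (ε * v p + W p.2) * a p|) ∧
    Integrable (fun x => ε * (1 - t x) * Pp (ε * t x + W (G.φ x))) G.ν ∧
    Integrable (fun x => W' (G.φ x) * Pp (ε * t x + W (G.φ x))) G.ι := by
  have m0 := h.V.m0.1
  have m1 := h.V.m1.1
  have m2 := h.V.m2.1
  have m3 := h.V.m3.1
  have m4 := h.mg.1
  have cφ := G.cont
  have n0 : AEStronglyMeasurable (fun p : ℝ × ℝ => W p.2) G.μ := by fun_prop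
  have n1 : AEStronglyMeasurable (fun p : ℝ × ℝ => W' p.2) G.μ := by fun_prop
  have n2 : AEStronglyMeasurable (fun p : ℝ × ℝ => W'' p.2) G.μ := by fun_prop
  have n3 : AEStronglyMeasurable (fun x => W (G.φ x)) G.ν := by fun_prop
  have n4 : AEStronglyMeasurable (fun x => W' (G.φ x)) G.ν := by fun_prop
  have mz : AEStronglyMeasurable (fun p => ε * v p + W p.2) G.μ := (m0.const_mul ε).add n0
  have mP := Pp_c.comp_aestronglyMeasurable mz
  have mP' := Pp'_c.comp_aestronglyMeasurable mz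
  have mQ := Pp_c.comp_aestronglyMeasurable ((m3.const_mul ε).add n3)
  have iQ := iadd (isq h.V.m1) (isq h.V.m2)
  have e2 : ε ^ 2 ≤ 1 := by rw [← sq_abs]; exact pow_le_one₀ (abs_nonneg _) hε
  have ab : ∀ x y : ℝ, |x| ≤ x ^ 2 + y ^ 2 + 1 := fun x y => by
    nlinarith [sq_nonneg (|x| - 1), sq_abs x, sq_nonneg y]
  refine ⟨LI.of_le ((mP'.mul (((m1.const_mul ε).pow 2).add (((m2.const_mul ε).add n1).pow 2))).add
      (((m4.const_mul ε).add n2).mul mP)) iQ (R := fun p => 2 + 2 * W' p.2 ^ 2 +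
        (1 + |W'' p.2|) * (1 + |W p.2|) ^ 2) (by fun_prop) ?_,
    LI.of_le (mP.mul (m1.const_mul ε)) iQ (R := fun p => (1 + |W p.2|) ^ 2) (by fun_prop) ?_,
    LI.of_le (mP.mul ((m2.const_mul ε).add n1)) iQ
      (R := fun p => (1 + |W p.2|) ^ 2 * (1 + |W' p.2|)) (by fun_prop) ?_,
    LI.of_le mP iQ (R := fun p => (1 + |W p.2|) ^ 2) (by fun_prop) ?_,
    LI.of_le (continuous_abs.comp_aestronglyMeasurable (mP.mul m1)) iQ
      (R := fun p => (1 + |W p.2|) ^ 2) (by fun_prop) ?_,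
    (mem_of_le (G.memν (g := fun x => (1 + |W (G.φ x)|) ^ 2) (by fun_prop))
      (((aestronglyMeasurable_const.sub m3).const_mul ε).mul mQ) 1 ?_).integrable one_le_two,
    (memι (mem_of_le (G.memν (g := fun x => |W' (G.φ x)| * (1 + |W (G.φ x)|) ^ 2) (by fun_prop))
      (n4.mul mQ) 1 ?_)).integrable one_le_two⟩
  · filter_upwards [h.bv, h.bg] with p h1 h2
    have k1 := Pp_le (w := W p.2) hε h1.1 h1.2
    have k2 : |ε * g p + W'' p.2| ≤ 1 + |W'' p.2| := (abs_add_le _ _).trans (by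
      rw [abs_mul, abs_of_nonneg h2.1]; nlinarith [abs_nonneg ε])
    have k3 : (ε * a p) ^ 2 + (ε * b p + W' p.2) ^ 2 ≤ 2 * (a p ^ 2 + b p ^ 2) + 2 * W' p.2 ^ 2 := by
      nlinarith [sq_nonneg (ε * b p - W' p.2), mul_le_mul_of_nonneg_right e2 (sq_nonneg (a p)),
        mul_le_mul_of_nonneg_right e2 (sq_nonneg (b p)), sq_nonneg (a p)]
    refine (abs_add_le _ _).trans ?_
    rw [abs_mul, abs_mul, abs_of_nonneg (show 0 ≤ (ε * a p) ^ 2 + (ε * b p + W' p.2) ^ 2 by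
      positivity)]
    have k4 := mul_le_mul (Pp'_b (ε * v p + W p.2)) k3 (by positivity) zero_le_one
    have k5 := mul_le_mul k2 k1 (abs_nonneg _) (by positivity)
    have k6 : 0 ≤ (2 * W' p.2 ^ 2 + (1 + |W'' p.2|) * (1 + |W p.2|) ^ 2) * (a p ^ 2 + b p ^ 2) := by
      positivity
    nlinarith
  · filter_upwards [h.bv] with p h1
    rw [abs_mul, abs_mul]
    exact mul_le_mul (Pp_le hε h1.1 h1.2) ((mul_le_of_le_one_left (abs_nonneg _) hε).trans (ab _ _))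
      (by positivity) (by positivity)
  · filter_upwards [h.bv] with p h1
    rw [abs_mul, mul_assoc]
    refine mul_le_mul (Pp_le hε h1.1 h1.2) ((abs_add_le _ _).trans ?_) (by positivity)
      (by positivity)
    rw [abs_mul]
    have := ab (b p) (a p)
    nlinarith [mul_le_of_le_one_left (abs_nonneg (b p)) hε, mul_nonneg (abs_nonneg (W' p.2))
      (show 0 ≤ a p ^ 2 + b p ^ 2 by positivity)]
  · filter_upwards [h.bv] with p h1
    exact (Pp_le hε h1.1 h1.2).trans (le_mul_of_one_le_right (by positivity)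
      (le_add_of_nonneg_left (by positivity)))
  · filter_upwards [h.bv] with p h1
    rw [abs_abs, abs_mul]
    exact mul_le_mul (Pp_le hε h1.1 h1.2) (ab _ _) (by positivity) (by positivity)
  · filter_upwards [h.bt] with x h1
    simp only [Pi.mul_apply, Pi.sub_apply, Pi.add_apply]
    rw [abs_mul, abs_mul, abs_of_nonneg (sub_nonneg.2 h1.2)]
    exact mul_le_mul (by nlinarith [abs_nonneg ε]) ((Pp_le hε h1.1 h1.2).trans (le_abs_self _))
      (abs_nonneg _) zero_le_one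
  · filter_upwards [h.bt] with x h1
    simp only [Pi.mul_apply, Pi.add_apply]
    rw [one_mul, abs_mul, abs_mul, abs_abs]
    exact mul_le_mul_of_nonneg_left ((Pp_le hε h1.1 h1.2).trans (le_abs_self _)) (abs_nonneg _)

variable (G) in
structure IR (g v a b : ℝ × ℝ → ℝ) (t : ℝ → ℝ) (U : ℝ × ℝ → ℝ) : Prop extends G.CW g v a b t where
  cV : ContDiffOn ℝ 1 U G.Ω
  ae : ∀ᵐ p, p ∈ G.Ω → U p = v (G.π p) ∧ dx U p = a (G.π p) ∧ dy U p = b (G.π p)
  bd : ∀ p ∈ G.Ω, 0 ≤ U p ∧ U p < 1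

lemma IR.ae' (h : G.IR g v a b t V) : ∀ᵐ p ∂volume.restrict G.Ω,
    p ∈ G.Ω ∧ V p = v (G.π p) ∧ dx V p = a (G.π p) ∧ dy V p = b (G.π p) := by
  filter_upwards [ae_restrict_of_ae h.ae, ae_restrict_mem G.isOpen.measurableSet] with p h1 h2
    using ⟨h2, h1 h2⟩

lemma LI.unf' {P ζ : ℝ × ℝ → ℝ} (h : G.LI P) (hc : Continuous ζ) {M : ℝ} (hv : Van ζ M) :
    IntegrableOn (fun p => P (G.π p) * ζ p) G.Ω := by
  obtain ⟨N, hN⟩ := exists_nat_gt (M / G.T)
  rw [div_lt_iff₀ G.hT] at hN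
  exact (h.unf hc hv hN).1

lemma IR.cmp (h : G.IR g v a b t V) {ε : ℝ} (hε : |ε| ≤ 1) {W W' W'' : ℝ → ℝ}
    (hW : ∀ s, HasDerivAt W (W' s) s) (hW' : ∀ s, HasDerivAt W' (W'' s) s) (hW'' : Continuous W'') :
    (∀ ζ M, Continuous ζ → Van ζ M →
      IntegrableOn (fun p => |Pp (ε * V p + W p.2) * dx V p| * ζ p) G.Ω ∧
      IntegrableOn (fun p => Pp (ε * V p + W p.2) * ζ p) G.Ω) ∧
    ∀ ζ M, ContDiff ℝ 1 ζ → Van ζ M → (∀ p, 0 ≤ ζ p) → (∀ s, 2 ≤ W'' s) →
      (∀ p ∈ G.Ω, dy ζ p ≠ 0 → ε * V p + W p.2 ≤ 0) → (∀ x, ζ (G.γ x) ≠ 0 → G.c2 ≤ W' (G.φ x)) →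
      ∫ p in G.Ω, Pp (ε * V p + W p.2) * ζ p ≤
        ∫ p in G.Ω, |Pp (ε * V p + W p.2) * dx V p| * |dx ζ p| := by
  have c1 := (c1_of hW' hW'').continuous
  have c0 := (c1_of hW c1).continuous
  obtain ⟨l0, l1, l2, l3, l4, q1, q2⟩ := h.LIP hε c0 c1 hW''
  have I : ∀ ζ M, Continuous ζ → Van ζ M →
      IntegrableOn (fun p => |Pp (ε * V p + W p.2) * dx V p| * ζ p) G.Ω ∧
      IntegrableOn (fun p => Pp (ε * V p + W p.2) * ζ p) G.Ω := fun ζ M hc hv =>
    ⟨(l4.unf' hc hv).congr (h.ae'.mono fun p hp => by simp only [hp.2.1, hp.2.2.1]; rfl),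
      (l3.unf' hc hv).congr (h.ae'.mono fun p hp => by simp only [hp.2.1]; rfl)⟩
  refine ⟨I, fun ζ M hc hv z0 k1 k2 k3 => ?_⟩
  have U := unfold l0 l1 l2 q1 q2 hc hv fun Z hZ _ => h.ID ε hW hW' hW'' Pp_d Pp'_c Pp'_b hZ
  obtain ⟨N, hN⟩ := exists_nat_gt (M / G.T)
  rw [div_lt_iff₀ G.hT] at hN
  have A0 := integral_mono_ae (I ζ M hc.continuous hv).2 (l0.unf' hc.continuous hv)
    (h.ae'.mono fun p hp => by
      simp only [hp.2.1]
      refine mul_le_mul_of_nonneg_right (le_add_of_nonneg_of_le (mul_nonneg (Pp'_nn _)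
        (by positivity)) (le_mul_of_one_le_left (Pp_nn _) ?_)) (z0 p)
      nlinarith [k1 (G.π p).2, abs_le.1 hε, h.g2 (G.π p)])
  have A2 : ∫ p in G.Ω, Pp (ε * v (G.π p) + W (G.π p).2) * (ε * b (G.π p) + W' (G.π p).2) *
      dy ζ p = 0 := integral_eq_zero_of_ae (h.ae'.mono fun p hp => by
    by_cases h1 : dy ζ p = 0
    · simp [h1]
    · have := Pp_z (k2 p hp.1 h1)
      rw [hp.2.1] at this
      simp [π] at this ⊢
      simp [this])
  have A3 := bd_le G.hc2 G.s2 (unf1 G.inv_int q1 hc.continuous hv hN).1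
    (unf1 (fun k => measurePreserving_add_right volume _) q2 hc.continuous hv hN).1
    (f := fun x => Pp (ε * t (G.r1 x) + W (G.φ (G.r1 x))) * ζ (G.γ x)) (by
      have := h.t1; have := G.r1_m; have := G.cont; have := G.cγ; have := Pp_c
      have := hc.continuous
      fun_prop) (fun x => mul_nonneg (Pp_nn _) (z0 _)) (fun x =>
      mul_le_mul_of_nonneg_right (mul_le_of_le_one_left (Pp_nn _) (by
        nlinarith [abs_le.1 hε, h.t2 (G.r1 x)])) (z0 _)) fun x => by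
      by_cases h1 : ζ (G.γ x) = 0
      · simp [h1]
      · rw [mul_assoc, φ_r1]
        exact mul_le_mul_of_nonneg_right (k3 x h1) (mul_nonneg (Pp_nn _) (z0 _))
  have A1 : -(∫ p in G.Ω, Pp (ε * v (G.π p) + W (G.π p).2) * (ε * a (G.π p)) * dx ζ p) ≤
      ∫ p in G.Ω, |Pp (ε * V p + W p.2) * dx V p| * |dx ζ p| := by
    rw [← integral_neg]
    refine integral_mono_ae (l1.unf' (cont_dx hc) hv.d.1).neg (I _ M (cont_dx hc).abs
      fun p hp => by rw [hv.d.1 p hp, abs_zero]).1 (h.ae'.mono fun p hp => ?_)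
    simp only [hp.2.1, hp.2.2.1]
    refine (neg_le_abs _).trans ?_
    simp only [abs_mul]
    exact mul_le_mul_of_nonneg_right (mul_le_mul_of_nonneg_left
      (mul_le_of_le_one_left (abs_nonneg _) hε) (abs_nonneg _)) (abs_nonneg _)
  linarith

lemma sep {η η' ξ ξ' : ℝ → ℝ} (h1 : ∀ s, HasDerivAt η (η' s) s) (c1 : Continuous η')
    (h2 : ∀ s, HasDerivAt ξ (ξ' s) s) (c2 : Continuous ξ') :
    ContDiff ℝ 1 (fun p : ℝ × ℝ => η p.1 * ξ p.2) ∧
    (∀ p, dx (fun p : ℝ × ℝ => η p.1 * ξ p.2) p = η' p.1 * ξ p.2) ∧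
    ∀ p, dy (fun p : ℝ × ℝ => η p.1 * ξ p.2) p = η p.1 * ξ' p.2 := by
  have c : ContDiff ℝ 1 (fun p : ℝ × ℝ => η p.1 * ξ p.2) :=
    ((c1_of h1 c1).comp contDiff_fst).mul ((c1_of h2 c2).comp contDiff_snd)
  exact ⟨c, fun p => dx_eq (c.differentiable one_ne_zero p) ((h1 p.1).mul_const (ξ p.2)),
    fun p => dy_eq (c.differentiable one_ne_zero p) ((h2 p.2).const_mul (η p.1))⟩

lemma IR.barrier (h : G.IR g v a b t V) {ε : ℝ} (hε : |ε| ≤ 1) {x0 ρ y θ c : ℝ} (hρ : 0 < ρ)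
    (hθ : 0 < θ) (hy : ∀ x ∈ Icc (x0 - 2 * ρ) (x0 + 2 * ρ), G.φ x < y ∧ y ≤ G.φ x + 2 ∧
      |V (x, y) - c| ≤ θ)
    (hc : ∀ F, F = Ioo (x0 - 2 * ρ) (x0 - ρ) ∨ F = Ioo (x0 + ρ) (x0 + 2 * ρ) → ∀ P : ℝ → Prop,
      (∀ᵐ x, P x) → ∃ x ∈ F, P x ∧ ∀ s ∈ Ioc (G.φ x) y, |V (x, s) - c| ≤ 2 * θ) :
    ∀ p ∈ G.Ω, |p.1 - x0| < ρ → p.2 < y → ε * (V p - c) ≤ 3 * θ + (G.c2 + 4) * (y - p.2) := by
  set W : ℝ → ℝ := fun s => -(ε * c) - 3 * θ - (G.c2 + 4) * (y - s) + (y - s) ^ 2 with hWd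
  have hW : ∀ s, HasDerivAt W (G.c2 + 4 - 2 * (y - s)) s := fun s =>
    (((((hasDerivAt_id s).const_sub y).const_mul _).const_sub _).add
      (((hasDerivAt_id s).const_sub y).pow 2)).congr_deriv (by simp; ring)
  have hW' : ∀ s, HasDerivAt (fun s => G.c2 + 4 - 2 * (y - s)) 2 s := fun s =>
    ((((hasDerivAt_id s).const_sub y).const_mul _).const_sub _).congr_deriv (by simp)
  obtain ⟨I, C⟩ := h.cmp hε hW hW' continuous_const
  have cz : ContinuousOn (fun p => ε * V p + W p.2) G.Ω :=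
    (continuousOn_const.mul h.cV.continuousOn).add (Continuous.continuousOn (by fun_prop))
  have eb : ∀ s r : ℝ, |s| ≤ r → ε * s ≤ r := fun s r hs => (le_abs_self _).trans (by
    rw [abs_mul]; exact (mul_le_of_le_one_left (abs_nonneg _) hε).trans hs)
  obtain ⟨ξ, ξ', Y, y1, d1, d2, d3, d4, d5, d6⟩ := tube G.isOpen cz (y := y) fun x hx =>
    ⟨(hy x hx).1, by have := eb _ _ (hy x hx).2.2; simp only [hWd]; nlinarith⟩
  have cξ := (c1_of d1 d2).continuous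
  set M := |x0| + 2 * ρ
  have cc := (cut_c M (n := 0)).continuous
  have i1 := (I (fun p => cut M |p.1| * ξ p.2) (max (M + 2) Y) (by fun_prop) fun p hp => by
    rcases hp with hp | hp
    · simp [cut_zero ((le_max_left _ _).trans hp.le)]
    · simp [(d5 _ ((le_max_right _ _).trans hp.le)).1]).1
  rw [← G.R_univ] at i1
  obtain ⟨-, -, i2⟩ := G.fub MeasurableSet.univ i1
  rw [integrableOn_univ] at i2
  set f : ℝ → ℝ := fun x => ∫ s in Ioi (G.φ x), |Pp (ε * V (x, s) + W s) * dx V (x, s)| *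
    (cut M |x| * ξ s) with hf
  have f0 : ∀ x, 0 ≤ f x := fun x => integral_nonneg fun s => mul_nonneg (abs_nonneg _)
    (mul_nonneg (Real.smoothTransition.nonneg _) (d3 _))
  have fz : ∀ x ∈ Icc (x0 - 2 * ρ) (x0 + 2 * ρ), (∀ s ∈ Ioc (G.φ x) y, |V (x, s) - c| ≤ 2 * θ) →
      f x = 0 := fun x hx h1 => setIntegral_eq_zero_of_forall_eq_zero fun s hs => by
    rcases le_total s y with h2 | h2
    · have := eb _ _ (h1 s ⟨hs, h2⟩)
      have h3 : y - s ≤ 2 := by linarith [(hy x hx).2.1, mem_Ioi.1 hs]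
      rw [Pp_z (by simp only [hWd]; nlinarith [G.hc2])]; simp
    rcases le_total s Y with h3 | h3
    · rw [Pp_z (d6 x hx s ⟨h2, h3⟩)]; simp
    · simp [(d5 s h3).1]
  have L := LocallyIntegrable.ae_hasDerivAt_integral i2.locallyIntegrable
  obtain ⟨x1, a1, a2, a3⟩ := hc _ (Or.inl rfl) _ L
  obtain ⟨x2, b1, b2, b3⟩ := hc _ (Or.inr rfl) _ L
  have a2 := a2 0
  have b2 := b2 0
  have a4 : x1 ∈ Icc (x0 - 2 * ρ) (x0 + 2 * ρ) := ⟨a1.1.le, by linarith [a1.2]⟩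
  have b4 : x2 ∈ Icc (x0 - 2 * ρ) (x0 + 2 * ρ) := ⟨by linarith [b1.1], b1.2.le⟩
  rw [fz _ a4 a3] at a2
  rw [fz _ b4 b3] at b2
  have sub : Icc x1 x2 ⊆ Icc (x0 - 2 * ρ) (x0 + 2 * ρ) := Icc_subset_Icc a4.1 b4.2
  set U : Set (ℝ × ℝ) := G.Ω ∩ {p | |p.1 - x0| < ρ ∧ p.2 < y}
  have oU : IsOpen U := G.isOpen.inter ((isOpen_lt (continuous_fst.sub continuous_const).abs
    continuous_const).and (isOpen_lt continuous_snd continuous_const))
  have key : ∀ δ > 0, IntegrableOn (fun p => Pp (ε * V p + W p.2)) U ∧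
      ∫ p in U, Pp (ε * V p + W p.2) ≤ 0 + δ := fun δ hδ => by
    obtain ⟨η, η', e1, e2, e3, e4, e5, e6⟩ := leb i2 f0 a2 b2 a1.2 b1.1 (by linarith) hδ
    obtain ⟨s1, s2, s3⟩ := sep e1 e2 d1 d2
    have hv : Van (fun p : ℝ × ℝ => η p.1 * ξ p.2) (max M Y) := fun p hp => by
      rcases hp with hp | hp
      · refine mul_eq_zero_of_left (e5 _ fun h' => ?_).1 _
        have := sub h'
        refine absurd ((le_max_left _ _).trans_lt hp) (not_lt.2 (abs_le.2 ⟨?_, ?_⟩))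
        · linarith [this.1, neg_abs_le x0]
        · linarith [this.2, le_abs_self x0]
      · simp [(d5 _ ((le_max_right _ _).trans hp.le)).1]
    have k1 := C _ _ s1 hv (fun p => mul_nonneg (e3 _) (d3 _)) (fun _ => le_rfl) (fun p hp h1 => by
      rw [s3] at h1
      refine d6 p.1 (sub (by by_contra h2; exact h1 (by simp [(e5 _ h2).1]))) p.2 ⟨?_, ?_⟩
      · by_contra h2; exact h1 (by simp [(d4 _ (not_le.1 h2).le).2])
      · by_contra h2; exact h1 (by simp [(d5 _ (not_le.1 h2).le).2])) fun x h1 => by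
      have := hy x (sub (by by_contra h2; exact h1 (by simp [γ, (e5 _ h2).1])))
      linarith [this.2.1]
    have k2 := (I _ _ s1.continuous hv).2
    have eq : EqOn (fun p : ℝ × ℝ => Pp (ε * V p + W p.2) * (η p.1 * ξ p.2))
        (fun p => Pp (ε * V p + W p.2)) U := fun p hp => by
      have := abs_lt.1 hp.2.1
      simp [e4 p.1 ⟨by linarith, by linarith⟩, (d4 _ hp.2.2.le).1]
    refine ⟨(k2.mono_set inter_subset_left).congr_fun eq oU.measurableSet, ?_⟩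
    rw [← setIntegral_congr_fun oU.measurableSet eq, zero_add]
    refine (setIntegral_mono_set k2 (Eventually.of_forall fun p => mul_nonneg (Pp_nn _)
      (mul_nonneg (e3 _) (d3 _))) inter_subset_left.eventuallyLE).trans (k1.trans ?_)
    have k3 := (I _ _ (cont_dx s1).abs fun p hp => by rw [hv.d.1 p hp, abs_zero]).1
    rw [← G.R_univ] at k3 ⊢
    rw [(G.fub MeasurableSet.univ k3).1, Measure.restrict_univ]
    refine le_trans (le_of_eq ?_) e6
    congr 1; ext x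
    rw [hf, ← integral_const_mul]
    congr 1; ext s
    rw [s2, abs_mul (η' x), abs_of_nonneg (d3 _)]
    by_cases hx : x ∈ Icc x1 x2
    · have := sub hx
      rw [cut_one (abs_le.2 ⟨by linarith [this.1, neg_abs_le x0],
        by linarith [this.2, le_abs_self x0]⟩)]
      ring
    · simp [(e5 x hx).2]
  intro p hp h1 h2
  have := zero_of oU (Pp_c.comp_continuousOn (cz.mono inter_subset_left)) (fun p => Pp_nn _)
    (key 1 one_pos).1 (le_of_forall_pos_le_add fun δ hδ => (key δ hδ).2) p ⟨hp, h1, h2⟩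
  have h3 : ε * V p + W p.2 ≤ 0 := not_lt.1 fun h' => (Pp_pos h').ne' this
  simp only [hWd] at h3
  nlinarith [sq_nonneg (y - p.2)]

end Geo

end Pool.Agent.H.MP_1dc5fb_an
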