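import Pool.Agent.H.MP_1dc5fb_an.I

set_option linter.unusedSectionVars false
set_option linter.unusedVariables false
set_option linter.dupNamespace false

namespace Pool.Agent.H.MP_1dc5fb_an

open MeasureTheory Filter Topology Set Metric
open scoped ContDiff

namespace Geo
variable {G : Geo} {g g' v a b V v' a' b' : ℝ × ℝ → ℝ} {t t' : ℝ → ℝ}

lemma IR.en (h : G.IR g v a b t V) {K : Set (ℝ × ℝ)} (hK : K ⊆ G.Ω) (hb : Bornology.IsBounded K) :
    IntegrableOn (fun p => dx V p ^ 2) K ∧ IntegrableOn (fun p => dy V p ^ 2) K :=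
  have := ae_restrict_of_ae_restrict_of_subset hK h.ae'
  ⟨((LI.of_int (isq h.V.m1)).bdd hK hb).congr (this.mono fun p hp => by simp only [hp.2.2.1]),
    ((LI.of_int (isq h.V.m2)).bdd hK hb).congr (this.mono fun p hp => by simp only [hp.2.2.2])⟩

lemma small {F : ℝ × ℝ → ℝ} (x0 : ℝ) (hi : IntegrableOn F (G.Ω ∩ ball (G.γ x0) (ee 0))) :
    Tendsto (fun n => ∫ p in G.Ω ∩ ball (G.γ x0) (ee n), F p) atTop (𝓝 0) := by
  have := tendsto_setIntegral_of_antitone (μ := volume) (f := F)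
    (s := fun n => G.Ω ∩ ball (G.γ x0) (ee n))
    (fun n => G.isOpen.measurableSet.inter measurableSet_ball)
    (fun n m hnm => inter_subset_inter_right _ (ball_subset_ball
      (Nat.one_div_le_one_div hnm))) ⟨0, hi⟩
  rwa [show (⋂ n, G.Ω ∩ ball (G.γ x0) (ee n)) = ∅ from eq_empty_of_forall_notMem fun p hp => by
    have h1 := mem_iInter.1 hp
    have h2 : dist p (G.γ x0) ≤ 0 := ge_of_tendsto' ee_t fun n => (h1 n).2.le
    exact γ_not x0 (dist_le_zero.1 h2 ▸ (h1 0).1), setIntegral_empty] at this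

lemma IR.osc (h : G.IR g v a b t V) (x0 : ℝ) {δ : ℝ} (hδ : 0 < δ) : ∃ ρ > 0, ∃ c, ∀ p ∈ G.Ω,
    |p.1 - x0| < ρ → p.2 < G.φ x0 + ρ → |V p - c| ≤ δ := by
  have hL := G.hL
  have hc := G.hc2
  set θ := δ / 6
  have θ0 : 0 < θ := by positivity
  set κ := θ ^ 2 / (4 * G.L + 4)
  have κ0 : 0 < κ := by positivity
  have κ1 : κ * (4 * G.L + 4) = θ ^ 2 := div_mul_cancel₀ _ (by positivity)
  have en : ∀ r, _ := fun r => h.en (K := G.Ω ∩ ball (G.γ x0) r) inter_subset_left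
    (isBounded_ball.subset inter_subset_right)
  obtain ⟨n, n1, n2, n3⟩ := (((small x0 (en _).1).eventually (gt_mem_nhds κ0)).and
    (((small x0 (en _).2).eventually (gt_mem_nhds κ0)).and (ee_t.eventually (gt_mem_nhds
      (show 0 < δ / (4 * (G.c2 + 4)) by positivity))))).exists
  have r0 := ee_pos n
  have r1 : ee n ≤ 1 := by simpa [ee] using Nat.one_div_le_one_div (α := ℝ) (Nat.zero_le n)
  set r := ee n
  set ρ := r / (2 * G.L + 3)
  have ρ0 : 0 < ρ := by positivity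
  have ρ1 : 2 * (G.L * ρ) + 3 * ρ = r := by simp only [ρ]; field_simp
  have Lρ : 0 ≤ G.L * ρ := by positivity
  have lip : ∀ x ∈ Icc (x0 - 2 * ρ) (x0 + 2 * ρ), |G.φ x - G.φ x0| ≤ 2 * (G.L * ρ) := fun x hx =>
    (G.lip x x0).trans (by
      have : |x - x0| ≤ 2 * ρ := abs_le.2 ⟨by linarith [hx.1], by linarith [hx.2]⟩
      nlinarith)
  have inb : ∀ p : ℝ × ℝ, p.1 ∈ Icc (x0 - 2 * ρ) (x0 + 2 * ρ) → G.φ p.1 < p.2 →
      p.2 < G.φ x0 + r → p ∈ G.Ω ∩ ball (G.γ x0) r := fun p h1 h2 h3 => ⟨h2, by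
    have := abs_le.1 (lip _ h1)
    rw [mem_ball, Prod.dist_eq, Real.dist_eq, Real.dist_eq]
    exact max_lt (abs_lt.2 ⟨by simp only [γ]; linarith [h1.1], by simp only [γ]; linarith [h1.2]⟩)
      (abs_lt.2 ⟨by simp only [γ]; linarith, by simp only [γ]; linarith⟩)⟩
  have s1 : Icc (x0 - 2 * ρ) (x0 + 2 * ρ) ×ˢ Ioo (G.φ x0 + 2 * (G.L * ρ) + ρ)
      (G.φ x0 + 2 * (G.L * ρ) + 2 * ρ) ⊆ G.Ω ∩ ball (G.γ x0) r := fun p hp =>
    inb p hp.1 (by linarith [(abs_le.1 (lip _ hp.1)).2, hp.2.1]) (by linarith [hp.2.2])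
  have s2 := (prod_mono_left Ioc_subset_Icc_self).trans s1
  obtain ⟨y, y1, y2⟩ := rowp G.isOpen h.cV (s1.trans inter_subset_left) (by linarith)
    ((en r).1.mono_set s2)
  have y3 : ∀ x ∈ Icc (x0 - 2 * ρ) (x0 + 2 * ρ), |V (x, y) - V (x0, y)| ≤ θ := fun x hx => by
    have k1 := y2 x0 ⟨by linarith, by linarith⟩ x hx
    have k2 := setIntegral_mono_set (en r).1 (Eventually.of_forall fun _ => sq_nonneg _)
      s2.eventuallyLE
    refine abs_le_of_sq_le_sq (le_of_mul_le_mul_left (a := ρ) ?_ ρ0) θ0.le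
    nlinarith [mul_nonneg Lρ κ0.le]
  have B : ∀ ε : ℝ, |ε| ≤ 1 → _ := fun ε hε => h.barrier hε ρ0 θ0 (x0 := x0) (y := y)
    (c := V (x0, y)) (fun x hx => ⟨by linarith [(abs_le.1 (lip _ hx)).2, y1.1],
      by linarith [(abs_le.1 (lip _ hx)).1, y1.2], y3 x hx⟩) fun F hF P hP => by
      have F1 : MeasurableSet F := by rcases hF with rfl | rfl <;> exact measurableSet_Ioo
      have F2 : volume.real F = ρ := by
        rcases hF with rfl | rfl <;> rw [Real.volume_real_Ioo_of_le (by linarith)] <;> ring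
      have F3 : F ⊆ Icc (x0 - 2 * ρ) (x0 + 2 * ρ) := by
        rcases hF with rfl | rfl <;> exact fun x hx => ⟨by linarith [hx.1], by linarith [hx.2]⟩
      have s3 : G.R F ∩ {z | z.2 ≤ y} ⊆ G.Ω ∩ ball (G.γ x0) r := fun p hp =>
        inb p (F3 hp.1.1) hp.1.2 (by linarith [y1.2, show p.2 ≤ y from hp.2])
      obtain ⟨x, x1, x2, -, x3⟩ := G.colp h.cV F1 (by rwa [F2]) ((en r).2.mono_set s3)
        (q := fun _ => 0) (integrable_zero _ _ _) (fun _ => le_rfl) (ae_restrict_of_ae hP)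
        (κ := κ) (by
          rw [integral_zero, add_zero]
          exact (setIntegral_mono_set (en r).2 (Eventually.of_forall fun _ => sq_nonneg _)
            s3.eventuallyLE).trans n2.le)
      refine ⟨x, x1, x2, fun s hs => ?_⟩
      have k1 := x3 s y hs.1.le hs.2 le_rfl (h.cV.continuousOn.comp (Continuous.continuousOn
        (by fun_prop)) fun u hu => (hs.1.trans_le hu.1 : G.φ x < u))
      have k2 : |V (x, y) - V (x, s)| ≤ θ := by
        refine abs_le_of_sq_le_sq (le_of_mul_le_mul_left (a := ρ) ?_ ρ0) θ0.le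
        have : y - s ≤ 4 * (G.L * ρ) + 4 * ρ := by
          linarith [(abs_le.1 (lip _ (F3 x1))).1, y1.2, hs.1]
        rw [F2] at k1
        nlinarith [mul_le_mul_of_nonneg_right this κ0.le]
      have k3 := abs_le.1 (y3 x (F3 x1))
      rw [abs_le] at k2 ⊢
      constructor <;> linarith
  refine ⟨ρ, ρ0, V (x0, y), fun p hp h1 h2 => ?_⟩
  have k1 := B 1 (by simp) p hp h1 (by linarith [y1.1])
  have k2 := B (-1) (by simp) p hp h1 (by linarith [y1.1])
  have k3 : y - p.2 ≤ 2 * r := by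
    have := abs_lt.1 h1
    linarith [(abs_le.1 (lip p.1 ⟨by linarith, by linarith⟩)).1, y1.2, show G.φ p.1 < p.2 from hp]
  have k4 := mul_le_mul_of_nonneg_left k3 (show 0 ≤ G.c2 + 4 by positivity)
  rw [lt_div_iff₀ (by positivity)] at n3
  simp only [θ] at k1 k2
  exact abs_le.2 ⟨by linarith, by linarith⟩

lemma mem_cl {p : ℝ × ℝ} : p ∈ closure G.Ω ↔ G.φ p.1 ≤ p.2 := by
  refine ⟨fun h => closure_lt_subset_le (G.cont.comp continuous_fst) continuous_snd h,
    fun h => ?_⟩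
  have : Tendsto (fun n => (p.1, p.2 + ee n)) atTop (𝓝 (p.1, p.2 + 0)) :=
    tendsto_const_nhds.prodMk_nhds (ee_t.const_add _)
  rw [add_zero] at this
  exact mem_closure_of_tendsto this (Eventually.of_forall fun n =>
    lt_add_of_le_of_pos h (ee_pos n))

variable (G) in
structure BR (g v a b : ℝ × ℝ → ℝ) (t : ℝ → ℝ) (U : ℝ × ℝ → ℝ) : Prop extends G.IR g v a b t U where
  cc : ContinuousOn U (closure G.Ω)
  tr : ∀ᵐ x, U (G.γ x) = t (G.r1 x)

theorem CW.br (h : G.CW g v a b t) : ∃ U, G.BR g v a b t U := by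
  obtain ⟨V, h1, h2, h3⟩ := h.interior
  have H : G.IR g v a b t V := ⟨h, h1, h2, h3⟩
  have hO := G.isOpen
  have e := extendFrom_extends h1.continuousOn
  set U := extendFrom G.Ω V
  have e' : ∀ p ∈ G.Ω, U =ᶠ[𝓝 p] V := fun p hp => mem_of_superset (hO.mem_nhds hp) e
  have cc : ContinuousOn U (closure G.Ω) := continuousOn_extendFrom le_rfl fun p hp => by
    by_cases hp' : p ∈ G.Ω
    · exact ⟨_, h1.continuousOn p hp'⟩
    have := mem_closure_iff_nhdsWithin_neBot.1 hp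
    have e2 : p.2 = G.φ p.1 := le_antisymm (not_lt.1 hp') (mem_cl.1 hp)
    refine cauchy_map_iff_exists_tendsto.1 (Metric.cauchy_iff.2 ⟨inferInstance, fun δ hδ => ?_⟩)
    obtain ⟨ρ, ρ0, c, hc⟩ := H.osc p.1 (show 0 < δ / 3 by linarith)
    refine ⟨closedBall c (δ / 3), ?_, fun x hx y hy => ?_⟩
    · rw [mem_map]
      filter_upwards [self_mem_nhdsWithin, mem_nhdsWithin_of_mem_nhds (ball_mem_nhds p ρ0)]
        with q h4 h5
      rw [mem_ball, Prod.dist_eq, max_lt_iff, Real.dist_eq, Real.dist_eq] at h5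
      exact hc q h4 h5.1 (by linarith [(abs_lt.1 h5.2).2])
    · linarith [dist_triangle_right x y c, mem_closedBall.1 hx, mem_closedBall.1 hy]
  have H' : G.IR g v a b t U := ⟨h, h1.congr e, h2.mono fun p hp hp' => by
    simpa only [e p hp', dx, dy, (e' p hp').fderiv_eq] using hp hp',
    fun p hp => by rw [e p hp]; exact h3 p hp⟩
  refine ⟨U, H', cc, ?_⟩
  have cγ : Continuous fun x => U (G.γ x) := cc.comp_continuous G.cγ fun x => mem_cl.2 le_rfl
  refine ae_eq_of_integral_contDiff_smul_eq cγ.locallyIntegrable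
    ((locallyIntegrable_const (1 : ℝ)).mono (h.t1.comp G.r1_m).aestronglyMeasurable
      (Eventually.of_forall fun x => by simpa [abs_of_nonneg (h.t2 _).1] using (h.t2 _).2))
    fun θ k1 k2 => ?_
  have k3 : ContDiff ℝ 1 θ := k1.of_le (by simp)
  obtain ⟨s1, s2, s3⟩ := sep (η := θ) (fun s => (k3.differentiable one_ne_zero s).hasDerivAt)
    (k3.continuous_deriv le_rfl) (ξ := fun s => st (2 - s)) (ξ' := fun s => -st' (2 - s))
    (fun s => (st_d _).comp_const_sub 2 s) (by have := st'_c; fun_prop)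
  obtain ⟨M, hM⟩ := k2.isCompact.isBounded.exists_norm_le
  have hv : Van (fun p : ℝ × ℝ => θ p.1 * st (2 - p.2)) (max M 2) := fun p hp => by
    rcases hp with hp | hp
    · exact mul_eq_zero_of_left (image_eq_zero_of_notMem_tsupport fun h' =>
        absurd ((le_max_left _ _).trans_lt hp) (not_lt.2 (hM _ h'))) _
    · simp [(st_0 (sub_nonpos.2 ((le_max_right _ _).trans hp.le))).1]
  set ζ := fun p : ℝ × ℝ => θ p.1 * st (2 - p.2)
  have zγ : ∀ x, ζ (G.γ x) = θ x := fun x => by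
    simp [ζ, γ, (st_1 (show 1 ≤ 2 - G.φ x by linarith [G.hi x])).1]
  have u := h.V.uY s1 hv
  have i1 := (LI.of_mem h.V.m2).unf' s1.continuous hv
  have i2 := (LI.of_mem h.V.m0).unf' (cont_dy s1) hv.d.2
  have ae : (fun p => b (G.π p) * ζ p + v (G.π p) * dy ζ p) =ᵐ[volume.restrict G.Ω]
      fun p => dy U p * ζ p + U p * dy ζ p := H'.ae'.mono fun p hp => by
    simp only [hp.2.1, hp.2.2.2]
  have w := G.col MeasurableSet.univ (F := fun p => U p * ζ p)
    (F' := fun p => dy U p * ζ p + U p * dy ζ p) (Y := max M 2) (fun x =>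
      ((cc.comp (s := Ici (G.φ x)) (f := fun s => (x, s)) (Continuous.continuousOn (by fun_prop))
        fun s hs => mem_cl.2 hs) _ self_mem_Ici).mul
        (s1.continuous.comp (by fun_prop)).continuousWithinAt)
    (fun p hp => (hd_y ((H'.cV.contDiffAt (hO.mem_nhds hp)).differentiableAt one_ne_zero)).mul
      (hd_y (s1.differentiable one_ne_zero p))) (fun p hp => by rw [hv p (Or.inr hp), mul_zero])
    (by rw [R_univ]; exact (iadd i1 i2).congr ae)
  rw [R_univ, ← integral_congr_ae ae, integral_add i1 i2, u, Measure.restrict_univ, neg_inj] at w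
  simpa only [zγ, smul_eq_mul, mul_comm] using w.symm

lemma WS.congr (h : G.WS g v a b t) (hg : g' =ᵐ[G.μ] g) (h0 : v' =ᵐ[G.μ] v) (h1 : a' =ᵐ[G.μ] a)
    (h2 : b' =ᵐ[G.μ] b) (h3 : t' =ᵐ[G.ν] t) : G.WS g' v' a' b' t' := by
  refine ⟨h.V.congr h0 h1 h2 h3, h.mg.ae_eq hg.symm, ?_, ?_, ?_, fun ψ p q s hψ => ?_⟩
  · filter_upwards [hg, h.bg] with p k1 k2 using k1 ▸ k2
  · filter_upwards [h0, h.bv] with p k1 k2 using k1 ▸ k2
  · filter_upwards [h3, h.bt] with p k1 k2 using k1 ▸ k2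
  · exact (congrArg₂ (· + ·) (congrArg₂ (· + ·) (integral_congr_ae (h1.mul (.refl _ p)))
      (integral_congr_ae (h2.mul (.refl _ q)))) (integral_congr_ae (hg.mul (.refl _ ψ)))).trans
      ((h.eq _ _ _ _ hψ).trans (integral_congr_ae
        (((EventuallyEq.refl _ fun _ => (1 : ℝ)).sub h3).mul (.refl _ s))).symm)

lemma σ_ac : G.σ ≪ volume :=
  (Measure.absolutelyContinuous_of_le G.s2).trans Measure.smul_absolutelyContinuous

lemma BR.ws (h : G.BR g v a b t V) : G.WS g V (dx V) (dy V) fun x => V (G.γ x) := by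
  have := aeC h.ae
  refine h.toWS.congr .rfl (this.mono fun p hp => by rw [hp.1.1, hp.2])
    (this.mono fun p hp => by rw [hp.1.2.1, hp.2]) (this.mono fun p hp => by rw [hp.1.2.2, hp.2]) ?_
  filter_upwards [ae_restrict_of_ae (σ_ac.ae_le h.tr), G.aeν] with x h1 h2
  have := G.r1_add h2 0
  simp only [Int.cast_zero, zero_mul, add_zero] at this
  rw [h1, this]

lemma BR.weak (h : G.BR g v a b t V) {ζ : ℝ × ℝ → ℝ} (hc : ContDiff ℝ 1 ζ)
    (hs : HasCompactSupport ζ) : (∫ p in G.Ω, (dx V p * dx ζ p + dy V p * dy ζ p)) +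
      ∫ p in G.Ω, g (G.π p) * ζ p = ∫ x, (1 - V (G.γ x)) * ζ (G.γ x) ∂G.σ := by
  obtain ⟨M, hv⟩ := van_of hs
  have u := h.uW hc hv
  have i1 := (LI.of_mem h.V.m1).unf' (cont_dx hc) hv.d.1
  have i2 := (LI.of_mem h.V.m2).unf' (cont_dy hc) hv.d.2
  rw [integral_congr_ae (g := fun p => a (G.π p) * dx ζ p + b (G.π p) * dy ζ p)
    (h.ae'.mono fun p hp => by simp only [hp.2.2.1, hp.2.2.2]), integral_add i1 i2,
    integral_congr_ae (μ := G.σ) (g := fun x => (1 - t (G.r1 x)) * ζ (G.γ x))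
      (Eventually.mono (σ_ac.ae_le h.tr) fun x hx => by simp only [show V (G.γ x) = _ from hx])]
  linarith

theorem solve' (G : Geo) {l : ℝ} (hl : 0 < l) (hl' : l ≤ 1 / 2) {α : ℝ × ℝ → ℝ}
    (mα : Measurable α) (bα : ∀ p, 0 ≤ α p ∧ α p ≤ 1) :
    ∃ v a b t U, G.BR (fun p => FF l (α p) (v p)) v a b t U ∧
      ∫ p, GG l (α p) (U p) ∂G.μ ≤ G.ν.real univ / 2 := by
  obtain ⟨v, a, b, t, h, e⟩ := G.solve hl hl' mα bα
  have m0 := h.V.m0.1
  have m3 := h.V.m3.1
  have e0 : (fun p => cl (m0.mk v p)) =ᵐ[G.μ] v := by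
    filter_upwards [m0.ae_eq_mk, h.bv] with p h1 h2
    rw [← h1, cl_eq h2.1 h2.2]
  have e3 : (fun p => cl (m3.mk t p)) =ᵐ[G.ν] t := by
    filter_upwards [m3.ae_eq_mk, h.bt] with p h1 h2
    rw [← h1, cl_eq h2.1 h2.2]
  have n0 := cl_c.measurable.comp m0.measurable_mk
  obtain ⟨U, hU⟩ := CW.br (G := G) (g := fun p => FF l (α p) (cl (m0.mk v p))) ⟨h.congr
    (e0.mono fun p hp => by simp only [hp]) e0 .rfl .rfl e3, by
      have := f1_c.measurable.comp n0
      unfold FF; simp only [Function.comp_def] at *; fun_prop, fun p => by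
      have := FF_b hl.le hl' (bα p).1 (bα p).2 (cl_mem (m0.mk v p)).1 (cl_mem _).2.1
      exact ⟨this.1, this.2.trans (cl_mem _).2.1⟩, n0, fun p => ⟨(cl_mem _).1, (cl_mem _).2.1⟩,
    cl_c.measurable.comp m3.measurable_mk, fun p => ⟨(cl_mem _).1, (cl_mem _).2.1⟩⟩
  refine ⟨_, a, b, _, U, hU, le_of_eq_of_le (integral_congr_ae ?_) e⟩
  filter_upwards [aeC hU.ae, e0] with p h1 h2
  rw [h1.1.1, h1.2, h2]

end Geo

end Pool.Agent.H.MP_1dc5fb_an
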