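import Pool.Agent.H.MP_1dc5fb_an.J

set_option linter.unusedSectionVars false
set_option linter.unusedVariables false
set_option linter.dupNamespace false

namespace Pool.Agent.H.MP_1dc5fb_an

open MeasureTheory Filter Topology Set Metric
open scoped ContDiff

namespace Geo
variable {G : Geo} {g v a b U : ℝ × ℝ → ℝ} {t : ℝ → ℝ}

lemma Dy' {ξ ξ' : ℝ → ℝ} (h : ∀ s, HasDerivAt ξ (ξ' s) s) (c : Continuous ξ') {Y : ℝ}
    (hz : ∀ s, Y ≤ s → ξ s = 0) : G.D (fun p => ξ p.2) ∧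
    (∀ p, dx (fun p : ℝ × ℝ => ξ p.2) p = 0) ∧ ∀ p, dy (fun p : ℝ × ℝ => ξ p.2) p = ξ' p.2 := by
  have c1 : ContDiff ℝ 1 fun p : ℝ × ℝ => ξ p.2 := (c1_of h c).comp contDiff_snd
  exact ⟨⟨c1, fun _ => rfl, Y, fun p hp => hz _ hp.le⟩,
    fun p => dx_eq (c1.differentiable one_ne_zero p) (hasDerivAt_const p.1 (ξ p.2)),
    fun p => dy_eq (c1.differentiable one_ne_zero p) (h p.2)⟩

lemma strip {c d : ℝ} (h : c ≤ d) (k : ℝ) (hk : 0 ≤ k) :
    Integrable ((Prod.snd ⁻¹' Icc c d).indicator fun _ => k) G.μ ∧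
    ∫ p, (Prod.snd ⁻¹' Icc c d).indicator (fun _ => k) p ∂G.μ ≤ G.T * (d - c) * k := by
  have m : MeasurableSet (Prod.snd ⁻¹' Icc c d : Set (ℝ × ℝ)) :=
    measurableSet_Icc.preimage measurable_snd
  have e : G.μ (Prod.snd ⁻¹' Icc c d) ≤ ENNReal.ofReal (G.T * (d - c)) := by
    rw [μ, Measure.restrict_apply m]
    refine (measure_mono (t := Ico 0 G.T ×ˢ Icc c d) fun p hp => ⟨hp.2.1, hp.1⟩).trans_eq ?_
    rw [Measure.volume_eq_prod, Measure.prod_prod, Real.volume_Icc, Real.volume_Ico, sub_zero,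
      ENNReal.ofReal_mul G.hT.le]
  refine ⟨(integrable_indicator_iff m).2 (integrableOn_const (e.trans_lt
    ENNReal.ofReal_lt_top).ne), ?_⟩
  rw [integral_indicator_const _ m, smul_eq_mul]
  exact mul_le_mul_of_nonneg_right (ENNReal.toReal_le_of_le_ofReal
    (mul_nonneg G.hT.le (sub_nonneg.2 h)) e) hk

lemma H_nn : 0 ≤ G.H := by linarith [G.lo 0, G.hi 0]

lemma WS.cacc (h : G.WS g v a b t) {l : ℝ} (hl : 0 ≤ l) (hH : l * (G.H + 1) ^ 2 ≤ 1 / 4)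
    (hg : ∀ᵐ p ∂G.μ, p.2 ≤ 0 → g p ≤ l) :
    Integrable (fun p => (a p ^ 2 + b p ^ 2) * st (2 - p.2) ^ 2) G.μ ∧
    (∫ p, (a p ^ 2 + b p ^ 2) * st (2 - p.2) ^ 2 ∂G.μ) + 2 * ∫ x, (1 - t x) ^ 2 ∂G.ν ≤
      134 * G.T := by
  have c1 := st'_c
  have c2 := st_c.continuous
  obtain ⟨hD, d1, d2⟩ := Dy' (G := G) (ξ := fun s => st (2 - s) ^ 2)
    (ξ' := fun s => 2 * st (2 - s) * -st' (2 - s)) (fun s =>
      (((st_d _).comp_const_sub 2 s).pow 2).congr_deriv (by simp)) (by fun_prop) (Y := 2)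
    fun s hs => by simp [(st_0 (sub_nonpos.2 hs)).1]
  obtain ⟨Y, hY⟩ := hD.dz
  have e := h.ID (-1) (W := fun _ => 1) (W' := fun _ => 0) (W'' := fun _ => 0) (Φ := id)
    (Φ' := fun _ => 1) (fun s => hasDerivAt_const s 1) (fun s => hasDerivAt_const s 0)
    continuous_const hasDerivAt_id continuous_const (B := 1) (fun _ => by simp) hD
  have i1 := LI.of_int (iadd (isq h.V.m1) (isq h.V.m2)) _ hD.c.continuous
    ⟨Y, fun p hp => (hY p hp).1⟩
  have mu : ∀ f, MemLp f 2 G.μ → MemLp (fun p => f p * (1 - v p)) 2 G.μ := fun f hf =>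
    mem_of_le hf (hf.1.mul (aestronglyMeasurable_const.sub h.V.m0.1)) 1 (h.bv.mono fun p hp => by
      rw [abs_mul, abs_of_nonneg (sub_nonneg.2 hp.2)]; nlinarith [abs_nonneg (f p)])
  have i2 := imul (mu g h.mg) hD.m0
  have i3 := imul (mu b h.V.m2) hD.m2
  obtain ⟨j1, k1⟩ := strip (G := G) (neg_nonpos.2 H_nn) l hl
  obtain ⟨j2, k2⟩ := strip (G := G) zero_le_two 33 (by norm_num)
  refine ⟨i1, ?_⟩
  have e1 : ∫ x, -1 * (1 - t x) * id (-1 * t x + 1) * st (2 - (G.γ x).2) ^ 2 ∂G.ν =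
      -∫ x, (1 - t x) ^ 2 ∂G.ν := by
    rw [← integral_neg]
    congr 1; ext x
    rw [(st_1 (show 1 ≤ 2 - (G.γ x).2 by simp only [γ]; linarith [G.hi x])).1, id]; ring
  have m := integral_mono_ae ((i1.const_mul (1 / 2)).sub (iadd j1 j2)) ((i1.sub i2).sub i3) (by
    filter_upwards [h.bv, h.bg, hg, G.aeμ] with p b1 b2 b3 b4
    simp only [Pi.sub_apply, d2]
    have s1 := st_b (2 - p.2)
    have s2 : g p * (1 - v p) * st (2 - p.2) ^ 2 ≤ g p := by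
      rw [mul_assoc]
      exact mul_le_of_le_one_right b2.1 (mul_le_one₀ (by linarith) (sq_nonneg _)
        (pow_le_one₀ s1.1 s1.2.1))
    have s3 : b p * (1 - v p) * (2 * st (2 - p.2) * -st' (2 - p.2)) ≤
        1 / 2 * (b p * st (2 - p.2)) ^ 2 + 2 * st' (2 - p.2) ^ 2 := by
      have : ((1 - v p) * st' (2 - p.2)) ^ 2 ≤ st' (2 - p.2) ^ 2 := by
        rw [mul_pow]
        exact mul_le_of_le_one_left (sq_nonneg _) (pow_le_one₀ (by linarith) (by linarith))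
      nlinarith [sq_nonneg (b p * st (2 - p.2) + 2 * ((1 - v p) * st' (2 - p.2)))]
    have s4 := sq_nonneg (a p * st (2 - p.2))
    have n1 : 0 ≤ (Prod.snd ⁻¹' Icc (-G.H) 0).indicator (fun _ => l) p :=
      indicator_nonneg (fun _ _ => hl) _
    have n2 : (0 : ℝ) ≤ (Prod.snd ⁻¹' Icc (0 : ℝ) 2).indicator (fun _ => 33) p :=
      indicator_nonneg (fun _ _ => by norm_num) _
    rcases le_total p.2 0 with h1 | h1
    · rw [indicator_of_mem (show p ∈ Prod.snd ⁻¹' Icc (-G.H) 0 from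
        ⟨(G.lo _).trans b4.2.le, h1⟩)]
      rw [(st_1 (show 1 ≤ 2 - p.2 by linarith)).2] at s3 ⊢
      nlinarith [b3 h1]
    rcases le_total p.2 2 with h2 | h2
    · rw [indicator_of_mem (show p ∈ Prod.snd ⁻¹' Icc (0 : ℝ) 2 from ⟨h1, h2⟩)]
      nlinarith [abs_le.1 s1.2.2]
    · simp only [st_0 (sub_nonpos.2 h2)]
      linarith)
  have e2 := (integral_congr_ae (g := (fun p => (a p ^ 2 + b p ^ 2) * st (2 - p.2) ^ 2) -
    (fun p => g p * (1 - v p) * st (2 - p.2) ^ 2) - fun p => b p * (1 - v p) *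
      dy (fun p : ℝ × ℝ => st (2 - p.2) ^ 2) p) (Eventually.of_forall fun p => by
        simp only [d1, id, Pi.sub_apply]; ring)).symm.trans e
  rw [e2, e1] at m
  simp only [Pi.sub_apply] at m
  rw [integral_sub (i1.const_mul _) (iadd j1 j2), integral_add j1 j2, integral_const_mul] at m
  simp only [zero_mul, integral_zero] at m
  have := G.hT
  have := H_nn (G := G)
  have : l * G.H ≤ 1 := by nlinarith [mul_nonneg hl (sq_nonneg G.H), mul_nonneg hl this]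
  nlinarith

theorem BR.half (h : G.BR g v a b t U) {l δ c : ℝ} (hl : 0 < l) (hH : l * (G.H + 1) ^ 2 ≤ 1 / 4)
    (δ0 : 0 < δ) (δ1 : δ ≤ 1 / 500000) (hT : G.T ^ 2 ≤ δ / 40000) (hc : 1 ≤ c * δ)
    {F : Set ℝ} (mF : MeasurableSet F) (F1 : F ⊆ Ico 0 G.T) (F2 : volume.real F = G.T / 4)
    (F3 : ∀ x ∈ F, -δ ≤ G.φ x) (F4 : ENNReal.ofReal c • volume.restrict F ≤ G.ν)
    (hg : ∀ᵐ p ∂G.μ, p.2 ≤ δ → g p ≤ l / 4) : ∀ᵐ p ∂G.μ, p.2 ≤ δ → 1 / 2 ≤ U p := by
  have w := h.ws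
  have T0 := G.hT
  have c0 : 0 < c := pos_of_mul_pos_left (lt_of_lt_of_le one_pos hc) δ0.le
  obtain ⟨i1, e1⟩ := w.cacc hl.le hH (hg.mono fun p hp h1 => by linarith [hp (by linarith)])
  have en : ∀ (S : Set (ℝ × ℝ)) (f : ℝ × ℝ → ℝ), MeasurableSet S → S ≤ᵐ[volume] G.C →
      (∀ p ∈ S, p.2 ≤ 1) → IntegrableOn f S → (∀ p, f p ≤ dx U p ^ 2 + dy U p ^ 2) →
      ∫ p in S, f p ≤ ∫ p, (dx U p ^ 2 + dy U p ^ 2) * st (2 - p.2) ^ 2 ∂G.μ :=
    fun S f mS s1 s2 s3 s4 => (setIntegral_mono_on s3 (IntegrableOn.mono_set_ae i1 s1) mS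
      fun p hp => by
        rw [(st_1 (show 1 ≤ 2 - p.2 by linarith [s2 p hp])).1, one_pow, mul_one]; exact s4 p).trans
      (setIntegral_mono_set i1 (Eventually.of_forall fun p => by positivity) s1)
  have cγ : Continuous fun x => U (G.γ x) := h.cc.comp_continuous G.cγ fun x => mem_cl.2 le_rfl
  have p1 : 0 ≤ ∫ x, (1 - U (G.γ x)) ^ 2 ∂G.ν := integral_nonneg fun _ => sq_nonneg _
  have s1 : Icc 0 G.T ×ˢ Ioo δ (2 * δ) ⊆ G.Ω := fun p hp => (G.hi _).trans_lt (δ0.trans hp.2.1)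
  have s2 := (prod_mono_left (Ioc_subset_Icc_self (a := 0) (b := G.T))).trans s1
  have i2 := (h.en s2 ((isBounded_Ioc _ _).prod (isBounded_Ioo _ _))).1
  obtain ⟨y, y1, y2⟩ := rowp G.isOpen h.cV s1 (by linarith) i2
  have e2 := en _ _ (measurableSet_Ioc.prod measurableSet_Ioo) (by
    filter_upwards [(Measure.quasiMeasurePreserving_fst (μ := volume) (ν := volume)).ae
      (volume.ae_ne G.T)] with p hp hp'
    exact ⟨⟨hp'.1.1.le, lt_of_le_of_ne hp'.1.2 hp⟩, s2 hp'⟩) (fun p hp => by linarith [hp.2.2]) i2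
    fun p => le_add_of_nonneg_right (sq_nonneg _)
  have s3 : G.R F ∩ {z | z.2 ≤ 1} ⊆ G.C := fun p hp => ⟨F1 hp.1.1, hp.1.2⟩
  have i3 := (h.en (K := G.R F ∩ {z | z.2 ≤ 1}) (fun p hp => hp.1.2)
    (((isBounded_Ico 0 G.T).prod (isBounded_Icc (-G.H) 1)).subset fun p hp =>
      ⟨F1 hp.1.1, (G.lo _).trans hp.1.2.le, hp.2⟩)).2
  have e3 := en _ _ ((G.mR mF).inter (measurableSet_le measurable_snd measurable_const))
    s3.eventuallyLE (fun p hp => hp.2) i3 fun p => le_add_of_nonneg_left (sq_nonneg _)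
  have cq : Continuous fun x => (1 - U (G.γ x)) ^ 2 := (continuous_const.sub cγ).pow 2
  have e4 := integral_mono_measure F4 (f := fun x => (1 - U (G.γ x)) ^ 2)
    (Eventually.of_forall fun _ => sq_nonneg _) ((G.memν cq).integrable one_le_two)
  rw [integral_smul_measure, ENNReal.toReal_ofReal c0.le, smul_eq_mul, ← integral_const_mul] at e4
  obtain ⟨x, x1, -, x2, x3⟩ := G.colp h.cV mF (by rw [F2]; linarith) i3
    (q := fun x => c * (1 - U (G.γ x)) ^ 2) (((continuous_const.mul cq).integrableOn_Icc).mono_set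
      (F1.trans Ico_subset_Icc_self)) (fun x => by positivity)
    (Eventually.of_forall fun _ => trivial) (κ := 134 * G.T) (by linarith)
  have x4 := x3 (G.φ x) y le_rfl (by linarith [G.hi x, y1.1]) (by linarith [y1.2])
    (h.cc.comp (Continuous.continuousOn (by fun_prop)) fun s hs => mem_cl.2 hs.1)
  rw [F2] at x2 x4
  have r1 : |1 - U (G.γ x)| ≤ 1 / 16 := abs_le_of_sq_le_sq (by
    have k1 : c * (1 - U (G.γ x)) ^ 2 ≤ 536 := le_of_mul_le_mul_left (by linarith) T0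
    nlinarith [mul_le_mul_of_nonneg_right hc (sq_nonneg (1 - U (G.γ x))),
      mul_le_mul_of_nonneg_right k1 δ0.le]) (by norm_num)
  have r2 : |U (x, y) - U (G.γ x)| ≤ 1 / 16 := abs_le_of_sq_le_sq (by
    have k1 : (U (x, y) - U (G.γ x)) ^ 2 ≤ (y - G.φ x) * 536 :=
      le_of_mul_le_mul_left (by simp only [γ]; linarith) T0
    linarith [F3 x x1, y1.2]) (by norm_num)
  have r3 : ∀ x' ∈ Icc 0 G.T, 1 - U (x', y) ≤ 3 / 16 := fun x' hx' => by
    have k1 := y2 x (Ico_subset_Icc_self (F1 x1)) x' hx'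
    have k2 : |U (x', y) - U (x, y)| ≤ 1 / 16 := abs_le_of_sq_le_sq (le_of_mul_le_mul_left (a := δ)
      (by nlinarith [mul_le_mul_of_nonneg_left (e2.trans (show _ ≤ 134 * G.T by linarith)) T0.le])
      δ0) (by norm_num)
    linarith [abs_le.1 r1, abs_le.1 r2, abs_le.1 k2]
  set W : ℝ → ℝ := fun s => 3 / 4 - l * ((G.H + 1) ^ 2 - (s + G.H) ^ 2) / 2 -
    (8 * δ ^ 3 - max s 0 ^ 3) / (6 * δ) with hWd
  have hW : ∀ s, HasDerivAt W (l * (s + G.H) + max s 0 ^ 2 / (2 * δ)) s := fun s =>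
    ((((((((hasDerivAt_id s).add_const G.H).pow 2).const_sub _).const_mul l).div_const 2).const_sub
      _).sub (((ppow 1 s).const_sub _).div_const _)).congr_deriv (by simp; field_simp; ring)
  have hW' : ∀ s, HasDerivAt (fun s => l * (s + G.H) + max s 0 ^ 2 / (2 * δ)) (l + max s 0 / δ) s :=
    fun s => ((((hasDerivAt_id s).add_const G.H).const_mul l).add
      ((ppow2 s).div_const _)).congr_deriv (by simp; field_simp)
  have cW : Continuous fun s : ℝ => l + max s 0 / δ := by fun_prop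
  have c1 := (c1_of hW' cW).continuous
  have c2 := (c1_of hW c1).continuous
  have cz : ContinuousOn (fun p => -1 * U p + W p.2) G.Ω :=
    (continuousOn_const.mul h.cV.continuousOn).add (Continuous.continuousOn (by fun_prop))
  have H0 := H_nn (G := G)
  obtain ⟨ξ, ξ', Y, -, d1, d2, d3, d4, d5, d6⟩ := tube G.isOpen cz (y := y) fun x' hx' =>
    ⟨s1 ⟨hx', y1⟩, by
      have k1 : (y + G.H) ^ 2 ≤ (G.H + 1) ^ 2 := pow_le_pow_left₀ (by linarith [y1.1])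
        (by linarith [y1.2]) 2
      have k2 : max y 0 ^ 3 ≤ (2 * δ) ^ 3 := pow_le_pow_left₀ (le_max_right _ _)
        (max_le y1.2.le (by linarith)) 3
      have k3 : 0 ≤ (8 * δ ^ 3 - max y 0 ^ 3) / (6 * δ) := div_nonneg (by linarith) (by linarith)
      have k4 := mul_nonneg hl.le (sub_nonneg.2 k1)
      simp only [hWd]; linarith [r3 x' hx']⟩
  obtain ⟨hD, f1, f2⟩ := Dy' (G := G) d1 d2 fun s hs => (d5 s hs).1
  obtain ⟨l0, -, -, l3, -⟩ := w.LIP (ε := -1) (by simp) c2 c1 cW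
  have j0 := l0 _ hD.c.continuous hD.z
  have j3 := l3 _ hD.c.continuous hD.z
  have e := w.ID (-1) hW hW' cW Pp_d Pp'_c Pp'_b hD
  rw [integral_congr_ae (g := fun p => (Pp' (-1 * U p + W p.2) * ((-1 * dx U p) ^ 2 +
    (-1 * dy U p + (l * (p.2 + G.H) + max p.2 0 ^ 2 / (2 * δ))) ^ 2) + (-1 * g p +
      (l + max p.2 0 / δ)) * Pp (-1 * U p + W p.2)) * ξ p.2) (G.aeμ.mono fun p hp => by
    simp only [f1, f2]
    by_cases k1 : p.2 ≤ y
    · simp [(d4 _ k1).2]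
    by_cases k2 : Y ≤ p.2
    · simp [(d5 _ k2).2]
    · rw [Pp_z (d6 p.1 (Ico_subset_Icc_self hp.1) p.2 ⟨(not_le.1 k1).le, (not_le.1 k2).le⟩)]
      simp)] at e
  have q1 : ∫ x, -1 * (1 - U (G.γ x)) * Pp (-1 * U (G.γ x) + W (G.φ x)) * ξ (G.γ x).2 ∂G.ν ≤ 0 :=
    integral_nonpos_of_ae (w.bt.mono fun x hx => mul_nonpos_of_nonpos_of_nonneg
      (mul_nonpos_of_nonpos_of_nonneg (by linarith [hx.2]) (Pp_nn _)) (d3 _))
  have q2 : 0 ≤ ∫ x, (l * (G.φ x + G.H) + max (G.φ x) 0 ^ 2 / (2 * δ)) *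
      Pp (-1 * U (G.γ x) + W (G.φ x)) * ξ (G.γ x).2 ∂G.ι :=
    integral_nonneg fun x => mul_nonneg (mul_nonneg (add_nonneg (mul_nonneg hl.le
      (by linarith [G.lo x])) (by positivity)) (Pp_nn _)) (d3 _)
  have q3 := integral_mono_ae (j3.const_mul (l / 2)) j0 (by
    filter_upwards [hg, w.bg] with p k1 k2
    rw [← mul_assoc]
    refine mul_le_mul_of_nonneg_right (le_add_of_nonneg_of_le (mul_nonneg (Pp'_nn _)
      (by positivity)) (mul_le_mul_of_nonneg_right ?_ (Pp_nn _))) (d3 _)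
    rcases le_total p.2 δ with k3 | k3
    · have : 0 ≤ max p.2 0 / δ := by positivity
      linarith [k1 k3]
    · have : 1 ≤ max p.2 0 / δ := (one_le_div δ0).2 (le_max_of_le_left k3)
      linarith [k2.2])
  rw [integral_const_mul] at q3
  have n0 : 0 ≤ fun p : ℝ × ℝ => Pp (-1 * U p + W p.2) * ξ p.2 := fun p =>
    mul_nonneg (Pp_nn _) (d3 _)
  have q4 := (integral_eq_zero_iff_of_nonneg n0 j3).1 (le_antisymm (nonpos_of_mul_nonpos_right
    (show l / 2 * _ ≤ 0 by linarith) (by linarith)) (integral_nonneg n0))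
  filter_upwards [q4] with p hp k1
  rw [(d4 _ (by linarith [y1.1])).1, mul_one] at hp
  have k2 : -1 * U p + W p.2 ≤ 0 := not_lt.1 fun h' => (Pp_pos h').ne' hp
  have k3 : (8 * δ ^ 3 - max p.2 0 ^ 3) / (6 * δ) ≤ 1 / 8 := by
    rw [div_le_iff₀ (by linarith)]
    have : 0 ≤ max p.2 0 ^ 3 := by positivity
    nlinarith [mul_pos δ0 δ0]
  simp only [hWd] at k2
  nlinarith [mul_nonneg hl.le (sq_nonneg (p.2 + G.H))]

variable (G) in
def Sol (l : ℝ) (U : ℝ × ℝ → ℝ) : Prop := ContDiffOn ℝ 1 U G.Ω ∧ ContinuousOn U (closure G.Ω) ∧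
  (∀ p ∈ G.Ω, 0 ≤ U p ∧ U p < 1) ∧ (∀ K ⊆ G.Ω, Bornology.IsBounded K →
    IntegrableOn (fun p => dx U p ^ 2) K ∧ IntegrableOn (fun p => dy U p ^ 2) K) ∧
  ∀ ζ, ContDiff ℝ 1 ζ → HasCompactSupport ζ → (∫ p in G.Ω, (dx U p * dx ζ p + dy U p * dy ζ p)) +
      ∫ p in G.Ω, FF l 1 (U p) * ζ p = ∫ x, (1 - U (G.γ x)) * ζ (G.γ x) ∂G.σ

lemma BR.sol {l : ℝ} (hl : 0 < l) (hl' : l ≤ 1 / 2) (h : G.BR g v a b t U)
    (hg : (fun p => FF l 1 (v p)) =ᵐ[G.μ] g) : G.Sol l U := by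
  have h' : G.BR (fun p => FF l 1 (v p)) v a b t U := ⟨⟨⟨h.toWS.congr hg .rfl .rfl .rfl .rfl, by
      have := f1_c.measurable.comp h.v1
      have := h.v1
      unfold FF; simp only [Function.comp_def] at *; fun_prop, fun p => by
      have := FF_b hl.le hl' zero_le_one le_rfl (h.v2 p).1 (h.v2 p).2
      exact ⟨this.1, this.2.trans (h.v2 p).2⟩, h.v1, h.v2, h.t1, h.t2⟩, h.cV, h.ae, h.bd⟩,
    h.cc, h.tr⟩
  refine ⟨h.cV, h.cc, h.bd, fun K h1 h2 => h.en h1 h2, fun ζ h1 h2 => ?_⟩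
  rw [← h'.weak h1 h2]
  congr 1
  exact integral_congr_ae (h.ae'.mono fun p hp => by simp only [hp.2.1])

theorem two (G : Geo) {l δ c : ℝ} (hl : 0 < l) (hH : l * (G.H + 1) ^ 2 ≤ 1 / 4)
    (δ0 : 0 < δ) (δ1 : δ ≤ 1 / 500000) (hT : G.T ^ 2 ≤ δ / 40000) (hc : 1 ≤ c * δ)
    {F : Set ℝ} (mF : MeasurableSet F) (F1 : F ⊆ Ico 0 G.T) (F2 : volume.real F = G.T / 4)
    (F3 : ∀ x ∈ F, -δ ≤ G.φ x) (F4 : ENNReal.ofReal c • volume.restrict F ≤ G.ν)
    {x1 x2 y1 : ℝ} (hx : x1 ≤ x2) (hy : y1 ≤ 0) (hK : Ioo x1 x2 ×ˢ Ioo y1 0 ⊆ G.C)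
    (hν : G.c2 * G.T / 2 < (x2 - x1) * (0 - y1) * G1 (1 / 2)) :
    ∃ U1 U2, G.Sol l U1 ∧ G.Sol l U2 ∧ ¬EqOn U1 U2 G.Ω := by
  have H0 := H_nn (G := G)
  have hl' : l ≤ 1 / 2 := by nlinarith [mul_nonneg hl.le (sq_nonneg G.H), mul_nonneg hl.le H0]
  obtain ⟨v, a, b, t, U, h, -⟩ := G.solve' hl hl' (α := fun p => if p.2 ≤ δ then 0 else 1)
    (Measurable.ite (measurableSet_le measurable_snd measurable_const) measurable_const
      measurable_const) fun p => by split_ifs <;> simp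
  obtain ⟨v', a', b', t', U', h', e⟩ := G.solve' hl hl' (α := fun _ => 1) measurable_const
    fun p => by simp
  have hf := h.half hl hH δ0 δ1 hT hc mF F1 F2 F3 F4 (Eventually.of_forall fun p hp => by
    simp only [FF, if_pos hp]
    nlinarith [mul_nonneg hl.le (sq_nonneg (v p - 1 / 2))])
  refine ⟨U, U', h.sol hl hl' ?_, h'.sol hl hl' .rfl, fun he => ?_⟩
  · filter_upwards [hf, aeC h.ae] with p h1 h2
    split_ifs with h3
    · have := h1 h3
      rw [h2.1.1, h2.2] at this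
      simp [FF, f1, max_eq_right (show 2⁻¹ - v p ≤ 0 by linarith)]
    · rfl
  have mK : MeasurableSet (Ioo x1 x2 ×ˢ Ioo y1 0) := measurableSet_Ioo.prod measurableSet_Ioo
  have eK : G.μ (Ioo x1 x2 ×ˢ Ioo y1 0) = ENNReal.ofReal ((x2 - x1) * (0 - y1)) := by
    rw [μ, Measure.restrict_apply mK, inter_eq_left.2 hK, Measure.volume_eq_prod, Measure.prod_prod,
      Real.volume_Ioo, Real.volume_Ioo, ENNReal.ofReal_mul (sub_nonneg.2 hx)]
  have w := h'.ws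
  have gb := fun s => GG_b (s := s) hl.le hl' zero_le_one le_rfl
  have g0 : ∀ s, 0 ≤ s → s ≤ 1 → 0 ≤ G1 s ∧ G1 s ≤ GG l 1 s := fun s h0 h1 =>
    ⟨G1_nn h0, by have := (gb s h0 h1).1; nlinarith [mul_nonneg hl.le (sq_nonneg s)]⟩
  have m := integral_mono_ae (f := (Ioo x1 x2 ×ˢ Ioo y1 0).indicator fun _ => G1 (1 / 2))
    (g := fun p => GG l 1 (U' p)) ((integrable_indicator_iff mK).2 (integrableOn_const
      (eK.trans_ne ENNReal.ofReal_ne_top))) ((isq w.V.m0).mono'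
      ((continuous_iff_continuousAt.2 fun s => (GG_d l 1 s).continuousAt).comp_aestronglyMeasurable
        w.V.m0.1) (w.bv.mono fun p hp => by
        rw [Real.norm_of_nonneg ((g0 _ hp.1 hp.2).1.trans (g0 _ hp.1 hp.2).2)]
        exact (gb _ hp.1 hp.2).2)) (by
      filter_upwards [hf, w.bv] with p h1 h2
      by_cases hp : p ∈ Ioo x1 x2 ×ˢ Ioo y1 0
      · rw [indicator_of_mem hp]
        exact (G1_ge (he (hK hp).2 ▸ h1 (by linarith [hp.2.2]))).trans (g0 _ h2.1 h2.2).2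
      · rw [indicator_of_notMem hp]
        exact (g0 _ h2.1 h2.2).1.trans (g0 _ h2.1 h2.2).2)
  rw [integral_indicator_const _ mK, smul_eq_mul, Measure.real, eK, ENNReal.toReal_ofReal
    (mul_nonneg (sub_nonneg.2 hx) (sub_nonneg.2 hy))] at m
  have : G.ν.real univ ≤ G.c2 * G.T := ENNReal.toReal_le_of_le_ofReal
    (mul_nonneg G.hc2.le G.hT.le) ((G.νι univ).trans_eq (by
      simp [ι, ENNReal.ofReal_mul G.hc2.le]))
  linarith

end Geo

end Pool.Agent.H.MP_1dc5fb_an
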