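import Pool.Agent.H.MP_1dc5fb_an.K

set_option linter.unusedSectionVars false
set_option linter.unusedVariables false
set_option linter.dupNamespace false

namespace Pool.Agent.H.MP_1dc5fb_an

open MeasureTheory Filter Topology Set Metric
open scoped ContDiff NNReal

abbrev E2 := EuclideanSpace ℝ (Fin 2)

noncomputable def eq2 : E2 ≃L[ℝ] ℝ × ℝ :=
  (EuclideanSpace.equiv (Fin 2) ℝ).trans (ContinuousLinearEquiv.finTwoArrow ℝ ℝ)

lemma eq2_apply (x : E2) : eq2 x = (x 0, x 1) := rfl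
lemma eq2_s0 (p : ℝ × ℝ) : eq2.symm p 0 = p.1 := rfl
lemma eq2_s1 (p : ℝ × ℝ) : eq2.symm p 1 = p.2 := rfl

lemma eq2_mp : MeasurePreserving eq2 volume volume :=
  (volume_preserving_finTwoArrow ℝ).comp (PiLp.volume_preserving_ofLp (Fin 2))

lemma eq2_emb : MeasurableEmbedding eq2 := eq2.toHomeomorph.measurableEmbedding

lemma grad (U : ℝ × ℝ → ℝ) (x : E2) :
    gradient (U ∘ eq2) x 0 = dx U (eq2 x) ∧ gradient (U ∘ eq2) x 1 = dy U (eq2 x) := by
  have : ∀ i, gradient (U ∘ eq2) x i = fderiv ℝ U (eq2 x) (eq2 (EuclideanSpace.single i 1)) :=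
    fun i => by
    have := inner_gradient_left (𝕜 := ℝ) (f := U ∘ eq2) (x := x) (y := EuclideanSpace.single i 1)
    rw [eq2.comp_right_fderiv, EuclideanSpace.inner_single_right] at this
    simpa using this
  constructor <;> rw [this] <;> simp [dx, dy, eq2_apply]

noncomputable def gE (φ : ℝ → ℝ) (x : ℝ) : E2 := eq2.symm (x, φ x)
noncomputable def sig (φ : ℝ → ℝ) : Measure ℝ := (Measure.hausdorffMeasure 1 : Measure E2).comap (gE φ)

section sig
variable {φ : ℝ → ℝ}

lemma gE_emb (h : Continuous φ) : MeasurableEmbedding (gE φ) :=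
  Continuous.measurableEmbedding (by unfold gE; fun_prop) fun x y e => congrArg (fun z : E2 => z 0) e

lemma sig_ge (h : Continuous φ) {B : Set ℝ} {K : ℝ≥0}
    (hB : ∀ x ∈ B, ∀ x' ∈ B, dist x x' ≤ K * dist (gE φ x) (gE φ x')) : volume B ≤ K * sig φ B := by
  have := (LipschitzOnWith.of_dist_le_mul (f := fun z : E2 => z 0) (s := gE φ '' B) (K := K) (by
    rintro _ ⟨x, hx, rfl⟩ _ ⟨x', hx', rfl⟩; exact hB x hx x' hx')).hausdorffMeasure_image_le
    zero_le_one
  rw [image_image, ENNReal.rpow_one, hausdorffMeasure_real] at this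
  rw [sig, (gE_emb h).comap_apply]
  exact (congrArg volume (image_id' B).symm).trans_le this

lemma sig_lo (h : Continuous φ) : volume ≤ sig φ := Measure.le_iff'.2 fun B => by
  simpa using sig_ge h (B := B) (K := 1) fun x _ x' _ => by
    rw [NNReal.coe_one, one_mul]; exact PiLp.dist_apply_le (gE φ x) (gE φ x') 0

lemma sig_up (h : Continuous φ) {L : ℝ} (hL : 0 ≤ L) (hl : ∀ x x', |φ x - φ x'| ≤ L * |x - x'|) :
    sig φ ≤ ENNReal.ofReal (L + 1) • volume := Measure.le_iff'.2 fun B => by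
  have := (LipschitzWith.of_dist_le_mul (f := gE φ) (K := (L + 1).toNNReal) fun x x' => by
    rw [EuclideanSpace.dist_eq, Fin.sum_univ_two, Real.coe_toNNReal _ (by linarith)]
    simp only [gE, eq2_s0, eq2_s1, Real.dist_eq]
    refine Real.sqrt_le_iff.2 ⟨by positivity, ?_⟩
    have := pow_le_pow_left₀ (abs_nonneg _) (hl x x') 2
    nlinarith [mul_nonneg hL (sq_nonneg |x - x'|)]).hausdorffMeasure_image_le zero_le_one B
  rw [ENNReal.rpow_one, hausdorffMeasure_real] at this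
  rw [sig, (gE_emb h).comap_apply]
  exact this

lemma sig_inv (h : Continuous φ) {T : ℝ} (hp : ∀ x, φ (x + T) = φ x) :
    MeasurePreserving (fun x => x + T) (sig φ) (sig φ) := by
  refine ⟨by fun_prop, Measure.ext fun s hs => ?_⟩
  rw [Measure.map_apply (by fun_prop) hs, sig, (gE_emb h).comap_apply, (gE_emb h).comap_apply,
    ← (IsometryEquiv.addRight (eq2.symm (T, 0))).hausdorffMeasure_image, image_image]
  have : ∀ x, IsometryEquiv.addRight (eq2.symm (T, 0)) (gE φ x) = gE φ (x + T) := fun x => by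
    simp [gE, ← map_add, hp]
  simp only [this]
  rw [← image_image (gE φ) (fun x => x + T), image_preimage_eq _ (add_right_surjective T)]

lemma sig_steep (h : Continuous φ) {L η : ℝ} (hL : 0 < L) (hη : 0 < η) {B : Set ℝ}
    (mB : MeasurableSet B) (hB : ∀ j : ℤ, ∀ x ∈ B ∩ Ico (j • η) ((j + 1) • η),
      ∀ x' ∈ B ∩ Ico (j • η) ((j + 1) • η), |φ x - φ x'| = L * |x - x'|) :
    ENNReal.ofReal L * volume B ≤ sig φ B := by
  have e : ∀ m : Measure ℝ, m B = ∑' j : ℤ, m (B ∩ Ico (j • η) ((j + 1) • η)) := fun m => by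
    rw [← measure_iUnion ((pairwise_disjoint_Ico_zsmul η).mono fun i j hij =>
      hij.mono inter_subset_right inter_subset_right) fun j => mB.inter measurableSet_Ico,
      ← inter_iUnion, iUnion_Ico_zsmul hη, inter_univ]
  rw [e, e (sig φ), ← ENNReal.tsum_mul_left]
  refine ENNReal.tsum_le_tsum fun j => ?_
  have := sig_ge h (B := B ∩ Ico (j • η) ((j + 1) • η)) (K := L⁻¹.toNNReal) fun x hx x' hx' => by
    have h1 : |φ x - φ x'| ≤ _ := PiLp.dist_apply_le (gE φ x) (gE φ x') 1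
    rw [Real.coe_toNNReal _ (by positivity), ← div_eq_inv_mul, le_div_iff₀' hL, Real.dist_eq,
      ← hB j x hx x' hx']
    exact h1
  refine (mul_le_mul_right this _).trans_eq ?_
  change ENNReal.ofReal L * (ENNReal.ofReal L⁻¹ * _) = _
  rw [← mul_assoc, ← ENNReal.ofReal_mul hL.le, mul_inv_cancel₀ hL.ne', ENNReal.ofReal_one, one_mul]

end sig

noncomputable def tooth (p x : ℝ) : ℝ := ‖(x : AddCircle p)‖

lemma tooth_lip (p x x' : ℝ) : |tooth p x - tooth p x'| ≤ |x - x'| :=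
  (abs_norm_sub_norm_le _ _).trans (by
    rw [← AddCircle.coe_sub]; exact QuotientAddGroup.norm_mk_le_norm)

lemma tooth_per (p x : ℝ) (k : ℤ) : tooth p (x + k * p) = tooth p x := by
  rw [tooth, AddCircle.coe_add, ← zsmul_eq_mul, AddCircle.coe_zsmul, AddCircle.coe_period,
    smul_zero, add_zero, tooth]

lemma tooth_eq {p x : ℝ} (hp : 0 < p) (k : ℤ) (h : |x - k * p| ≤ p / 2) :
    tooth p x = |x - k * p| := by
  rw [← (AddCircle.norm_coe_eq_abs_iff p hp.ne').2 (by rwa [abs_of_pos hp])]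
  have := tooth_per p (x - k * p) k
  rwa [sub_add_cancel] at this

lemma tooth_b {p : ℝ} (hp : 0 < p) (x : ℝ) : 0 ≤ tooth p x ∧ tooth p x ≤ p / 2 :=
  ⟨norm_nonneg _, (AddCircle.norm_le_half_period p hp.ne').trans_eq (by rw [abs_of_pos hp])⟩

lemma tooth_st {h : ℝ} (h0 : 0 < h) (j : ℤ) {x x' : ℝ} (hx : x ∈ Ico (j • h) ((j + 1) • h))
    (hx' : x' ∈ Ico (j • h) ((j + 1) • h)) : |tooth (2 * h) x - tooth (2 * h) x'| = |x - x'| := by
  simp only [zsmul_eq_mul, mem_Ico] at hx hx'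
  obtain ⟨m, rfl | rfl⟩ := Int.even_or_odd' j <;> push_cast at hx hx'
  · rw [tooth_eq (by linarith) m (abs_le.2 ⟨by linarith, by linarith⟩),
      tooth_eq (by linarith) m (abs_le.2 ⟨by linarith, by linarith⟩),
      abs_of_nonneg (a := x - _) (by linarith), abs_of_nonneg (a := x' - _) (by linarith)]
    congr 1; ring
  · rw [tooth_eq (by linarith) (m + 1) (abs_le.2 ⟨by push_cast; linarith, by push_cast; linarith⟩),
      tooth_eq (by linarith) (m + 1) (abs_le.2 ⟨by push_cast; linarith, by push_cast; linarith⟩),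
      abs_of_nonpos (a := x - _) (by push_cast; linarith),
      abs_of_nonpos (a := x' - _) (by push_cast; linarith), abs_sub_comm]
    congr 1; ring

theorem geo : ∃ (G : Geo) (β l : ℝ), 0 < β ∧ 0 < l ∧ G.σ = ENNReal.ofReal β • sig G.φ ∧
    ∃ U1 U2, G.Sol l U1 ∧ G.Sol l U2 ∧ ¬EqOn U1 U2 G.Ω := by
  obtain ⟨w, hw⟩ : ∃ w : ℝ, w = 1 / 800000 := ⟨_, rfl⟩
  have w0 : 0 < w := by rw [hw]; norm_num
  have g0 := G1_pos
  obtain ⟨β, hβ⟩ : ∃ β : ℝ, β = G1 (1 / 2) * w / 16 := ⟨_, rfl⟩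
  have β0 : 0 < β := by rw [hβ]; positivity
  obtain ⟨L, hL⟩ : ∃ L : ℝ, L = 500000 / β + 1 := ⟨_, rfl⟩
  have L1 : 1 ≤ L := by rw [hL]; exact le_add_of_nonneg_left (by positivity)
  have L2 : β * L = 500000 + β := by rw [hL]; field_simp
  obtain ⟨n, hn⟩ := exists_nat_gt (L * w * 500000 + 1)
  have Lw : 0 < L * w := by positivity
  have n1 : (1 : ℝ) < n := by linarith
  obtain ⟨h, hh⟩ : ∃ h : ℝ, h = w / (2 * n) := ⟨_, rfl⟩
  have h0 : 0 < h := by rw [hh]; positivity
  have h1 : (4 * n : ℤ) * (2 * h) = 4 * w := by rw [hh]; push_cast; field_simp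
  have h2 : h * (2 * n) = w := by rw [hh]; field_simp
  have h3 : h ≤ w := by nlinarith
  have h4 : L * h ≤ 1 / 500000 := by
    refine le_of_mul_le_mul_right (a := 2 * (n : ℝ)) ?_ (by linarith)
    rw [mul_assoc, h2]; linarith
  set φ : ℝ → ℝ := fun x => -L * max (tooth (2 * h) x) (w - tooth (4 * w) (x - w)) with hφ
  have lip : ∀ x x', |φ x - φ x'| ≤ L * |x - x'| := fun x x' => by
    simp only [hφ]
    rw [← mul_sub, abs_mul, abs_neg, abs_of_nonneg (by linarith : 0 ≤ L)]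
    refine mul_le_mul_of_nonneg_left ((abs_max_sub_max_le_max _ _ _ _).trans
      (max_le (tooth_lip _ _ _) ?_)) (by linarith)
    rw [sub_sub_sub_cancel_left, abs_sub_comm]
    simpa using tooth_lip (4 * w) (x - w) (x' - w)
  have c : Continuous φ := (LipschitzWith.of_dist_le_mul (K := ⟨L, by linarith⟩) lip).continuous
  have per : ∀ x, φ (x + 4 * w) = φ x := fun x => by
    have e1 := tooth_per (2 * h) x (4 * n)
    have e2 := tooth_per (4 * w) (x - w) 1
    rw [h1] at e1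
    simp only [hφ, e1]
    rw [← e2]; congr 4; push_cast; ring
  have tb := tooth_b (show 0 < 2 * h by linarith)
  have eF : ∀ x ∈ Ico (2 * w) (3 * w), φ x = -L * tooth (2 * h) x := fun x hx => by
    simp only [hφ]
    rw [tooth_eq (x := x - w) (by linarith) 0 (abs_le.2 ⟨by simp; linarith [hx.1],
      by simp; linarith [hx.2]⟩), max_eq_left]
    simp only [Int.cast_zero, zero_mul, sub_zero]
    linarith [le_abs_self (x - w), (tb x).1, hx.1]
  let G : Geo := ⟨4 * w, L * w, L, β, β * (L + 1), φ, ENNReal.ofReal β • sig φ, by linarith,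
    by linarith, β0, by positivity, lip, per, fun x => by
      simp only [hφ, neg_mul, neg_le_neg_iff]
      exact mul_le_mul_of_nonneg_left (max_le (by linarith [(tb x).2]) (by
        linarith [(tooth_b (show 0 < 4 * w by linarith) (x - w)).1])) (by linarith),
    fun x => mul_nonpos_of_nonpos_of_nonneg (by linarith) (le_max_of_le_left (tb x).1),
    by gcongr; exact sig_lo c, by
      rw [ENNReal.ofReal_mul β0.le, mul_smul]; gcongr; exact sig_up c (by linarith) lip,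
    (sig_inv c per).smul_measure _⟩
  refine ⟨G, β, 1 / (4 * (L * w + 1) ^ 2), β0, by positivity, rfl,
    G.two (δ := 1 / 500000) (c := β * L) (F := Ico (2 * w) (3 * w)) (x1 := w / 2) (x2 := 3 * w / 2)
    (y1 := -(L * w / 2)) (by positivity) (le_of_eq (by simp only [G]; field_simp)) (by norm_num)
    le_rfl (by simp only [G]; rw [hw]; norm_num) (by linarith) measurableSet_Ico
    (Ico_subset_Ico (by linarith) (by simp only [G]; linarith))
    (by rw [Real.volume_real_Ico_of_le (by linarith)]; simp only [G]; ring) (fun x hx => by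
      change _ ≤ φ x
      rw [eF x hx]; nlinarith [(tb x).2]) (Measure.le_iff.2 fun s hs => ?_) (by linarith)
    (by linarith) (fun p hp => ⟨⟨by linarith [hp.1.1], by simp only [G]; linarith [hp.1.2]⟩, ?_⟩)
    (by simp only [G]; rw [show G1 (1 / 2) = 16 * β / w by rw [hβ]; field_simp]; field_simp
        nlinarith)⟩
  · have := sig_steep c (by linarith : 0 < L) h0 (hs.inter (measurableSet_Ico (a := 2 * w)
      (b := 3 * w))) fun j x hx x' hx' => by
      rw [eF x hx.1.2, eF x' hx'.1.2, ← mul_sub, abs_mul, abs_neg, abs_of_nonneg (by linarith : 0 ≤ L),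
        tooth_st h0 j hx.2 hx'.2]
    simp only [Geo.ν, G, Measure.smul_apply, Measure.restrict_apply hs, smul_eq_mul,
      ENNReal.ofReal_mul β0.le, mul_assoc]
    gcongr
    exact this.trans (measure_mono (inter_subset_inter_right _
      (Ico_subset_Ico (by linarith) (by linarith))))
  · change φ p.1 < p.2
    have k1 : w / 2 ≤ w - tooth (4 * w) (p.1 - w) := by
      rw [tooth_eq (x := p.1 - w) (by linarith) 0 (abs_le.2 ⟨by simp; linarith [hp.1.1],
        by simp; linarith [hp.1.2]⟩)]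
      simp only [Int.cast_zero, zero_mul, sub_zero]
      have : |p.1 - w| ≤ w / 2 := abs_le.2 ⟨by linarith [hp.1.1], by linarith [hp.1.2]⟩
      linarith
    have := mul_le_mul_of_nonneg_left (le_max_of_le_right (b := tooth (2 * h) p.1) k1)
      (by linarith : 0 ≤ L)
    simp only [hφ]
    linarith [hp.2.1]

noncomputable def ff (l u : ℝ) : ℝ := FF l 1 (1 - u)
noncomputable def ff' (l u : ℝ) : ℝ :=
  l * (1 - 2 * u) + (2 * max (u - 1 / 2) 0 * (1 - u) - max (u - 1 / 2) 0 ^ 2)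

lemma ff_e (l u : ℝ) : ff l u = l * (u - u ^ 2) + max (u - 1 / 2) 0 ^ 2 * (1 - u) := by
  simp only [ff, FF, f1]; rw [show 1 / 2 - (1 - u) = u - 1 / 2 by ring]; ring

lemma ff_d (l u : ℝ) : HasDerivAt (ff l) (ff' l u) u := by
  rw [funext (ff_e l)]
  refine ((((hasDerivAt_id u).sub (hasDerivAt_pow 2 u)).const_mul l).add
    (((ppow2 _).comp_sub_const u (1 / 2)).mul ((hasDerivAt_id u).const_sub 1))).congr_deriv ?_
  simp [ff']; ring

lemma ff_p {l : ℝ} (hl : 0 < l) : ContDiff ℝ 1 (ff l) ∧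
    (∃ C γ : NNReal, 0 < γ ∧ γ < 1 ∧ HolderOnWith C γ (deriv (ff l)) (Set.Icc (0:ℝ) 1)) ∧
    ff l 0 = 0 ∧ ff l 1 = 0 ∧ (∀ s ∈ Set.Ioo (0:ℝ) 1, 0 < ff l s) ∧
    0 < deriv (ff l) 0 ∧ deriv (ff l) 1 < 0 := by
  rw [funext fun u => (ff_d l u).deriv]
  refine ⟨c1_of (ff_d l) (by unfold ff'; fun_prop), ⟨_, 1 / 2, by norm_num, by norm_num,
    (LipschitzOnWith.of_dist_le_mul (K := ⟨2 * l + 4, by linarith⟩) fun x hx y hy => ?_
      ).holderOnWith.of_le (D := 1) (fun x hx y hy => ?_) (by norm_num)⟩, by simp [ff_e],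
    by simp [ff_e], fun s hs => ?_, by norm_num [ff', hl], by norm_num [ff']; linarith⟩
  · rw [Real.dist_eq, Real.dist_eq]
    have k := abs_max_sub_max_le_abs (x - 1 / 2) (y - 1 / 2) 0
    rw [sub_sub_sub_cancel_right] at k
    have a1 := le_max_right (x - 1 / 2) 0
    have a2 := le_max_right (y - 1 / 2) 0
    have a3 : max (x - 1 / 2) 0 ≤ 1 / 2 := max_le (by linarith [hx.2]) (by norm_num)
    have a4 : max (y - 1 / 2) 0 ≤ 1 / 2 := max_le (by linarith [hy.2]) (by norm_num)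
    simp only [ff']
    set m := max (x - 1 / 2) 0
    set m' := max (y - 1 / 2) 0
    rw [show l * (1 - 2 * x) + (2 * m * (1 - x) - m ^ 2) - (l * (1 - 2 * y) + (2 * m' * (1 - y) -
      m' ^ 2)) = -(2 * l + 2 * m') * (x - y) + (2 * (1 - x) - (m + m')) * (m - m') by ring]
    refine (abs_add_le _ _).trans ?_
    rw [abs_mul, abs_mul, abs_neg, abs_of_nonneg (by linarith : 0 ≤ 2 * l + 2 * m')]
    have a5 : |2 * (1 - x) - (m + m')| ≤ 2 := abs_le.2 ⟨by linarith [hx.2], by linarith [hx.1]⟩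
    have := mul_le_mul a5 k (abs_nonneg _) zero_le_two
    change _ ≤ (2 * l + 4) * _
    nlinarith [abs_nonneg (x - y)]
  · rw [edist_dist, ENNReal.coe_one, ENNReal.ofReal_le_one, Real.dist_eq]
    exact abs_le.2 ⟨by linarith [hx.1, hy.2], by linarith [hx.2, hy.1]⟩
  · rw [ff_e]
    have : 0 < s - s ^ 2 := by nlinarith [hs.1, hs.2]
    have : 0 ≤ 1 - s := by linarith [hs.2]
    positivity

theorem conv {G : Geo} {β l : ℝ} (β0 : 0 < β) (hσ : G.σ = ENNReal.ofReal β • sig G.φ)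
    {U : ℝ × ℝ → ℝ} (h : G.Sol l U) {Ω : Set E2} (hΩ : Ω = eq2 ⁻¹' G.Ω) {w : E2 → ℝ}
    (hw : w = (fun p => 1 - U p) ∘ eq2) :
    ContDiffOn ℝ 1 w Ω ∧ ContinuousOn w (closure Ω) ∧ (∀ x ∈ Ω, 0 < w x ∧ w x ≤ 1) ∧
      (∀ R : ℝ, IntegrableOn (fun x => ‖gradient w x‖ ^ 2) (Ω ∩ Metric.ball 0 R)) ∧
      (∀ ψ : E2 → ℝ, ContDiff ℝ 1 ψ → HasCompactSupport ψ →
        (∫ x in Ω, inner ℝ (gradient w x) (gradient ψ x))
          + (1/β⁻¹) * (∫ x in frontier Ω, w x * ψ x ∂(Measure.hausdorffMeasure 1))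
          = ∫ x in Ω, ff l (w x) * ψ x) := by
  obtain ⟨h1, h2, h3, h4, h5⟩ := h
  subst hΩ hw
  have d : dx (fun p => 1 - U p) = (fun p => -dx U p) ∧ dy (fun p => 1 - U p) = fun p => -dy U p := by
    constructor <;> ext p <;> simp [dx, dy, fderiv_const_sub]
  refine ⟨(contDiffOn_const.sub h1).comp eq2.contDiff.contDiffOn fun _ h => h,
    (continuousOn_const.sub h2).comp eq2.continuous.continuousOn fun x hx =>
      eq2.continuous.closure_preimage_subset _ hx,
    fun x hx => ⟨sub_pos.2 (h3 _ hx).2, sub_le_self _ (h3 _ hx).1⟩, fun R => ?_, fun ψ c1 c2 => ?_⟩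
  · have := h4 (G.Ω ∩ eq2 '' ball 0 R) inter_subset_left
      ((eq2.lipschitz.isBounded_image isBounded_ball).subset inter_subset_right)
    have := (eq2_mp.integrableOn_comp_preimage eq2_emb).2 (iadd this.1 this.2)
    rw [preimage_inter, preimage_image_eq _ eq2.injective] at this
    refine this.congr (Eventually.of_forall fun x => ?_)
    simp [EuclideanSpace.norm_sq_eq, Fin.sum_univ_two, grad, d]
  obtain ⟨ζ, rfl⟩ : ∃ ζ : ℝ × ℝ → ℝ, ψ = ζ ∘ eq2 := ⟨ψ ∘ eq2.symm, by ext; simp⟩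
  have c3 : ContDiff ℝ 1 ζ := eq2.contDiff_comp_iff.1 c1
  have c4 : HasCompactSupport ζ := by
    simpa [Function.comp_def] using c2.comp_homeomorph eq2.symm.toHomeomorph
  have e := h5 ζ c3 c4
  rw [← eq2_mp.setIntegral_preimage_emb eq2_emb, ← eq2_mp.setIntegral_preimage_emb eq2_emb, hσ,
    integral_smul_measure, ENNReal.toReal_ofReal β0.le] at e
  have fr : frontier (eq2 ⁻¹' G.Ω) = range (gE G.φ) := by
    rw [← eq2.coe_toHomeomorph, ← eq2.toHomeomorph.preimage_frontier, G.isOpen.frontier_eq]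
    ext x
    refine ⟨fun h => ⟨x 0, eq2.symm_apply_eq.2 (Prod.ext rfl
      (le_antisymm (Geo.mem_cl.1 h.1) (not_lt.1 h.2)))⟩, ?_⟩
    rintro ⟨y, rfl⟩
    exact ⟨Geo.mem_cl.2 le_rfl, lt_irrefl (G.φ y)⟩
  rw [fr, ← (gE_emb G.cont).map_comap, (gE_emb G.cont).integral_map, one_div, inv_inv]
  have e2 : ∫ x in eq2 ⁻¹' G.Ω, inner ℝ (gradient ((fun p => 1 - U p) ∘ eq2) x)
      (gradient (ζ ∘ eq2) x) = -∫ x in eq2 ⁻¹' G.Ω,
        (dx U (eq2 x) * dx ζ (eq2 x) + dy U (eq2 x) * dy ζ (eq2 x)) := by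
    rw [← integral_neg]
    congr 1; ext x
    rw [PiLp.inner_apply, Fin.sum_univ_two]
    simp only [grad, d]
    simp; ring
  rw [e2]
  simp only [Function.comp, gE, ContinuousLinearEquiv.apply_symm_apply, ff, sub_sub_cancel]
  simp only [smul_eq_mul, sig, Geo.γ] at e
  linarith

end Pool.Agent.H.MP_1dc5fb_an
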